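import Pool.Agent.Helper75.Basic

open MeasureTheory Module Set Filter Topology
open scoped RealInnerProductSpace ENNReal

namespace Pool.Agent.Helper75

variable {E : Type*} [NormedAddCommGroup E] [InnerProductSpace ℝ E]

/-- the intersection of the half-spaces `⟪c.1, x⟫ ≤ c.2`. -/
def poly (I : Finset (E × ℝ)) : Set E := {x | ∀ c ∈ I, ⟪c.1, x⟫ ≤ c.2}

theorem mem_poly {I : Finset (E × ℝ)} {x : E} : x ∈ poly I ↔ ∀ c ∈ I, ⟪c.1, x⟫ ≤ c.2 := Iff.rfl

theorem convex_poly (I : Finset (E × ℝ)) : Convex ℝ (poly I) := by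
  intro y hy z hz a b ha hb hab
  rw [mem_poly] at *
  intro c hc
  rw [inner_add_right, inner_smul_right, inner_smul_right]
  have h1 := mul_le_mul_of_nonneg_left (hy c hc) ha
  have h2 := mul_le_mul_of_nonneg_left (hz c hc) hb
  calc _ ≤ a * c.2 + b * c.2 := add_le_add h1 h2
    _ = c.2 := by rw [← add_mul, hab, one_mul]

theorem isClosed_poly (I : Finset (E × ℝ)) : IsClosed (poly I) := by
  have : poly I = ⋂ c ∈ I, {x | ⟪c.1, x⟫ ≤ c.2} := by
    ext x; simp [mem_poly]
  rw [this]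
  exact isClosed_biInter fun c _ => isClosed_le (by fun_prop) continuous_const

open Classical in
theorem poly_inter_hyp (I : Finset (E × ℝ)) (u : E) (s : ℝ) :
    poly I ∩ hyp u s = poly (insert (u, s) (insert (-u, -s) I)) := by
  ext x
  simp only [mem_inter_iff, mem_poly, mem_hyp, Finset.mem_insert, forall_eq_or_imp, inner_neg_left]
  constructor
  · rintro ⟨h1, h2⟩
    exact ⟨h2.le, by linarith, h1⟩
  · rintro ⟨h1, h2, h3⟩
    exact ⟨h3, by linarith⟩

theorem exists_pos_add_smul_mem {I : Finset (E × ℝ)} {x v : E} (hx : x ∈ poly I)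
    (hv : ∀ c ∈ I, ⟪c.1, x⟫ = c.2 → ⟪c.1, v⟫ ≤ 0) : ∃ ε : ℝ, 0 < ε ∧ x + ε • v ∈ poly I := by
  have h : ∀ᶠ ε : ℝ in 𝓝[>] 0, ∀ c ∈ I, ⟪c.1, x + ε • v⟫ ≤ c.2 := by
    rw [Filter.eventually_all_finset]
    intro c hc
    by_cases hact : ⟪c.1, x⟫ = c.2
    · filter_upwards [self_mem_nhdsWithin] with ε hε
      rw [inner_add_right, inner_smul_right, hact]
      have := mul_nonpos_of_nonneg_of_nonpos (le_of_lt (mem_Ioi.1 hε)) (hv c hc hact)
      linarith
    · have hlt : ⟪c.1, x⟫ < c.2 := lt_of_le_of_ne (hx c hc) hact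
      have hcont : Tendsto (fun ε : ℝ => ⟪c.1, x + ε • v⟫) (𝓝[>] 0) (𝓝 ⟪c.1, x + (0 : ℝ) • v⟫) := by
        apply Tendsto.mono_left _ nhdsWithin_le_nhds
        apply Continuous.tendsto
        fun_prop
      rw [zero_smul, add_zero] at hcont
      filter_upwards [hcont.eventually_lt_const hlt] with ε hε using hε.le
  obtain ⟨ε, h1, h2⟩ := (h.and self_mem_nhdsWithin).exists
  exact ⟨ε, h2, h1⟩

theorem mem_vectorSpan_mface_poly {I : Finset (E × ℝ)} {x v : E} (hx : x ∈ poly I) :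
    v ∈ vectorSpan ℝ (mface (poly I) x) ↔ ∀ c ∈ I, ⟪c.1, x⟫ = c.2 → ⟪c.1, v⟫ = 0 := by
  rw [mem_vectorSpan_mface (convex_poly I) hx]
  constructor
  · rintro ⟨ε, hε, h1, h2⟩ c hc hact
    have h1 := h1 c hc
    have h2 := h2 c hc
    rw [inner_add_right, inner_smul_right, hact] at h1
    rw [inner_sub_right, inner_smul_right, hact] at h2
    have : ε * ⟪c.1, v⟫ = 0 := by linarith
    exact (mul_eq_zero.1 this).resolve_left hε.ne'
  · intro h
    obtain ⟨ε, hε, h1⟩ := exists_pos_add_smul_mem hx (v := v) fun c hc ha => (h c hc ha).le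
    obtain ⟨δ, hδ, h2⟩ := exists_pos_add_smul_mem hx (v := -v)
      fun c hc ha => by rw [inner_neg_right, h c hc ha, neg_zero]
    refine ⟨min ε δ, lt_min hε hδ, ?_, ?_⟩
    · exact add_smul_mem_of_le (convex_poly I) hx (le_min hε.le hδ.le) (min_le_left _ _) h1
    · have := add_smul_mem_of_le (convex_poly I) hx (le_min hε.le hδ.le) (min_le_right _ _) h2
      rwa [smul_neg, ← sub_eq_add_neg] at this

theorem mem_mface_poly {I : Finset (E × ℝ)} {x y : E} (hx : x ∈ poly I) :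
    y ∈ mface (poly I) x ↔ y ∈ poly I ∧ ∀ c ∈ I, ⟪c.1, x⟫ = c.2 → ⟪c.1, y⟫ = c.2 := by
  rw [mem_mface_iff (convex_poly I) hx, mem_vectorSpan_mface_poly hx]
  refine and_congr_right fun _ => forall_congr' fun c => forall_congr' fun _ => ?_
  constructor
  · intro h ha
    have := h ha
    rw [inner_sub_right] at this
    linarith
  · intro h ha
    rw [inner_sub_right, h ha, ha, sub_self]

/-- the nonempty faces of a set. -/
def faces (P : Set E) : Set (Set E) := {F | ∃ x ∈ P, F = mface P x}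

/-- the `k`-dimensional faces. -/
def kfaces (k : ℕ) (P : Set E) : Set (Set E) :=
  {F | F ∈ faces P ∧ finrank ℝ (vectorSpan ℝ F) = k}

theorem finite_faces_poly (I : Finset (E × ℝ)) : (faces (poly I)).Finite := by
  classical
  have : (faces (poly I)) ⊆
      (fun J : Finset (E × ℝ) => {y | y ∈ poly I ∧ ∀ c ∈ J, ⟪c.1, y⟫ = c.2}) ''
        (I.powerset : Set (Finset (E × ℝ))) := by
    rintro F ⟨x, hx, rfl⟩
    refine ⟨I.filter fun c => ⟪c.1, x⟫ = c.2, ?_, ?_⟩
    · exact Finset.mem_coe.2 (Finset.mem_powerset.2 (Finset.filter_subset _ _))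
    · ext y
      rw [mem_mface_poly hx]
      simp only [mem_ofPred_eq, Finset.mem_filter, and_imp]
  exact (Finset.finite_toSet _).image _ |>.subset this

theorem card_faces_poly_le (I : Finset (E × ℝ)) : (faces (poly I)).encard ≤ 2 ^ I.card := by
  classical
  have : (faces (poly I)) ⊆
      (fun J : Finset (E × ℝ) => {y | y ∈ poly I ∧ ∀ c ∈ J, ⟪c.1, y⟫ = c.2}) ''
        (I.powerset : Set (Finset (E × ℝ))) := by
    rintro F ⟨x, hx, rfl⟩
    refine ⟨I.filter fun c => ⟪c.1, x⟫ = c.2, ?_, ?_⟩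
    · exact Finset.mem_coe.2 (Finset.mem_powerset.2 (Finset.filter_subset _ _))
    · ext y
      rw [mem_mface_poly hx]
      simp only [mem_ofPred_eq, Finset.mem_filter, and_imp]
  refine (encard_le_encard this).trans ((encard_image_le _ _).trans ?_)
  rw [encard_coe_eq_coe_finsetCard, Finset.card_powerset]
  simp

theorem finite_kfaces_poly (k : ℕ) (I : Finset (E × ℝ)) : (kfaces k (poly I)).Finite :=
  (finite_faces_poly I).subset fun _ h => h.1

/-- the support function description: nonempty exposed sets of `poly I` are faces. -/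
theorem exposed_mem_faces {I : Finset (E × ℝ)} {a : E} {F : Set E}
    (hF : F = {x | x ∈ poly I ∧ ∀ y ∈ poly I, ⟪a, y⟫ ≤ ⟪a, x⟫}) (hne : F.Nonempty) :
    F ∈ faces (poly I) := by
  classical
  -- choose a point of `F` with fewest active constraints
  let act : E → Finset (E × ℝ) := fun x => I.filter fun c => ⟪c.1, x⟫ = c.2
  obtain ⟨x, hx, hmin⟩ : ∃ x ∈ F, ∀ y ∈ F, (act x).card ≤ (act y).card := by
    let S : Set ℕ := (fun x => (act x).card) '' F
    have hS : S.Nonempty := hne.image _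
    obtain ⟨x, hx, hx'⟩ := Nat.sInf_mem hS
    refine ⟨x, hx, fun y hy => ?_⟩
    have : sInf S ≤ (act y).card := Nat.sInf_le ⟨y, hy, rfl⟩
    rw [← hx'] at this
    exact this
  have hxF := hx
  rw [hF] at hx
  refine ⟨x, hx.1, ?_⟩
  ext y
  constructor
  · intro hy
    have hyF := hy
    rw [hF] at hy
    rw [mem_mface_poly hx.1]
    refine ⟨hy.1, fun c hc hcx => ?_⟩
    -- the midpoint
    set m := (1/2 : ℝ) • x + (1/2 : ℝ) • y with hm
    have hmP : m ∈ poly I := convex_poly I hx.1 hy.1 (by norm_num) (by norm_num) (by norm_num)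
    have hmF : m ∈ F := by
      rw [hF]
      refine ⟨hmP, fun z hz => ?_⟩
      rw [hm, inner_add_right, inner_smul_right, inner_smul_right]
      have h1 := hx.2 z hz
      have h2 := hy.2 z hz
      linarith
    have hsub : act m ⊆ act x := by
      intro c hc
      simp only [act, Finset.mem_filter] at hc ⊢
      refine ⟨hc.1, ?_⟩
      have h1 := hx.1 c hc.1
      have h2 := hy.1 c hc.1
      have h3 := hc.2
      rw [hm, inner_add_right, inner_smul_right, inner_smul_right] at h3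
      linarith
    have heq : act m = act x := Finset.eq_of_subset_of_card_le hsub (hmin m hmF)
    have hcm : c ∈ act m := by
      rw [heq]; simp only [act, Finset.mem_filter]; exact ⟨hc, hcx⟩
    simp only [act, Finset.mem_filter] at hcm
    have h1 := hx.1 c hc
    have h2 := hy.1 c hc
    have h3 := hcm.2
    rw [hm, inner_add_right, inner_smul_right, inner_smul_right] at h3
    linarith
  · rintro ⟨hy, ε, hε, h⟩
    rw [hF]
    have h1 := hx.2 _ h
    rw [inner_add_right, inner_smul_right, inner_sub_right] at h1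
    have h2 : ε * (⟪a, x⟫ - ⟪a, y⟫) ≤ 0 := by linarith
    have h3 : ⟪a, x⟫ ≤ ⟪a, y⟫ := by
      by_contra hcon
      push Not at hcon
      have : 0 < ε * (⟪a, x⟫ - ⟪a, y⟫) := mul_pos hε (by linarith)
      linarith
    exact ⟨hy, fun z hz => (hx.2 z hz).trans h3⟩

/-- faces of `poly I` are exposed. -/
theorem exists_exposed_of_mem_faces {I : Finset (E × ℝ)} {F : Set E} (hF : F ∈ faces (poly I)) :
    ∃ a : E, F = {x | x ∈ poly I ∧ ∀ y ∈ poly I, ⟪a, y⟫ ≤ ⟪a, x⟫} := by
  classical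
  obtain ⟨x, hx, rfl⟩ := hF
  let J := I.filter fun c => ⟪c.1, x⟫ = c.2
  have hsum : ∀ y ∈ poly I, ⟪∑ c ∈ J, c.1, y⟫ ≤ ∑ c ∈ J, c.2 := by
    intro y hy
    rw [sum_inner]
    exact Finset.sum_le_sum fun c hc => hy c (Finset.mem_filter.1 hc).1
  have hsumx : ⟪∑ c ∈ J, c.1, x⟫ = ∑ c ∈ J, c.2 := by
    rw [sum_inner]
    exact Finset.sum_congr rfl fun c hc => (Finset.mem_filter.1 hc).2
  refine ⟨∑ c ∈ J, c.1, ?_⟩
  ext y
  rw [mem_mface_poly hx]
  constructor
  · rintro ⟨hy, h⟩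
    refine ⟨hy, fun z hz => ?_⟩
    have : ⟪∑ c ∈ J, c.1, y⟫ = ∑ c ∈ J, c.2 := by
      rw [sum_inner]
      refine Finset.sum_congr rfl fun c hc => ?_
      have := Finset.mem_filter.1 hc
      exact h c this.1 this.2
    rw [this]
    exact hsum z hz
  · rintro ⟨hy, h⟩
    refine ⟨hy, fun c hc hcx => ?_⟩
    have h1 : ∑ c ∈ J, c.2 ≤ ∑ c ∈ J, ⟪c.1, y⟫ := by
      rw [← sum_inner, ← hsumx]; exact h x hx
    have hle : ∀ c ∈ J, ⟪c.1, y⟫ ≤ c.2 := fun c hc => hy c (Finset.mem_filter.1 hc).1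
    have h2 := (Finset.sum_eq_sum_iff_of_le hle).1 (le_antisymm (Finset.sum_le_sum hle) h1)
    exact h2 c (Finset.mem_filter.2 ⟨hc, hcx⟩)

end Pool.Agent.Helper75
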