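import Mathlib

open MeasureTheory Module Set
open scoped RealInnerProductSpace ENNReal

namespace Pool.Agent.Helper75

variable {E : Type*} [NormedAddCommGroup E] [InnerProductSpace ℝ E]

/-- The smallest face of the convex set `P` that contains the point `x` of `P`. -/
def mface (P : Set E) (x : E) : Set E :=
  {y | y ∈ P ∧ ∃ ε : ℝ, 0 < ε ∧ x + ε • (x - y) ∈ P}

theorem mface_subset (P : Set E) (x : E) : mface P x ⊆ P := fun _ h => h.1

theorem self_mem_mface {P : Set E} {x : E} (hx : x ∈ P) : x ∈ mface P x :=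
  ⟨hx, 1, one_pos, by simpa using hx⟩

/-- moving less far stays in `P`. -/
theorem add_smul_mem_of_le {P : Set E} (hP : Convex ℝ P) {x v : E} (hx : x ∈ P) {ε δ : ℝ}
    (hδ : 0 ≤ δ) (hle : δ ≤ ε) (h : x + ε • v ∈ P) : x + δ • v ∈ P := by
  rcases hδ.eq_or_lt with h0 | h0
  · rw [← h0]; simpa using hx
  · have hε : 0 < ε := h0.trans_le hle
    have := hP.add_smul_mem hx h (t := δ / ε) ⟨by positivity, by rw [div_le_one hε]; exact hle⟩
    rwa [smul_smul, div_mul_cancel₀ _ hε.ne'] at this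

/-- The linear directions of a convex set at one of its points. -/
def linSub (P : Set E) (hP : Convex ℝ P) (x : E) (hx : x ∈ P) : Submodule ℝ E where
  carrier := {v | ∃ ε : ℝ, 0 < ε ∧ x + ε • v ∈ P ∧ x - ε • v ∈ P}
  zero_mem' := ⟨1, one_pos, by simpa using hx, by simpa using hx⟩
  add_mem' := by
    rintro v w ⟨ε, hε, h1, h2⟩ ⟨δ, hδ, h3, h4⟩
    set m := min ε δ with hm
    have hm0 : 0 < m := lt_min hε hδ
    have a1 : x + m • v ∈ P := add_smul_mem_of_le hP hx hm0.le (min_le_left _ _) h1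
    have a2 : x + m • (-v) ∈ P := add_smul_mem_of_le hP hx hm0.le (min_le_left _ _)
      (by simpa [sub_eq_add_neg] using h2)
    have a3 : x + m • w ∈ P := add_smul_mem_of_le hP hx hm0.le (min_le_right _ _) h3
    have a4 : x + m • (-w) ∈ P := add_smul_mem_of_le hP hx hm0.le (min_le_right _ _)
      (by simpa [sub_eq_add_neg] using h4)
    refine ⟨m / 2, by positivity, ?_, ?_⟩
    · have := hP a1 a3 (a := 1/2) (b := 1/2) (by norm_num) (by norm_num) (by norm_num)
      convert this using 1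
      module
    · have := hP a2 a4 (a := 1/2) (b := 1/2) (by norm_num) (by norm_num) (by norm_num)
      convert this using 1
      module
  smul_mem' := by
    rintro c v ⟨ε, hε, h1, h2⟩
    rcases lt_trichotomy c 0 with hc | hc | hc
    · refine ⟨ε / (-c), div_pos hε (by linarith), ?_, ?_⟩
      · convert h2 using 1
        rw [smul_smul, sub_eq_add_neg, ← neg_smul]
        congr 2
        rw [div_neg, neg_mul, div_mul_cancel₀ _ hc.ne]
      · convert h1 using 1
        rw [smul_smul, sub_eq_add_neg, ← neg_smul]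
        congr 2
        rw [div_neg, neg_mul, div_mul_cancel₀ _ hc.ne, neg_neg]
    · subst hc
      exact ⟨1, one_pos, by simpa using hx, by simpa using hx⟩
    · refine ⟨ε / c, div_pos hε hc, ?_, ?_⟩
      · convert h1 using 1
        rw [smul_smul, div_mul_cancel₀ _ hc.ne']
      · convert h2 using 1
        rw [smul_smul, div_mul_cancel₀ _ hc.ne']

theorem mem_linSub {P : Set E} {hP : Convex ℝ P} {x : E} {hx : x ∈ P} {v : E} :
    v ∈ linSub P hP x hx ↔ ∃ ε : ℝ, 0 < ε ∧ x + ε • v ∈ P ∧ x - ε • v ∈ P := Iff.rfl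

theorem vectorSpan_mface {P : Set E} (hP : Convex ℝ P) {x : E} (hx : x ∈ P) :
    vectorSpan ℝ (mface P x) = linSub P hP x hx := by
  apply le_antisymm
  · rw [vectorSpan_eq_span_vsub_set_right ℝ (self_mem_mface hx)]
    apply Submodule.span_le.mpr
    rintro _ ⟨y, ⟨hy, ε, hε, h⟩, rfl⟩
    simp only [vsub_eq_sub, SetLike.mem_coe]
    refine ⟨min ε 1, lt_min hε one_pos, ?_, ?_⟩
    · exact add_smul_mem_of_le hP hx (le_min hε.le zero_le_one) (min_le_right _ _)
        (by simpa using hy)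
    · have := add_smul_mem_of_le hP hx (le_min hε.le zero_le_one) (min_le_left _ _) h
      convert this using 1
      module
  · rintro v ⟨ε, hε, h1, h2⟩
    have hm : x + ε • v ∈ mface P x := by
      refine ⟨h1, 1, one_pos, ?_⟩
      convert h2 using 1
      module
    have := vsub_mem_vectorSpan ℝ hm (self_mem_mface hx)
    simp only [vsub_eq_sub, add_sub_cancel_left] at this
    have h3 := Submodule.smul_mem _ ε⁻¹ this
    rwa [smul_smul, inv_mul_cancel₀ hε.ne', one_smul] at h3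

theorem mem_vectorSpan_mface {P : Set E} (hP : Convex ℝ P) {x : E} (hx : x ∈ P) {v : E} :
    v ∈ vectorSpan ℝ (mface P x) ↔ ∃ ε : ℝ, 0 < ε ∧ x + ε • v ∈ P ∧ x - ε • v ∈ P := by
  rw [vectorSpan_mface hP hx]; rfl

theorem mem_mface_iff {P : Set E} (hP : Convex ℝ P) {x : E} (hx : x ∈ P) {y : E} :
    y ∈ mface P x ↔ y ∈ P ∧ y - x ∈ vectorSpan ℝ (mface P x) := by
  constructor
  · intro h
    exact ⟨h.1, vsub_mem_vectorSpan ℝ h (self_mem_mface hx)⟩
  · rintro ⟨h1, h2⟩
    obtain ⟨ε, hε, h3, h4⟩ := (mem_vectorSpan_mface hP hx).1 h2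
    refine ⟨h1, ε, hε, ?_⟩
    convert h4 using 1
    module

/-- a point of the open segment from `y` to another point of `P` has `y` in its minimal face. -/
theorem mem_mface_of_combo {P : Set E} {x y z : E} (hy : y ∈ P) (hz : z ∈ P)
    {a b : ℝ} (ha : 0 < a) (hb : 0 < b) (hab : a + b = 1) (hx : x = a • y + b • z) :
    y ∈ mface P x := by
  refine ⟨hy, a / b, by positivity, ?_⟩
  convert hz using 1
  obtain rfl : a = 1 - b := by linarith
  rw [hx]
  match_scalars <;> field_simp <;> ring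

theorem mface_trans {P : Set E} (hP : Convex ℝ P) {x y : E} 
    (hy : y ∈ mface P x) : mface P y ⊆ mface P x := by
  obtain ⟨hyP, ε, hε, h1⟩ := hy
  rintro z ⟨hz, δ, hδ, h2⟩
  refine ⟨hz, ?_⟩
  set D := 1 + ε + δ with hD
  have hD0 : 0 < D := by positivity
  refine ⟨ε * δ / D, by positivity, ?_⟩
  have := hP h1 h2 (a := (1 + δ) / D) (b := ε / D) (by positivity) (by positivity) (by
    rw [← add_div, hD, div_eq_one_iff_eq hD0.ne']; ring)
  convert this using 1
  match_scalars <;> field_simp <;> ring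

theorem mface_eq_inter {P : Set E} (hP : Convex ℝ P) {x : E} (hx : x ∈ P) :
    mface P x = P ∩ {y | y - x ∈ vectorSpan ℝ (mface P x)} := by
  ext y; exact mem_mface_iff hP hx

theorem convex_mface {P : Set E} (hP : Convex ℝ P) {x : E} (hx : x ∈ P) :
    Convex ℝ (mface P x) := by
  rw [mface_eq_inter hP hx]
  refine hP.inter ?_
  intro y hy z hz a b _ _ hab
  have : a • y + b • z - x = a • (y - x) + b • (z - x) := by
    obtain rfl : a = 1 - b := by linarith
    module
  simp only [mem_ofPred_eq] at *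
  rw [this]
  exact Submodule.add_mem _ (Submodule.smul_mem _ _ hy) (Submodule.smul_mem _ _ hz)

theorem isClosed_mface [FiniteDimensional ℝ E] {P : Set E} (hP : Convex ℝ P) (hc : IsClosed P)
    {x : E} (hx : x ∈ P) : IsClosed (mface P x) := by
  rw [mface_eq_inter hP hx]
  refine hc.inter ?_
  exact (Submodule.closed_of_finiteDimensional (vectorSpan ℝ (mface P x))).preimage
    (continuous_id.sub continuous_const)

/-- faces are extreme. -/
theorem mem_mface_left {P : Set E} (hP : Convex ℝ P) {x y z w : E} (hw : w ∈ mface P x)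
    (hy : y ∈ P) (hz : z ∈ P) {a b : ℝ} (ha : 0 < a) (hb : 0 < b) (hab : a + b = 1)
    (h : w = a • y + b • z) : y ∈ mface P x :=
  mface_trans hP hw (mem_mface_of_combo hy hz ha hb hab h)

theorem mface_eq_of_mem {P : Set E} (hP : Convex ℝ P) {x y : E}
    (hy : y ∈ mface P x) (hx : x ∈ mface P y) : mface P y = mface P x :=
  Subset.antisymm (mface_trans hP hy) (mface_trans hP hx)

theorem mface_mface {P : Set E} (hP : Convex ℝ P) {x y : E} (hy : y ∈ mface P x) :
    mface (mface P x) y = mface P y := by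
  ext z
  constructor
  · rintro ⟨hz, ε, hε, h⟩
    exact ⟨hz.1, ε, hε, h.1⟩
  · intro hz
    obtain ⟨hzP, ε, hε, h⟩ := hz
    refine ⟨mface_trans hP hy ⟨hzP, ε, hε, h⟩, ε, hε, ?_⟩
    refine mface_trans hP hy ?_
    refine ⟨h, ε⁻¹, by positivity, ?_⟩
    convert hzP using 1
    match_scalars <;> field_simp <;> ring

/-- the affine hyperplane `⟪u, x⟫ = s`. -/
def hyp (u : E) (s : ℝ) : Set E := {x | ⟪u, x⟫ = s}

theorem mem_hyp {u : E} {s : ℝ} {x : E} : x ∈ hyp u s ↔ ⟪u, x⟫ = s := Iff.rfl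

theorem convex_hyp (u : E) (s : ℝ) : Convex ℝ (hyp u s) := by
  intro y hy z hz a b _ _ hab
  simp only [mem_hyp] at *
  rw [inner_add_right, inner_smul_right, inner_smul_right, hy, hz, ← add_mul, hab, one_mul]

theorem isClosed_hyp (u : E) (s : ℝ) : IsClosed (hyp u s) :=
  isClosed_eq (by fun_prop) continuous_const

theorem mface_inter_hyp (P : Set E) (u : E) (s : ℝ) {x : E} (hx : x ∈ hyp u s) :
    mface (P ∩ hyp u s) x = mface P x ∩ hyp u s := by
  ext y
  constructor
  · rintro ⟨⟨hy, hy'⟩, ε, hε, h, h'⟩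
    exact ⟨⟨hy, ε, hε, h⟩, hy'⟩
  · rintro ⟨⟨hy, ε, hε, h⟩, hy'⟩
    refine ⟨⟨hy, hy'⟩, ε, hε, h, ?_⟩
    simp only [mem_hyp] at *
    rw [inner_add_right, inner_smul_right, inner_sub_right, hx, hy']
    ring

theorem vectorSpan_mface_inter_hyp {P : Set E} (hP : Convex ℝ P) (u : E) (s : ℝ) {x : E}
    (hxP : x ∈ P) (hx : x ∈ hyp u s) :
    vectorSpan ℝ (mface (P ∩ hyp u s) x) = vectorSpan ℝ (mface P x) ⊓ (ℝ ∙ u)ᗮ := by
  ext v
  rw [Submodule.mem_inf, mem_vectorSpan_mface (hP.inter (convex_hyp u s)) ⟨hxP, hx⟩,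
    mem_vectorSpan_mface hP hxP, Submodule.mem_orthogonal_singleton_iff_inner_right]
  constructor
  · rintro ⟨ε, hε, ⟨h1, h2⟩, ⟨h3, h4⟩⟩
    refine ⟨⟨ε, hε, h1, h3⟩, ?_⟩
    simp only [mem_hyp] at *
    rw [inner_add_right, inner_smul_right, hx] at h2
    have : ε * ⟪u, v⟫ = 0 := by linarith
    exact (mul_eq_zero.1 this).resolve_left hε.ne'
  · rintro ⟨⟨ε, hε, h1, h3⟩, h⟩
    refine ⟨ε, hε, ⟨h1, ?_⟩, ⟨h3, ?_⟩⟩
    · simp only [mem_hyp] at *
      rw [inner_add_right, inner_smul_right, hx, h]; ring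
    · simp only [mem_hyp] at *
      rw [inner_sub_right, inner_smul_right, hx, h]; ring

/-- the crossing lemma: if `F = mface P z`, a point `y` of `F` lies in the hyperplane and `u` is
not constant on the minimal face of `y`, then the hyperplane contains a point whose minimal face
is `F`. -/
theorem exists_mem_hyp_mface_eq {P : Set E} (hP : Convex ℝ P) {z y : E} (hz : z ∈ P)
    (hy : y ∈ mface P z) {u : E} (hu : ¬ (u ∈ (vectorSpan ℝ (mface P y))ᗮ)) :
    ∃ x ∈ P, ⟪u, x⟫ = ⟪u, y⟫ ∧ mface P x = mface P z := by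
  by_cases h0 : ⟪u, z⟫ = ⟪u, y⟫
  · exact ⟨z, hz, h0, rfl⟩
  -- a direction `v` at `y` with `⟪u, v⟫ ≠ 0`
  obtain ⟨v, hv, huv⟩ : ∃ v ∈ vectorSpan ℝ (mface P y), ⟪u, v⟫ ≠ 0 := by
    by_contra hcon
    push Not at hcon
    apply hu
    rw [Submodule.mem_orthogonal]
    intro v hv
    rw [real_inner_comm]; exact hcon v hv
  obtain ⟨ε, hε, h1, h2⟩ := (mem_vectorSpan_mface hP hy.1).1 hv
  -- choose the sign
  obtain ⟨g, hg, hgu⟩ : ∃ g ∈ mface P z, (⟪u, g⟫ - ⟪u, y⟫) * (⟪u, z⟫ - ⟪u, y⟫) < 0 := by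
    have hm1 : y + ε • v ∈ mface P y := by
      refine ⟨h1, 1, one_pos, ?_⟩
      convert h2 using 1
      module
    have hm2 : y - ε • v ∈ mface P y := by
      refine ⟨h2, 1, one_pos, ?_⟩
      convert h1 using 1
      module
    have hne : ε * ⟪u, v⟫ * (⟪u, z⟫ - ⟪u, y⟫) ≠ 0 :=
      mul_ne_zero (mul_ne_zero hε.ne' huv) (sub_ne_zero.2 h0)
    rcases lt_or_gt_of_ne hne with h | h
    · refine ⟨_, mface_trans hP hy hm1, ?_⟩
      rw [inner_add_right, inner_smul_right]
      linarith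
    · refine ⟨_, mface_trans hP hy hm2, ?_⟩
      rw [inner_sub_right, inner_smul_right]
      linarith
  set α := ⟪u, g⟫ - ⟪u, y⟫ with hα
  set β := ⟪u, z⟫ - ⟪u, y⟫ with hβ
  have hβ0 : β ≠ 0 := by intro h; rw [h] at hgu; simp at hgu
  have hα0 : α ≠ 0 := by intro h; rw [h] at hgu; simp at hgu
  have hβα : β - α ≠ 0 := by
    intro h
    have : β = α := by linarith
    rw [this] at hgu
    nlinarith [mul_self_nonneg α]
  -- the crossing point `x = a z + b g`
  have ha : 0 < -α / (β - α) := by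
    rcases lt_or_gt_of_ne hβ0 with h | h
    · have : 0 < α := by nlinarith
      exact div_pos_of_neg_of_neg (by linarith) (by linarith)
    · have : α < 0 := by nlinarith
      exact div_pos (by linarith) (by linarith)
  have hb : 0 < β / (β - α) := by
    rcases lt_or_gt_of_ne hβ0 with h | h
    · have : 0 < α := by nlinarith
      exact div_pos_of_neg_of_neg (by linarith) (by linarith)
    · have : α < 0 := by nlinarith
      exact div_pos (by linarith) (by linarith)
  have hab : -α / (β - α) + β / (β - α) = 1 := by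
    rw [← add_div, div_eq_one_iff_eq hβα]; ring
  refine ⟨(-α / (β - α)) • z + (β / (β - α)) • g, ?_, ?_, ?_⟩
  · exact hP hz hg.1 ha.le hb.le hab
  · rw [inner_add_right, inner_smul_right, inner_smul_right]
    have e1 : ⟪u, g⟫ = α + ⟪u, y⟫ := by rw [hα]; ring
    have e2 : ⟪u, z⟫ = β + ⟪u, y⟫ := by rw [hβ]; ring
    rw [e1, e2]
    field_simp
    ring
  · apply mface_eq_of_mem hP
    · exact convex_mface hP hz (self_mem_mface hz) hg ha.le hb.le hab
    · exact mem_mface_of_combo hz hg.1 ha hb hab rfl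

end Pool.Agent.Helper75
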