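import Mathlib
import Pool.Agent.Helper75.Basic

open MeasureTheory Module Set Filter Topology MeasureTheory.Measure
open scoped RealInnerProductSpace ENNReal

namespace Pool.Agent.Helper75

section full

variable {V : Type*} [NormedAddCommGroup V] [InnerProductSpace ℝ V] [FiniteDimensional ℝ V]
  [MeasurableSpace V] [BorelSpace V]

theorem inner_measurable_hyp (u : V) (s : ℝ) : MeasurableSet (hyp u s) :=
  (isClosed_hyp u s).measurableSet

theorem finrank_orth_singleton {v : V} (hv : v ≠ 0) :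
    finrank ℝ (ℝ ∙ v)ᗮ = finrank ℝ V - 1 := by
  rw [← (ℝ ∙ v).finrank_add_finrank_orthogonal, finrank_span_singleton hv, Nat.add_sub_cancel_left]

/-- the section of `t` by a hyperplane as the section in a product. -/
theorem slice_eq_section {v : V} (hv : v ≠ 0) (t : Set V) (s : ℝ) :
    μHE[finrank ℝ V - 1] (t ∩ hyp v s) =
      (volume : Measure (ℝ ∙ v)ᗮ) {w | (s / ‖v‖ ^ 2) • v + (w : V) ∈ t} := by
  have hv2 : ‖v‖ ^ 2 ≠ 0 := by positivity
  have himg : (fun w : (ℝ ∙ v)ᗮ => (s / ‖v‖ ^ 2) • v + (w : V)) ''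
      {w | (s / ‖v‖ ^ 2) • v + (w : V) ∈ t} = t ∩ hyp v s := by
    ext y
    constructor
    · rintro ⟨w, hw, rfl⟩
      refine ⟨hw, ?_⟩
      have := (Submodule.mem_orthogonal_singleton_iff_inner_right).1 w.2
      rw [mem_hyp, inner_add_right, this, inner_smul_right, real_inner_self_eq_norm_sq]
      field_simp
      simp
    · rintro ⟨hy, hy'⟩
      rw [mem_hyp] at hy'
      refine ⟨⟨y - (s / ‖v‖ ^ 2) • v, ?_⟩, ?_, ?_⟩
      · rw [Submodule.mem_orthogonal_singleton_iff_inner_right, inner_sub_right, inner_smul_right,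
          real_inner_self_eq_norm_sq, hy']
        field_simp
        simp
      · simpa using hy
      · simp
  have hiso : Isometry (fun w : (ℝ ∙ v)ᗮ => (s / ‖v‖ ^ 2) • v + (w : V)) := by
    refine Isometry.of_dist_eq fun a b => ?_
    rw [dist_add_left]
    rfl
  rw [← himg, hiso.euclideanHausdorffMeasure_image, ← finrank_orth_singleton hv,
    InnerProductSpace.euclideanHausdorffMeasure_eq_volume]

theorem measurable_slice {v : V} (hv : v ≠ 0) {t : Set V} (ht : MeasurableSet t) :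
    Measurable fun s : ℝ => μHE[finrank ℝ V - 1] (t ∩ hyp v s) := by
  simp_rw [slice_eq_section hv]
  have hm : MeasurableSet {q : ℝ × (ℝ ∙ v)ᗮ | (q.1 / ‖v‖ ^ 2) • v + (q.2 : V) ∈ t} := by
    apply ht.preimage
    fun_prop
  exact measurable_measure_prodMk_left hm

theorem lintegral_slice_full {v : V} (hv : v ≠ 0) {t : Set V} (ht : MeasurableSet t) :
    ∫⁻ s : ℝ, μHE[finrank ℝ V - 1] (t ∩ hyp v s) = ‖v‖ₑ * μHE[finrank ℝ V] t := by
  have hv2 : ‖v‖ ^ 2 ≠ 0 := by positivity
  have hmk : ∀ x : ℝ, ((AffineSubspace.mk' (x • v +ᵥ (0 : V)) (ℝ ∙ v)ᗮ : AffineSubspace ℝ V) : Set V)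
      = hyp v (x * ‖v‖ ^ 2) := by
    intro x
    ext y
    rw [SetLike.mem_coe, AffineSubspace.mem_mk', Submodule.mem_orthogonal_singleton_iff_inner_right,
      mem_hyp]
    simp only [vadd_eq_add, add_zero, vsub_eq_sub, inner_sub_right, inner_smul_right,
      real_inner_self_eq_norm_sq, sub_eq_zero]
  have h := EuclideanGeometry.euclideanHausdorffMeasure_eq_lintegral (0 : V) hv ht
  simp_rw [hmk] at h
  have hscale : ∫⁻ x : ℝ, μHE[finrank ℝ V - 1] (t ∩ hyp v (x * ‖v‖ ^ 2)) =
      ENNReal.ofReal |(‖v‖ ^ 2)⁻¹| * ∫⁻ s : ℝ, μHE[finrank ℝ V - 1] (t ∩ hyp v s) := by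
    have h1 := Real.map_volume_mul_right hv2
    have h2 : ∫⁻ s : ℝ, μHE[finrank ℝ V - 1] (t ∩ hyp v s) ∂(Measure.map (· * ‖v‖ ^ 2) volume) =
        ∫⁻ x : ℝ, μHE[finrank ℝ V - 1] (t ∩ hyp v (x * ‖v‖ ^ 2)) :=
      lintegral_map (measurable_slice hv ht) (by fun_prop)
    rw [← h2, h1, lintegral_smul_measure, smul_eq_mul]
  rw [hscale] at h
  rw [h, ← mul_assoc, ← mul_assoc]
  have : ‖v‖ₑ * ‖v‖ₑ * ENNReal.ofReal |(‖v‖ ^ 2)⁻¹| = 1 := by
    rw [abs_of_nonneg (by positivity), ENNReal.ofReal_inv_of_pos (by positivity),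
      ENNReal.ofReal_pow (norm_nonneg _), ofReal_norm, ← sq]
    exact ENNReal.mul_inv_cancel (by simpa using hv) (by simp [enorm_ne_top])
  rw [this, one_mul]

end full

section sub

variable {E : Type*} [NormedAddCommGroup E] [InnerProductSpace ℝ E] [FiniteDimensional ℝ E]
  [MeasurableSpace E] [BorelSpace E]

/-- Coarea formula for sections of a flat set by parallel hyperplanes, with measurability. -/
theorem slice_flat (W : Submodule ℝ E) (p : E) {k : ℕ} (hW : finrank ℝ W = k + 1) (u : E)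
    {F : Set E} (hF : MeasurableSet F) (hFW : ∀ x ∈ F, x - p ∈ W) :
    AEMeasurable (fun s : ℝ => μHE[k] (F ∩ hyp u s)) ∧
    ∫⁻ s : ℝ, μHE[k] (F ∩ hyp u s) = ‖W.orthogonalProjectionOnto u‖ₑ * μHE[k + 1] F := by
  set v : W := W.orthogonalProjectionOnto u with hv
  have hinner : ∀ w : W, ⟪u, (w : E)⟫ = ⟪v, w⟫ := fun w => by
    rw [hv, Submodule.inner_orthogonalProjectionOnto_eq_of_mem_right]
  by_cases hv0 : v = 0
  · have hz : ∀ s : ℝ, s ≠ ⟪u, p⟫ → F ∩ hyp u s = ∅ := by
      intro s hs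
      ext x
      simp only [mem_inter_iff, mem_hyp, mem_empty_iff_false, iff_false, not_and]
      intro hx hxs
      apply hs
      have := hinner ⟨x - p, hFW x hx⟩
      rw [hv0, inner_zero_left] at this
      simp only [inner_sub_right] at this
      linarith
    have hae : (fun s : ℝ => μHE[k] (F ∩ hyp u s)) =ᵐ[volume] fun _ => 0 := by
      have : ∀ᵐ s : ℝ, s ≠ ⟪u, p⟫ := by
        simp [ae_iff]
      filter_upwards [this] with s hs
      rw [hz s hs, measure_empty]
    refine ⟨aemeasurable_const.congr hae.symm, ?_⟩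
    rw [lintegral_congr_ae hae, hv0]
    simp
  · -- transfer to `W`
    let φ : W → E := fun w => p + (w : E)
    have hφ : Isometry φ := by
      refine Isometry.of_dist_eq fun a b => ?_
      rw [dist_add_left]
      rfl
    let F' : Set W := φ ⁻¹' F
    have hF' : MeasurableSet F' := hF.preimage hφ.continuous.measurable
    have hFF' : φ '' F' = F := by
      apply Subset.antisymm (image_preimage_subset _ _)
      intro x hx
      exact ⟨⟨x - p, hFW x hx⟩, by simp [F', φ, hx], by simp [φ]⟩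
    have hslice : ∀ s : ℝ, φ '' (F' ∩ hyp v (s - ⟪u, p⟫)) = F ∩ hyp u s := by
      intro s
      ext x
      constructor
      · rintro ⟨w, ⟨hw, hw'⟩, rfl⟩
        refine ⟨hw, ?_⟩
        rw [mem_hyp] at *
        rw [inner_add_right, hinner, hw']
        ring
      · rintro ⟨hx, hx'⟩
        refine ⟨⟨x - p, hFW x hx⟩, ⟨by simp [F', φ, hx], ?_⟩, by simp [φ]⟩
        rw [mem_hyp] at *
        rw [← hinner, inner_sub_right, hx']
    have hm1 : ∀ s : ℝ, μHE[k] (F ∩ hyp u s) = μHE[finrank ℝ W - 1] (F' ∩ hyp v (s - ⟪u, p⟫)) := by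
      intro s
      rw [← hslice s, hφ.euclideanHausdorffMeasure_image, hW, Nat.add_sub_cancel]
    simp_rw [hm1]
    have hmeas := measurable_slice hv0 hF'
    refine ⟨(hmeas.comp (measurable_id.sub_const _)).aemeasurable, ?_⟩
    have htr := lintegral_sub_right_eq_self (μ := (volume : Measure ℝ))
      (fun s => μHE[finrank ℝ W - 1] (F' ∩ hyp v s)) ⟪u, p⟫
    rw [htr, lintegral_slice_full hv0 hF']
    congr 1
    rw [← hFF', hφ.euclideanHausdorffMeasure_image, hW]

end sub

end Pool.Agent.Helper75
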