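import Mathlib
import Pool.Agent.Helper75.Slice
import Pool.Agent.Helper75.Poly

open MeasureTheory Module Set Filter Topology MeasureTheory.Measure
open scoped RealInnerProductSpace ENNReal

namespace Pool.Agent.Helper75

variable {E : Type*} [NormedAddCommGroup E] [InnerProductSpace ℝ E] [FiniteDimensional ℝ E]

/-- the exceptional heights: values of `u` on faces on which it is constant. -/
def bad (P : Set E) (u : E) : Set ℝ :=
  ⋃ F ∈ faces P, {s | u ∈ (vectorSpan ℝ F)ᗮ ∧ ∃ y ∈ F, ⟪u, y⟫ = s}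

theorem finite_bad (I : Finset (E × ℝ)) (u : E) : (bad (poly I) u).Finite := by
  refine (finite_faces_poly I).biUnion fun F _ => ?_
  apply Set.Subsingleton.finite
  rintro s ⟨h1, y, hy, hys⟩ s' ⟨_, y', hy', hys'⟩
  have h2 := vsub_mem_vectorSpan ℝ hy hy'
  have h3 := (Submodule.mem_orthogonal' _ _).1 h1 _ h2
  simp only [vsub_eq_sub, inner_sub_right] at h3
  rw [← hys, ← hys']
  linarith

theorem not_mem_orth_of_not_bad {P : Set E} {u : E} {s : ℝ} (hs : s ∉ bad P u) {x : E}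
    (hx : x ∈ P) (hxs : ⟪u, x⟫ = s) : u ∉ (vectorSpan ℝ (mface P x))ᗮ := by
  intro h
  apply hs
  simp only [bad, mem_iUnion]
  exact ⟨mface P x, ⟨x, hx, rfl⟩, h, x, self_mem_mface hx, hxs⟩

theorem finrank_inf_orth {W : Submodule ℝ E} {u : E} (hu : u ∉ Wᗮ) :
    finrank ℝ (W ⊓ (ℝ ∙ u)ᗮ : Submodule ℝ E) + 1 = finrank ℝ W := by
  let f : W →ₗ[ℝ] ℝ := (innerₛₗ ℝ u).comp W.subtype
  have hf : ∀ w : W, f w = ⟪u, (w : E)⟫ := fun w => rfl
  have hker : (LinearMap.ker f).map W.subtype = W ⊓ (ℝ ∙ u)ᗮ := by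
    ext x
    rw [Submodule.mem_map, Submodule.mem_inf, Submodule.mem_orthogonal_singleton_iff_inner_right]
    constructor
    · rintro ⟨w, hw, rfl⟩
      exact ⟨w.2, by rwa [LinearMap.mem_ker, hf] at hw⟩
    · rintro ⟨h1, h2⟩
      exact ⟨⟨x, h1⟩, by rwa [LinearMap.mem_ker, hf], rfl⟩
  have hsurj : finrank ℝ (LinearMap.range f) = 1 := by
    have hne : f ≠ 0 := by
      intro h
      apply hu
      rw [Submodule.mem_orthogonal']
      intro w hw
      have := hf ⟨w, hw⟩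
      rw [h] at this
      exact this.symm
    rw [LinearMap.range_eq_top.2 (LinearMap.surjective hne), finrank_top, finrank_self]
  have := LinearMap.finrank_range_add_finrank_ker f
  rw [hsurj] at this
  rw [← hker, Submodule.finrank_map_subtype_eq]
  omega

/-- faces of a section come from faces. -/
theorem exists_face_of_section {P : Set E} (hP : Convex ℝ P) {u : E} {s : ℝ} {k : ℕ}
    (hs : s ∉ bad P u) {G : Set E} (hG : G ∈ kfaces k (P ∩ hyp u s)) :
    ∃ F ∈ kfaces (k + 1) P, G = F ∩ hyp u s := by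
  obtain ⟨⟨x, hx, rfl⟩, hk⟩ := hG
  refine ⟨mface P x, ⟨⟨x, hx.1, rfl⟩, ?_⟩, mface_inter_hyp P u s hx.2⟩
  rw [vectorSpan_mface_inter_hyp hP u s hx.1 hx.2] at hk
  rw [← finrank_inf_orth (not_mem_orth_of_not_bad hs hx.1 hx.2), hk]

/-- sections of faces are faces. -/
theorem section_mem_kfaces {P : Set E} (hP : Convex ℝ P) {u : E} {s : ℝ} {k : ℕ}
    (hs : s ∉ bad P u) {F : Set E} (hF : F ∈ kfaces (k + 1) P) (hne : (F ∩ hyp u s).Nonempty) :
    ∃ x ∈ P ∩ hyp u s, mface P x = F ∧ F ∩ hyp u s = mface (P ∩ hyp u s) x ∧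
      F ∩ hyp u s ∈ kfaces k (P ∩ hyp u s) := by
  obtain ⟨⟨z, hz, rfl⟩, hk⟩ := hF
  obtain ⟨y, hy, hys⟩ := hne
  obtain ⟨x, hx, hxy, hface⟩ := exists_mem_hyp_mface_eq hP hz hy
    (not_mem_orth_of_not_bad hs hy.1 hys)
  have hxs : x ∈ hyp u s := by rw [mem_hyp, hxy]; exact hys
  have h1 : mface P z ∩ hyp u s = mface (P ∩ hyp u s) x := by
    rw [mface_inter_hyp P u s hxs, hface]
  refine ⟨x, ⟨hx, hxs⟩, hface, h1, ⟨x, ⟨hx, hxs⟩, h1⟩, ?_⟩
  rw [h1, vectorSpan_mface_inter_hyp hP u s hx hxs]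
  have := finrank_inf_orth (not_mem_orth_of_not_bad hs hx hxs)
  rw [hface, hk] at this
  rw [hface]
  omega

theorem section_injective {P : Set E} (hP : Convex ℝ P) {u : E} {s : ℝ} {k : ℕ}
    (hs : s ∉ bad P u) {F F' : Set E} (hF : F ∈ kfaces (k + 1) P) (hF' : F' ∈ kfaces (k + 1) P)
    (hne : (F ∩ hyp u s).Nonempty) (heq : F ∩ hyp u s = F' ∩ hyp u s) : F = F' := by
  obtain ⟨x, hx, hxF, _, _⟩ := section_mem_kfaces hP hs hF hne
  obtain ⟨x', hx', hxF', _, _⟩ := section_mem_kfaces hP hs hF' (heq ▸ hne)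
  have h1 : x ∈ F' := by
    have : x ∈ F ∩ hyp u s := ⟨hxF ▸ self_mem_mface hx.1, hx.2⟩
    rw [heq] at this
    exact this.1
  have h2 : x' ∈ F := by
    have : x' ∈ F' ∩ hyp u s := ⟨hxF' ▸ self_mem_mface hx'.1, hx'.2⟩
    rw [← heq] at this
    exact this.1
  rw [← hxF, ← hxF']
  apply mface_eq_of_mem hP
  · rw [hxF']; exact h1
  · rw [hxF]; exact h2

variable [MeasurableSpace E] [BorelSpace E]

/-- the `k`-content. -/
noncomputable def zeta (k : ℕ) (P : Set E) : ℝ≥0∞ := ∑' F : kfaces k P, μHE[k] (F : Set E)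

theorem zeta_section {P : Set E} (hP : Convex ℝ P) {u : E} {s : ℝ} (k : ℕ)
    (hs : s ∉ bad P u) :
    zeta k (P ∩ hyp u s) = ∑' F : kfaces (k + 1) P, μHE[k] ((F : Set E) ∩ hyp u s) := by
  unfold zeta
  set g : kfaces (k + 1) P → ℝ≥0∞ := fun F => μHE[k] ((F : Set E) ∩ hyp u s) with hg
  have hne : ∀ F : Function.support g, (((F : kfaces (k + 1) P) : Set E) ∩ hyp u s).Nonempty := by
    intro F
    rw [nonempty_iff_ne_empty]
    intro h
    apply F.2
    simp only [hg, h, measure_empty]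
  apply tsum_eq_tsum_of_ne_zero_bij (g := g)
    (i := fun F : Function.support g => (⟨((F : kfaces (k + 1) P) : Set E) ∩ hyp u s,
      (section_mem_kfaces hP hs F.1.2 (hne F)).choose_spec.2.2.2⟩ : kfaces k (P ∩ hyp u s)))
  · intro F F' h
    apply Subtype.ext
    apply Subtype.ext
    exact section_injective hP hs F.1.2 F'.1.2 (hne F) (Subtype.ext_iff.1 h)
  · intro G hG
    obtain ⟨F, hF, hGF⟩ := exists_face_of_section hP hs G.2
    refine ⟨⟨⟨F, hF⟩, ?_⟩, ?_⟩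
    · rw [Function.mem_support] at *
      simp only [hg]
      rw [← hGF]
      exact hG
    · apply Subtype.ext
      exact hGF.symm
  · intro F
    rfl

/-- **Crofton formula** for the content of a polytope. -/
theorem lintegral_zeta_section (I : Finset (E × ℝ)) (u : E) (k : ℕ) :
    ∫⁻ s : ℝ, zeta k (poly I ∩ hyp u s) = ∑' F : kfaces (k + 1) (poly I),
      ‖(vectorSpan ℝ (F : Set E)).orthogonalProjectionOnto u‖ₑ * μHE[k + 1] (F : Set E) := by
  have hae : ∀ᵐ s : ℝ, s ∉ bad (poly I) u :=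
    (finite_bad I u).countable.ae_notMem _
  have h1 : ∫⁻ s : ℝ, zeta k (poly I ∩ hyp u s) =
      ∫⁻ s : ℝ, ∑' F : kfaces (k + 1) (poly I), μHE[k] ((F : Set E) ∩ hyp u s) := by
    apply lintegral_congr_ae
    filter_upwards [hae] with s hs
    exact zeta_section (convex_poly I) k hs
  have : Countable (kfaces (k + 1) (poly I)) := (finite_kfaces_poly (k + 1) I).countable
  have hfl : ∀ F : kfaces (k + 1) (poly I),
      AEMeasurable (fun s : ℝ => μHE[k] ((F : Set E) ∩ hyp u s)) ∧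
      ∫⁻ s : ℝ, μHE[k] ((F : Set E) ∩ hyp u s) =
        ‖(vectorSpan ℝ (F : Set E)).orthogonalProjectionOnto u‖ₑ * μHE[k + 1] (F : Set E) := by
    rintro ⟨F, ⟨x, hx, rfl⟩, hk⟩
    exact slice_flat (vectorSpan ℝ (mface (poly I) x)) x hk u
      (isClosed_mface (convex_poly I) (isClosed_poly I) hx).measurableSet
      (fun y hy => vsub_mem_vectorSpan ℝ hy (self_mem_mface hx))
  rw [h1, lintegral_tsum fun F => (hfl F).1]
  exact tsum_congr fun F => (hfl F).2

theorem one_le_sum_proj {ι : Type*} [Fintype ι] (b : OrthonormalBasis ι ℝ E) {W : Submodule ℝ E}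
    (hW : W ≠ ⊥) : 1 ≤ ∑ i, ‖W.orthogonalProjectionOnto (b i)‖ₑ := by
  obtain ⟨w, hw, hw0⟩ := W.exists_mem_ne_zero_of_ne_bot hW
  set e : W := (‖w‖⁻¹ : ℝ) • ⟨w, hw⟩ with he
  have hw1 : ‖w‖ ≠ 0 := norm_ne_zero_iff.2 hw0
  have he1 : ‖e‖ = 1 := by
    rw [he, norm_smul, norm_inv, norm_norm]
    exact inv_mul_cancel₀ hw1
  have h1 : e = ∑ i, ⟪b i, (e : E)⟫ • W.orthogonalProjectionOnto (b i) := by
    conv_lhs => rw [← Submodule.orthogonalProjectionOnto_mem_subspace_eq_self (K := W) e,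
      ← b.sum_repr' (e : E), _root_.map_sum]
    exact Finset.sum_congr rfl fun i _ => by rw [map_smul]
  have h2 : (1 : ℝ) ≤ ∑ i, ‖W.orthogonalProjectionOnto (b i)‖ := by
    calc (1 : ℝ) = ‖e‖ := he1.symm
      _ = ‖∑ i, ⟪b i, (e : E)⟫ • W.orthogonalProjectionOnto (b i)‖ := by rw [← h1]
      _ ≤ ∑ i, ‖⟪b i, (e : E)⟫ • W.orthogonalProjectionOnto (b i)‖ := norm_sum_le _ _
      _ ≤ ∑ i, ‖W.orthogonalProjectionOnto (b i)‖ := by
        refine Finset.sum_le_sum fun i _ => ?_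
        rw [norm_smul]
        have : ‖(⟪b i, (e : E)⟫ : ℝ)‖ ≤ 1 := by
          refine (norm_inner_le_norm _ _).trans ?_
          rw [b.norm_eq_one i, one_mul]
          exact he1.le
        exact mul_le_of_le_one_left (norm_nonneg _) this
  calc (1 : ℝ≥0∞) = ENNReal.ofReal 1 := by simp
    _ ≤ ENNReal.ofReal (∑ i, ‖W.orthogonalProjectionOnto (b i)‖) := ENNReal.ofReal_le_ofReal h2
    _ = ∑ i, ‖W.orthogonalProjectionOnto (b i)‖ₑ := by
      rw [ENNReal.ofReal_sum_of_nonneg fun i _ => norm_nonneg _]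
      exact Finset.sum_congr rfl fun i _ => ofReal_norm _

theorem zeta_succ_le {ι : Type*} [Fintype ι] (b : OrthonormalBasis ι ℝ E) (I : Finset (E × ℝ))
    (k : ℕ) : zeta (k + 1) (poly I) ≤ ∑ i, ∫⁻ s : ℝ, zeta k (poly I ∩ hyp (b i) s) := by
  simp_rw [lintegral_zeta_section]
  rw [← Summable.tsum_finsetSum fun i _ => ENNReal.summable]
  refine ENNReal.tsum_le_tsum fun F => ?_
  rw [← Finset.sum_mul]
  apply le_mul_of_one_le_left zero_le
  apply one_le_sum_proj
  intro h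
  have := F.2.2
  rw [h] at this
  simp at this

theorem lintegral_zeta_section_le (I : Finset (E × ℝ)) {u : E} (hu : ‖u‖ ≤ 1)
    (k : ℕ) : ∫⁻ s : ℝ, zeta k (poly I ∩ hyp u s) ≤ zeta (k + 1) (poly I) := by
  rw [lintegral_zeta_section]
  refine ENNReal.tsum_le_tsum fun F => ?_
  apply mul_le_of_le_one_left zero_le
  have : ‖(vectorSpan ℝ (F : Set E)).orthogonalProjectionOnto u‖ ≤ 1 :=
    (Submodule.norm_orthogonalProjectionOnto_apply_le _ _).trans hu
  rw [← ofReal_norm]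
  exact ENNReal.ofReal_le_one.2 this

end Pool.Agent.Helper75
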