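import Pool.Agent.Helper75.Count

open MeasureTheory Module Set Filter Topology MeasureTheory.Measure
open scoped RealInnerProductSpace ENNReal NNReal

namespace Pool.Agent.Helper75

variable {E : Type*} [NormedAddCommGroup E] [InnerProductSpace ℝ E] [FiniteDimensional ℝ E]
  [MeasurableSpace E] [BorelSpace E]

theorem isBounded_of_norm_sub_le {P : Set E} {D : ℝ} (hD : ∀ x ∈ P, ∀ y ∈ P, ‖x - y‖ ≤ D) :
    Bornology.IsBounded P := by
  rw [Metric.isBounded_iff]
  exact ⟨D, fun x hx y hy => by rw [dist_eq_norm]; exact hD x hx y hy⟩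

/-- the constant of the main inequality. -/
noncomputable def cst (E : Type*) [NormedAddCommGroup E] [InnerProductSpace ℝ E] (j : ℕ) : ℝ≥0∞ :=
  25 ^ finrank ℝ E * (4 * finrank ℝ E) * (finrank ℝ E : ℝ≥0∞) ^ j

theorem base_case {I : Finset (E × ℝ)} {D : ℝ} (hD : ∀ x ∈ poly I, ∀ y ∈ poly I, ‖x - y‖ ≤ D)
    (h3 : finrank ℝ (vectorSpan ℝ (poly I)) = 3) :
    zeta 1 (poly I) ≤ 25 ^ finrank ℝ E * (4 * finrank ℝ E) * ENNReal.ofReal D *
      zeta 0 (poly I) := by
  have h1 := zeta_one_le_faces hD h3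
  have h2 := encard_kfaces_two_le (isBounded_of_norm_sub_le hD) h3
  have hne : (poly I).Nonempty := by
    rw [nonempty_iff_ne_empty]
    intro h
    rw [h, vectorSpan_empty, finrank_bot] at h3
    omega
  obtain ⟨x₀, hx₀⟩ := hne
  have hD0 : 0 ≤ D := (norm_nonneg _).trans (hD x₀ hx₀ x₀ hx₀)
  rw [zeta_zero_eq]
  have h4 : (((kfaces 2 (poly I)).encard : ℕ∞) : ℝ≥0∞) ≤
      25 ^ finrank ℝ E * (((kfaces 0 (poly I)).encard : ℕ∞) : ℝ≥0∞) := by
    calc _ ≤ (((25 ^ finrank ℝ E * (kfaces 0 (poly I)).encard : ℕ∞)) : ℝ≥0∞) :=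
          ENat.toENNReal_mono h2
      _ = _ := by simp
  have h5 : ENNReal.ofReal (4 * finrank ℝ E * D) = 4 * (finrank ℝ E : ℝ≥0∞) * ENNReal.ofReal D := by
    rw [ENNReal.ofReal_mul (by positivity), ENNReal.ofReal_mul (by norm_num),
      ENNReal.ofReal_natCast]
    norm_num
  rw [h5] at h1
  calc zeta 1 (poly I) ≤ _ := h1
    _ ≤ (25 ^ finrank ℝ E * (((kfaces 0 (poly I)).encard : ℕ∞) : ℝ≥0∞)) *
        (4 * (finrank ℝ E : ℝ≥0∞) * ENNReal.ofReal D) := mul_le_mul_left h4 _
    _ = _ := by ring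

theorem codim_inequality (j : ℕ) : ∀ (I : Finset (E × ℝ)) (D : ℝ),
    (∀ x ∈ poly I, ∀ y ∈ poly I, ‖x - y‖ ≤ D) → finrank ℝ (vectorSpan ℝ (poly I)) = j + 3 →
    zeta (j + 1) (poly I) ≤ cst E j * ENNReal.ofReal D * zeta j (poly I) := by
  induction j with
  | zero =>
    intro I D hD h3
    have := base_case hD (by simpa using h3)
    simpa [cst] using this
  | succ j ih =>
    intro I D hD hfr
    classical
    let b := stdOrthonormalBasis ℝ E
    have key : ∀ i, ∫⁻ s : ℝ, zeta (j + 1) (poly I ∩ hyp (b i) s) ≤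
        cst E j * ENNReal.ofReal D * zeta (j + 1) (poly I) := by
      intro i
      have hae : ∀ᵐ s : ℝ, zeta (j + 1) (poly I ∩ hyp (b i) s) ≤
          cst E j * ENNReal.ofReal D * zeta j (poly I ∩ hyp (b i) s) := by
        filter_upwards [(finite_bad I (b i)).countable.ae_notMem _] with s hs
        rcases (poly I ∩ hyp (b i) s).eq_empty_or_nonempty with h | h
        · rw [h, zeta_empty]; exact zero_le
        · have hfr' := finrank_section hs (m := j + 3) (by rw [hfr]) h
          rw [poly_inter_hyp] at hfr' ⊢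
          apply ih _ D _ hfr'
          intro x hx y hy
          rw [← poly_inter_hyp] at hx hy
          exact hD x hx.1 y hy.1
      refine (lintegral_mono_ae hae).trans ?_
      rw [lintegral_const_mul' _ _ (ENNReal.mul_ne_top (by
        unfold cst
        exact ENNReal.mul_ne_top (ENNReal.mul_ne_top (by simp) (by finiteness)) (by finiteness))
        ENNReal.ofReal_ne_top)]
      exact mul_le_mul_right (lintegral_zeta_section_le I (b.norm_eq_one i).le j) _
    refine (zeta_succ_le b I (j + 1)).trans ((Finset.sum_le_sum fun i _ => key i).trans ?_)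
    rw [Finset.sum_const, Finset.card_univ, Fintype.card_fin, nsmul_eq_mul]
    unfold cst
    rw [pow_succ]
    apply le_of_eq
    ring

end Pool.Agent.Helper75
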