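import Mathlib
import Pool.Agent.Helper75.Zeta

open MeasureTheory Module Set Filter Topology MeasureTheory.Measure
open scoped RealInnerProductSpace ENNReal NNReal

namespace Pool.Agent.Helper75

variable {E : Type*} [NormedAddCommGroup E] [InnerProductSpace ℝ E] [FiniteDimensional ℝ E]
  [MeasurableSpace E] [BorelSpace E]

/-- the right prism over `F` in the direction `ν`. -/
def prism (F : Set E) (ν : E) (a b : ℝ) : Set E :=
  (fun p : E × ℝ => p.1 + p.2 • ν) '' (F ×ˢ Icc a b)

omit [FiniteDimensional ℝ E] [MeasurableSpace E] [BorelSpace E] in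
theorem mem_prism {F : Set E} {ν : E} {a b : ℝ} {x : E} :
    x ∈ prism F ν a b ↔ ∃ y ∈ F, ∃ t ∈ Icc a b, x = y + t • ν := by
  constructor
  · rintro ⟨⟨y, t⟩, ⟨hy, ht⟩, rfl⟩
    exact ⟨y, hy, t, ht, rfl⟩
  · rintro ⟨y, hy, t, ht, rfl⟩
    exact ⟨(y, t), ⟨hy, ht⟩, rfl⟩

omit [FiniteDimensional ℝ E] [MeasurableSpace E] [BorelSpace E] in
theorem isCompact_prism {F : Set E} (hF : IsCompact F) (ν : E) (a b : ℝ) :
    IsCompact (prism F ν a b) :=
  (hF.prod isCompact_Icc).image (by fun_prop)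

theorem measure_prism {F : Set E} (hF : IsCompact F) {ν : E} (hν : ‖ν‖ = 1) {s₀ : ℝ}
    (hs : ∀ y ∈ F, ⟪ν, y⟫ = s₀) (a b : ℝ) :
    μHE[finrank ℝ E] (prism F ν a b) = ENNReal.ofReal (b - a) * μHE[finrank ℝ E - 1] F := by
  have hν0 : ν ≠ 0 := by
    intro h; rw [h, norm_zero] at hν; exact zero_ne_one hν
  have h1 := lintegral_slice_full hν0 (isCompact_prism hF ν a b).measurableSet
  have hνe : ‖ν‖ₑ = 1 := by rw [← ofReal_norm, hν, ENNReal.ofReal_one]
  rw [hνe, one_mul] at h1
  rw [← h1]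
  have hsl : ∀ s : ℝ, μHE[finrank ℝ E - 1] (prism F ν a b ∩ hyp ν s) =
      (Icc (s₀ + a) (s₀ + b)).indicator (fun _ => μHE[finrank ℝ E - 1] F) s := by
    intro s
    by_cases hmem : s ∈ Icc (s₀ + a) (s₀ + b)
    · rw [indicator_of_mem hmem]
      have himg : (fun y : E => (s - s₀) • ν + y) '' F = prism F ν a b ∩ hyp ν s := by
        ext x
        constructor
        · rintro ⟨y, hy, rfl⟩
          refine ⟨mem_prism.2 ⟨y, hy, s - s₀, ⟨by linarith [hmem.1], by linarith [hmem.2]⟩,
            add_comm _ _⟩, ?_⟩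
          rw [mem_hyp, inner_add_right, inner_smul_right, real_inner_self_eq_norm_sq, hν, hs y hy]
          ring
        · rintro ⟨hx, hx'⟩
          obtain ⟨y, hy, t, ht, rfl⟩ := mem_prism.1 hx
          rw [mem_hyp, inner_add_right, inner_smul_right, real_inner_self_eq_norm_sq, hν,
            hs y hy] at hx'
          refine ⟨y, hy, ?_⟩
          have : s - s₀ = t := by linarith
          simp only [this]
          exact add_comm _ _
      rw [← himg]
      exact (Isometry.of_dist_eq fun x y => dist_add_left _ _ _).euclideanHausdorffMeasure_image F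
    · rw [indicator_of_notMem hmem]
      have : prism F ν a b ∩ hyp ν s = ∅ := by
        ext x
        simp only [mem_inter_iff, mem_empty_iff_false, iff_false, not_and]
        intro hx hx'
        obtain ⟨y, hy, t, ht, rfl⟩ := mem_prism.1 hx
        rw [mem_hyp, inner_add_right, inner_smul_right, real_inner_self_eq_norm_sq, hν,
            hs y hy] at hx'
        exact hmem ⟨by linarith [ht.1], by linarith [ht.2]⟩
      rw [this, measure_empty]
  simp_rw [hsl]
  rw [lintegral_indicator measurableSet_Icc, lintegral_const, Measure.restrict_apply_univ,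
    Real.volume_Icc, mul_comm]
  congr 2
  ring

/-- the volume of the unit ball of `ℝᵏ` (as an extended real). -/
noncomputable def kap (k : ℕ) : ℝ≥0∞ := volume (Metric.closedBall (0 : EuclideanSpace ℝ (Fin k)) 1)

theorem kap_ne_top (k : ℕ) : kap k ≠ ⊤ := by
  unfold kap
  exact (isCompact_closedBall _ _).measure_lt_top.ne

theorem kap_ne_zero (k : ℕ) : kap k ≠ 0 := by
  unfold kap
  have h : 0 < volume (Metric.ball (0 : EuclideanSpace ℝ (Fin k)) 1) :=
    Metric.measure_ball_pos _ _ one_pos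
  exact (h.trans_le (measure_mono Metric.ball_subset_closedBall)).ne'

/-- flat sets of dimension `k` and bounded size have bounded `k`-volume. -/
theorem measure_flat_le {F : Set E} {k : ℕ} (hk : finrank ℝ (vectorSpan ℝ F) = k) {D : ℝ}
    (hD : ∀ x ∈ F, ∀ y ∈ F, ‖x - y‖ ≤ D) :
    μHE[k] F ≤ ENNReal.ofReal (D ^ k) * kap k := by
  rcases F.eq_empty_or_nonempty with h | ⟨x₀, hx₀⟩
  · rw [h, measure_empty]; exact zero_le
  have hD0 : 0 ≤ D := (norm_nonneg _).trans (hD x₀ hx₀ x₀ hx₀)
  set W := vectorSpan ℝ F with hW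
  -- an isometry from `ℝᵏ` onto the affine span
  let e : EuclideanSpace ℝ (Fin k) ≃ₗᵢ[ℝ] W :=
    ((stdOrthonormalBasis ℝ W).reindex (finCongr hk)).repr.symm
  let φ : EuclideanSpace ℝ (Fin k) → E := fun z => x₀ + ((e z : W) : E)
  have hφ : Isometry φ := by
    refine Isometry.of_dist_eq fun a b => ?_
    simp only [φ]
    rw [dist_add_left, ← e.dist_map a b]
    rfl
  have hsub : F ⊆ φ '' (Metric.closedBall 0 D) := by
    intro x hx
    refine ⟨e.symm ⟨x - x₀, vsub_mem_vectorSpan ℝ hx hx₀⟩, ?_, ?_⟩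
    · rw [mem_closedBall_zero_iff, LinearIsometryEquiv.norm_map]
      exact hD x hx x₀ hx₀
    · simp [φ]
  calc μHE[k] F ≤ μHE[k] (φ '' (Metric.closedBall 0 D)) := measure_mono hsub
    _ = volume (Metric.closedBall (0 : EuclideanSpace ℝ (Fin k)) D) := by
      rw [hφ.euclideanHausdorffMeasure_image, EuclideanSpace.euclideanHausdorffMeasure_eq_volume]
    _ ≤ ENNReal.ofReal (D ^ k) * kap k := by
      rw [Measure.addHaar_closedBall' _ _ hD0, finrank_euclideanSpace, Fintype.card_fin]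
      rfl

theorem measure_flat_lt_top {F : Set E} {k : ℕ} (hk : finrank ℝ (vectorSpan ℝ F) = k) {D : ℝ}
    (hD : ∀ x ∈ F, ∀ y ∈ F, ‖x - y‖ ≤ D) : μHE[k] F < ⊤ :=
  (measure_flat_le hk hD).trans_lt (ENNReal.mul_lt_top ENNReal.ofReal_lt_top (kap_ne_top k).lt_top)

theorem measure_flat_eq_zero {F : Set E} {j k : ℕ} (hj : finrank ℝ (vectorSpan ℝ F) = j)
    (hjk : j < k) {D : ℝ} (hD : ∀ x ∈ F, ∀ y ∈ F, ‖x - y‖ ≤ D) : μHE[k] F = 0 := by
  rcases euclideanHausdorffMeasure_zero_or_top hjk F with h | h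
  · exact h
  · exact absurd h (measure_flat_lt_top hj hD).ne

/-- the crude bound of the contents of a polytope. -/
theorem zeta_le_crude (I : Finset (E × ℝ)) (k : ℕ) {D : ℝ}
    (hD : ∀ x ∈ poly I, ∀ y ∈ poly I, ‖x - y‖ ≤ D) :
    zeta k (poly I) ≤ 2 ^ I.card * (ENNReal.ofReal (D ^ k) * kap k) := by
  unfold zeta
  calc ∑' F : kfaces k (poly I), μHE[k] (F : Set E)
      ≤ ∑' _ : kfaces k (poly I), ENNReal.ofReal (D ^ k) * kap k := by
        refine ENNReal.tsum_le_tsum fun F => measure_flat_le F.2.2 ?_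
        obtain ⟨⟨x, _, hx⟩, _⟩ := F.2
        intro y hy z hz
        rw [hx] at hy hz
        exact hD y hy.1 z hz.1
    _ = (kfaces k (poly I)).encard * (ENNReal.ofReal (D ^ k) * kap k) := by
        rw [ENNReal.tsum_set_const]
    _ ≤ _ := by
        refine mul_le_mul_left ?_ _
        have h := (encard_le_encard (s := kfaces k (poly I)) (t := faces (poly I))
          fun F hF => hF.1).trans (card_faces_poly_le I)
        calc (((kfaces k (poly I)).encard : ℕ∞) : ℝ≥0∞) ≤ (((2 ^ I.card : ℕ∞)) : ℝ≥0∞) :=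
              ENat.toENNReal_mono h
          _ = _ := by simp

theorem zeta_lt_top (I : Finset (E × ℝ)) (k : ℕ) {D : ℝ}
    (hD : ∀ x ∈ poly I, ∀ y ∈ poly I, ‖x - y‖ ≤ D) : zeta k (poly I) < ⊤ :=
  (zeta_le_crude I k hD).trans_lt (ENNReal.mul_lt_top (by finiteness)
    (ENNReal.mul_lt_top ENNReal.ofReal_lt_top (kap_ne_top k).lt_top))

end Pool.Agent.Helper75
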