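import Mathlib
import Pool.Agent.Helper75.Codim
import Pool.Agent.Helper75.Prism

open MeasureTheory Module Set Filter Topology MeasureTheory.Measure
open scoped RealInnerProductSpace ENNReal NNReal

namespace Pool.Agent.Helper75

theorem measure_image_le_of_lipschitz {X Y : Type*} [EMetricSpace X] [MeasurableSpace X]
    [BorelSpace X] [EMetricSpace Y] [MeasurableSpace Y] [BorelSpace Y] {f : X → Y}
    (hf : LipschitzWith 1 f) (k : ℕ) (s : Set X) : μHE[k] (f '' s) ≤ μHE[k] s := by
  rw [euclideanHausdorffMeasure_def, euclideanHausdorffMeasure_def, Measure.smul_apply,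
    Measure.smul_apply]
  have h := hf.hausdorffMeasure_image_le (d := (k : ℝ)) (by positivity) s
  rw [ENNReal.coe_one, ENNReal.one_rpow, one_mul] at h
  exact smul_le_smul_of_nonneg_left h zero_le

variable {E : Type*} [NormedAddCommGroup E] [InnerProductSpace ℝ E] [FiniteDimensional ℝ E]
  [MeasurableSpace E] [BorelSpace E]

variable {E' : Type*} [NormedAddCommGroup E'] [InnerProductSpace ℝ E'] [FiniteDimensional ℝ E']
  [MeasurableSpace E'] [BorelSpace E']

/-- the `k`-content of a polytope is at least the volume of its shadows of dimension `k`. -/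
theorem measure_shadow_le {I : Finset (E × ℝ)} {D : ℝ}
    (hD : ∀ x ∈ poly I, ∀ y ∈ poly I, ‖x - y‖ ≤ D) (f : E →ₗ[ℝ] E')
    (hf : LipschitzWith 1 f) : volume (f '' poly I) ≤ zeta (finrank ℝ E') (poly I) := by
  set k := finrank ℝ E' with hk
  have hcpt : IsCompact (poly I) := Metric.isCompact_of_isClosed_isBounded (isClosed_poly I)
    (isBounded_of_norm_sub_le hD)
  -- every point of the shadow is covered by a face of dimension at most `k`
  have hcov : f '' poly I ⊆ (⋃ F : kfaces k (poly I), f '' (F : Set E)) ∪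
      ⋃ F ∈ {F | F ∈ faces (poly I) ∧ finrank ℝ (vectorSpan ℝ F) < k}, f '' F := by
    rintro _ ⟨x₀, hx₀, rfl⟩
    set K := poly I ∩ {x | f x = f x₀} with hK
    have hKcl : IsClosed {x | f x = f x₀} := isClosed_eq hf.continuous continuous_const
    have hKcpt : IsCompact K := hcpt.inter_right hKcl
    obtain ⟨x, hx⟩ := hKcpt.extremePoints_nonempty ⟨x₀, hx₀, rfl⟩
    have hxK : x ∈ K := hx.1
    have hxs := mface_eq_singleton_of_extreme hx
    have hinj : ∀ v ∈ vectorSpan ℝ (mface (poly I) x), f v = 0 → v = 0 := by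
      intro v hv hfv
      obtain ⟨ε, hε, h1, h2⟩ := (mem_vectorSpan_mface (convex_poly I) hxK.1).1 hv
      have h3 : x + ε • v ∈ mface K x := by
        refine ⟨⟨h1, ?_⟩, 1, one_pos, ?_, ?_⟩
        · show f (x + ε • v) = f x₀
          rw [map_add, map_smul, hfv, smul_zero, add_zero]
          exact hxK.2
        · convert h2 using 1
          module
        · show f (x + (1 : ℝ) • (x - (x + ε • v))) = f x₀
          rw [one_smul, map_add, map_sub, map_add, map_smul, hfv, smul_zero, add_zero, sub_self,
            add_zero]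
          exact hxK.2
      rw [hxs, mem_singleton_iff, add_eq_left] at h3
      exact (smul_eq_zero.1 h3).resolve_left hε.ne'
    have hle : finrank ℝ (vectorSpan ℝ (mface (poly I) x)) ≤ k := by
      rw [hk]
      apply LinearMap.finrank_le_finrank_of_injective
        (f := f.comp (vectorSpan ℝ (mface (poly I) x)).subtype)
      rw [injective_iff_map_eq_zero]
      intro v hv
      exact Subtype.ext (hinj v v.2 hv)
    have hfx : f x = f x₀ := hxK.2
    rcases hle.eq_or_lt with h | h
    · left
      rw [mem_iUnion]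
      exact ⟨⟨mface (poly I) x, ⟨x, hxK.1, rfl⟩, h⟩, x, self_mem_mface hxK.1, hfx⟩
    · right
      simp only [mem_iUnion]
      exact ⟨mface (poly I) x, ⟨⟨x, hxK.1, rfl⟩, h⟩, x, self_mem_mface hxK.1, hfx⟩
  have hcount : Countable (kfaces k (poly I)) := (finite_kfaces_poly k I).countable
  rw [← InnerProductSpace.euclideanHausdorffMeasure_eq_volume, ← hk]
  refine (measure_mono hcov).trans ((measure_union_le _ _).trans ?_)
  have hz : μHE[k] (⋃ F ∈ {F | F ∈ faces (poly I) ∧ finrank ℝ (vectorSpan ℝ F) < k}, f '' F)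
      = 0 := by
    rw [measure_biUnion_null_iff (((finite_faces_poly I).subset fun F hF => hF.1).countable)]
    rintro F ⟨⟨x, hx, rfl⟩, hlt⟩
    refine le_antisymm ((measure_image_le_of_lipschitz hf k _).trans (le_of_eq ?_)) zero_le
    exact measure_flat_eq_zero rfl hlt fun y hy z hz => hD y hy.1 z hz.1
  rw [hz, add_zero]
  refine (measure_iUnion_le _).trans (ENNReal.tsum_le_tsum fun F => ?_)
  exact measure_image_le_of_lipschitz hf k _

end Pool.Agent.Helper75
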