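import Pool.Agent.Helper75.Shadow

open MeasureTheory Module Set Filter Topology MeasureTheory.Measure
open scoped RealInnerProductSpace ENNReal NNReal

namespace Pool.Agent.Helper75

open Classical in
/-- the constraints of the box `∏ [0, ℓ i]`. -/
noncomputable def boxI {d : ℕ} (ℓ : Fin d → ℝ) : Finset (EuclideanSpace ℝ (Fin d) × ℝ) :=
  (Finset.univ.image fun i => (EuclideanSpace.single i (1 : ℝ), ℓ i)) ∪
    (Finset.univ.image fun i => (-EuclideanSpace.single i (1 : ℝ), 0))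

theorem mem_box {d : ℕ} {ℓ : Fin d → ℝ} {x : EuclideanSpace ℝ (Fin d)} :
    x ∈ poly (boxI ℓ) ↔ ∀ i, 0 ≤ x i ∧ x i ≤ ℓ i := by
  classical
  simp only [mem_poly, boxI, Finset.mem_union, Finset.mem_image, Finset.mem_univ, true_and]
  constructor
  · intro h i
    have h1 := h _ (Or.inl ⟨i, rfl⟩)
    have h2 := h _ (Or.inr ⟨i, rfl⟩)
    simp only [inner_neg_left, EuclideanSpace.inner_single_left, map_one, one_mul] at h1 h2
    exact ⟨by linarith, h1⟩
  · rintro h c (⟨i, rfl⟩ | ⟨i, rfl⟩)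
    · simp only [EuclideanSpace.inner_single_left, map_one, one_mul]
      exact (h i).2
    · simp only [inner_neg_left, EuclideanSpace.inner_single_left, map_one, one_mul]
      linarith [(h i).1]

theorem card_boxI_le {d : ℕ} (ℓ : Fin d → ℝ) : (boxI ℓ).card ≤ 2 * d := by
  classical
  unfold boxI
  refine (Finset.card_union_le _ _).trans ?_
  have h1 := Finset.card_image_le (s := (Finset.univ : Finset (Fin d)))
    (f := fun i => ((EuclideanSpace.single i (1 : ℝ) : EuclideanSpace ℝ (Fin d)), ℓ i))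
  have h2 := Finset.card_image_le (s := (Finset.univ : Finset (Fin d)))
    (f := fun i => ((-EuclideanSpace.single i (1 : ℝ) : EuclideanSpace ℝ (Fin d)), (0 : ℝ)))
  rw [Finset.card_univ, Fintype.card_fin] at h1 h2
  linarith

theorem box_diam {d : ℕ} {ℓ : Fin d → ℝ} (hℓ : ∀ i, ℓ i ≤ 1) :
    ∀ x ∈ poly (boxI ℓ), ∀ y ∈ poly (boxI ℓ), ‖x - y‖ ≤ d := by
  intro x hx y hy
  rw [mem_box] at hx hy
  have h1 : ‖x - y‖ ^ 2 ≤ (d : ℝ) ^ 2 := by
    rw [EuclideanSpace.real_norm_sq_eq]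
    calc ∑ i, (x - y) i ^ 2 ≤ ∑ _i : Fin d, (1 : ℝ) := by
          refine Finset.sum_le_sum fun i _ => ?_
          have h2 := hx i
          have h3 := hy i
          have h4 := hℓ i
          rw [PiLp.sub_apply, sq_le_one_iff_abs_le_one, abs_le]
          constructor <;> linarith
      _ = d := by simp
      _ ≤ (d : ℝ) ^ 2 := by
          rcases Nat.eq_zero_or_pos d with h | h
          · rw [h]; simp
          · have : (1 : ℝ) ≤ d := by exact_mod_cast h
            nlinarith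
  exact (pow_le_pow_iff_left₀ (norm_nonneg _) (by positivity) two_ne_zero).1 h1

/-- the volume of a box. -/
theorem volume_box' {d : ℕ} (a b : Fin d → ℝ) :
    volume {x : EuclideanSpace ℝ (Fin d) | ∀ i, a i ≤ x i ∧ x i ≤ b i} =
      ∏ i, ENNReal.ofReal (b i - a i) := by
  rw [← Real.volume_Icc_pi, ← (EuclideanSpace.volume_preserving_symm_measurableEquiv_toLp
    (Fin d)).measure_preimage measurableSet_Icc.nullMeasurableSet]
  congr 1
  ext x
  simp only [mem_ofPred_eq, mem_preimage, mem_Icc, Pi.le_def]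
  constructor
  · intro h
    exact ⟨fun i => (h i).1, fun i => (h i).2⟩
  · rintro ⟨h1, h2⟩ i
    exact ⟨h1 i, h2 i⟩

theorem volume_box {d : ℕ} (ℓ : Fin d → ℝ) :
    volume (poly (boxI ℓ)) = ∏ i, ENNReal.ofReal (ℓ i) := by
  have : poly (boxI ℓ) = {x : EuclideanSpace ℝ (Fin d) | ∀ i, (fun _ => 0 : Fin d → ℝ) i ≤ x i ∧
      x i ≤ ℓ i} := by
    ext x; exact mem_box
  rw [this, volume_box']
  simp

theorem interior_box_nonempty {d : ℕ} {ℓ : Fin d → ℝ} (hℓ : ∀ i, 0 < ℓ i) :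
    (interior (poly (boxI ℓ))).Nonempty := by
  have hopen : IsOpen {x : EuclideanSpace ℝ (Fin d) | ∀ i, 0 < x i ∧ x i < ℓ i} := by
    have : {x : EuclideanSpace ℝ (Fin d) | ∀ i, 0 < x i ∧ x i < ℓ i} =
        ⋂ i, {x : EuclideanSpace ℝ (Fin d) | 0 < x i ∧ x i < ℓ i} := by
      ext x; simp
    rw [this]
    apply isOpen_iInter_of_finite
    intro i
    have hc : Continuous fun x : EuclideanSpace ℝ (Fin d) => x i := by fun_prop
    exact (isOpen_lt continuous_const hc).inter (isOpen_lt hc continuous_const)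
  refine ⟨WithLp.toLp 2 fun i => ℓ i / 2, ?_⟩
  apply interior_maximal _ hopen
  · intro i
    have := hℓ i
    simp only
    constructor <;> linarith
  · intro x hx
    rw [mem_box]
    exact fun i => ⟨(hx i).1.le, (hx i).2.le⟩

/-- the coordinate projection attached to an embedding of index sets. -/
noncomputable def coordMap {k d : ℕ} (σ : Fin k ↪ Fin d) :
    EuclideanSpace ℝ (Fin d) →ₗ[ℝ] EuclideanSpace ℝ (Fin k) where
  toFun x := WithLp.toLp 2 fun i => x (σ i)
  map_add' x y := by ext i; simp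
  map_smul' c x := by ext i; simp

theorem coordMap_apply {k d : ℕ} (σ : Fin k ↪ Fin d) (x : EuclideanSpace ℝ (Fin d)) (i : Fin k) :
    coordMap σ x i = x (σ i) := rfl

theorem norm_coordMap_le {k d : ℕ} (σ : Fin k ↪ Fin d) (x : EuclideanSpace ℝ (Fin d)) :
    ‖coordMap σ x‖ ≤ ‖x‖ := by
  rw [← pow_le_pow_iff_left₀ (norm_nonneg _) (norm_nonneg _) two_ne_zero,
    EuclideanSpace.real_norm_sq_eq, EuclideanSpace.real_norm_sq_eq]
  calc ∑ i, (coordMap σ x) i ^ 2 = ∑ i, (x (σ i)) ^ 2 := rfl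
    _ = ∑ j ∈ Finset.univ.map σ, x j ^ 2 := by rw [Finset.sum_map]
    _ ≤ ∑ j, x j ^ 2 := Finset.sum_le_sum_of_subset_of_nonneg (Finset.subset_univ _)
        fun j _ _ => sq_nonneg _

theorem lipschitz_coordMap {k d : ℕ} (σ : Fin k ↪ Fin d) : LipschitzWith 1 (coordMap σ) := by
  refine LipschitzWith.of_dist_le_mul fun x y => ?_
  rw [NNReal.coe_one, one_mul, dist_eq_norm, dist_eq_norm, ← map_sub]
  exact norm_coordMap_le σ _

theorem zeta_box_ge {k d : ℕ} (σ : Fin k ↪ Fin d) {ℓ : Fin d → ℝ} (hℓ0 : ∀ i, 0 ≤ ℓ i)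
    (hℓ : ∀ i, ℓ i ≤ 1) : ∏ i, ENNReal.ofReal (ℓ (σ i)) ≤ zeta k (poly (boxI ℓ)) := by
  classical
  have h1 := measure_shadow_le (box_diam hℓ) (coordMap σ) (lipschitz_coordMap σ)
  rw [finrank_euclideanSpace, Fintype.card_fin] at h1
  refine le_trans ?_ h1
  rw [← volume_box]
  apply measure_mono
  intro y hy
  rw [mem_box] at hy
  refine ⟨WithLp.toLp 2 fun j => if h : ∃ i, σ i = j then y h.choose else 0, ?_, ?_⟩
  · rw [mem_box]
    intro j
    simp only
    split_ifs with h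
    · have := hy h.choose
      rw [h.choose_spec] at this
      exact this
    · exact ⟨le_rfl, hℓ0 j⟩
  · ext i
    rw [coordMap_apply]
    have h : ∃ i', σ i' = σ i := ⟨i, rfl⟩
    show (if h : ∃ i', σ i' = σ i then y h.choose else 0) = y i
    rw [dif_pos h]
    exact congrArg (fun j => y j) (σ.injective h.choose_spec)

/-- a unit normal to a flat set of positive codimension. -/
theorem exists_unit_normal {E : Type*} [NormedAddCommGroup E] [InnerProductSpace ℝ E]
    [FiniteDimensional ℝ E] {F : Set E} (hF : finrank ℝ (vectorSpan ℝ F) < finrank ℝ E) :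
    ∃ ν ∈ (vectorSpan ℝ F)ᗮ, ‖ν‖ = 1 := by
  have h1 := (vectorSpan ℝ F).finrank_add_finrank_orthogonal
  have h2 : (vectorSpan ℝ F)ᗮ ≠ ⊥ := by
    intro h
    rw [h, finrank_bot] at h1
    omega
  obtain ⟨ν, hν, hν0⟩ := Submodule.exists_mem_ne_zero_of_ne_bot h2
  exact ⟨‖ν‖⁻¹ • ν, Submodule.smul_mem _ _ hν, norm_smul_inv_norm hν0⟩

/-- the side lengths of the thin box. -/
noncomputable def thin (m : ℕ) (ε : ℝ) : Fin (m + 4) → ℝ := fun i => if (i : ℕ) < m + 2 then 1 else ε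

theorem thin_pos {m : ℕ} {ε : ℝ} (hε : 0 < ε) (i : Fin (m + 4)) : 0 < thin m ε i := by
  unfold thin; split_ifs <;> linarith

theorem thin_le {m : ℕ} {ε : ℝ} (hε : ε ≤ 1) (i : Fin (m + 4)) : thin m ε i ≤ 1 := by
  unfold thin; split_ifs <;> linarith

theorem volume_fat_thin {m : ℕ} {ε : ℝ} (hε : 0 < ε) (hε1 : ε ≤ 1) :
    volume {x : EuclideanSpace ℝ (Fin (m + 4)) | ∀ i, -ε ≤ x i ∧ x i ≤ thin m ε i + ε} ≤
      ENNReal.ofReal (3 ^ (m + 4) * ε ^ 2) := by
  have h := volume_box' (d := m + 4) (fun _ => -ε) (fun i => thin m ε i + ε)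
  refine (le_of_eq h).trans ?_
  rw [← ENNReal.ofReal_prod_of_nonneg]
  · apply ENNReal.ofReal_le_ofReal
    rw [Fin.prod_univ_castSucc, Fin.prod_univ_castSucc]
    have e1 : thin m ε (Fin.last (m + 3)) = ε := by
      simp [thin]
    have e2 : thin m ε (Fin.castSucc (Fin.last (m + 2))) = ε := by
      simp [thin]
    rw [e1, e2]
    have h3 : ∏ i : Fin (m + 2), (thin m ε i.castSucc.castSucc + ε - -ε) ≤ 3 ^ (m + 2) := by
      calc _ ≤ ∏ _i : Fin (m + 2), (3 : ℝ) := by
            refine Finset.prod_le_prod (fun i _ => ?_) fun i _ => ?_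
            · have := thin_pos (m := m) hε i.castSucc.castSucc
              linarith
            · have := thin_le (m := m) hε1 i.castSucc.castSucc
              linarith
        _ = 3 ^ (m + 2) := by simp
    calc _ ≤ 3 ^ (m + 2) * (ε + ε - -ε) * (ε + ε - -ε) := by gcongr; linarith; linarith
      _ = 3 ^ (m + 4) * ε ^ 2 := by ring
  · intro i _
    have := thin_pos (m := m) hε i
    linarith

theorem facet_thin_le {m : ℕ} {ε : ℝ} (hε : 0 < ε) (hε1 : ε ≤ 1)
    {F : Set (EuclideanSpace ℝ (Fin (m + 4)))}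
    (hF : F ∈ kfaces (m + 3) (poly (boxI (thin m ε)))) :
    μHE[m + 3] F ≤ ENNReal.ofReal (3 ^ (m + 4) * ε) := by
  obtain ⟨⟨x, hx, hFx⟩, hk⟩ := hF
  have hbd := box_diam (ℓ := thin m ε) (thin_le hε1)
  have hcpt : IsCompact (poly (boxI (thin m ε))) :=
    Metric.isCompact_of_isClosed_isBounded (isClosed_poly _) (isBounded_of_norm_sub_le hbd)
  have hFcpt : IsCompact F := by
    rw [hFx]
    exact hcpt.of_isClosed_subset (isClosed_mface (convex_poly _) (isClosed_poly _) hx)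
      (mface_subset _ _)
  obtain ⟨ν, hν, hν1⟩ := exists_unit_normal (F := F) (by
    rw [hk, finrank_euclideanSpace, Fintype.card_fin]; omega)
  have hxF : x ∈ F := by rw [hFx]; exact self_mem_mface hx
  have hs : ∀ y ∈ F, ⟪ν, y⟫ = ⟪ν, x⟫ := by
    intro y hy
    have := (Submodule.mem_orthogonal' _ _).1 hν _ (vsub_mem_vectorSpan ℝ hy hxF)
    simp only [vsub_eq_sub, inner_sub_right] at this
    linarith
  have h1 := measure_prism hFcpt hν1 hs 0 ε
  rw [sub_zero, finrank_euclideanSpace, Fintype.card_fin] at h1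
  have hsub : prism F ν 0 ε ⊆ {x : EuclideanSpace ℝ (Fin (m + 4)) |
      ∀ i, -ε ≤ x i ∧ x i ≤ thin m ε i + ε} := by
    intro z hz i
    obtain ⟨y, hy, t, ht, rfl⟩ := mem_prism.1 hz
    have hyP : y ∈ poly (boxI (thin m ε)) := by
      rw [hFx] at hy; exact hy.1
    have h3 := mem_box.1 hyP i
    have h4 : |ν i| ≤ 1 := by
      have := PiLp.norm_apply_le ν i
      rwa [hν1, Real.norm_eq_abs] at this
    have h5 : |t * ν i| ≤ ε := by
      rw [abs_mul, abs_of_nonneg ht.1]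
      calc t * |ν i| ≤ ε * 1 := mul_le_mul ht.2 h4 (abs_nonneg _) hε.le
        _ = ε := mul_one _
    have h6 := abs_le.1 h5
    rw [PiLp.add_apply, PiLp.smul_apply, smul_eq_mul]
    constructor <;> linarith [h3.1, h3.2]
  have h2 : μHE[m + 4] (prism F ν 0 ε) ≤ ENNReal.ofReal (3 ^ (m + 4) * ε ^ 2) := by
    rw [EuclideanSpace.euclideanHausdorffMeasure_eq_volume]
    exact (measure_mono hsub).trans (volume_fat_thin hε hε1)
  rw [h1] at h2
  have h7 : (3 : ℝ) ^ (m + 4) * ε ^ 2 = ε * (3 ^ (m + 4) * ε) := by ring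
  rw [h7, ENNReal.ofReal_mul hε.le] at h2
  rw [show m + 4 - 1 = m + 3 by omega] at h2
  exact (ENNReal.mul_le_mul_iff_right (ENNReal.ofReal_pos.2 hε).ne' ENNReal.ofReal_ne_top).1 h2

theorem zeta_thin_le {m : ℕ} {ε : ℝ} (hε : 0 < ε) (hε1 : ε ≤ 1) :
    zeta (m + 3) (poly (boxI (thin m ε))) ≤
      2 ^ (2 * (m + 4)) * ENNReal.ofReal (3 ^ (m + 4) * ε) := by
  have h1 : zeta (m + 3) (poly (boxI (thin m ε))) ≤
      (kfaces (m + 3) (poly (boxI (thin m ε)))).encard * ENNReal.ofReal (3 ^ (m + 4) * ε) := by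
    rw [← ENNReal.tsum_set_const]
    exact ENNReal.tsum_le_tsum fun F => facet_thin_le hε hε1 F.2
  refine h1.trans (mul_le_mul_left ?_ _)
  have h := (encard_le_encard (s := kfaces (m + 3) (poly (boxI (thin m ε))))
    (t := faces (poly (boxI (thin m ε)))) fun F hF => hF.1).trans
    (card_faces_poly_le (boxI (thin m ε)))
  calc (((kfaces (m + 3) (poly (boxI (thin m ε)))).encard : ℕ∞) : ℝ≥0∞)
      ≤ (((2 ^ (boxI (thin m ε)).card : ℕ∞)) : ℝ≥0∞) := ENat.toENNReal_mono h
    _ = 2 ^ (boxI (thin m ε)).card := by simp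
    _ ≤ 2 ^ (2 * (m + 4)) := pow_le_pow_right₀ (by norm_num) (card_boxI_le _)

end Pool.Agent.Helper75
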