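import Pool.Agent.Helper75.Zeta

open MeasureTheory Module Set Filter Topology MeasureTheory.Measure
open scoped RealInnerProductSpace ENNReal

namespace Pool.Agent.Helper75

section

variable {E : Type*} [NormedAddCommGroup E] [InnerProductSpace ℝ E]

/-- a nonempty polyhedron has a relative interior point. -/
theorem exists_mface_eq_self (I : Finset (E × ℝ)) (hne : (poly I).Nonempty) :
    ∃ w ∈ poly I, mface (poly I) w = poly I := by
  have : poly I ∈ faces (poly I) := by
    apply exposed_mem_faces (a := 0) _ hne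
    ext x
    simp
  obtain ⟨w, hw, h⟩ := this
  exact ⟨w, hw, h.symm⟩

open Classical in
/-- faces of polyhedra are polyhedra. -/
theorem exists_poly_eq_of_mem_faces {I : Finset (E × ℝ)} {F : Set E} (hF : F ∈ faces (poly I)) :
    ∃ J : Finset (E × ℝ), F = poly J := by
  obtain ⟨x, hx, rfl⟩ := hF
  refine ⟨I ∪ (I.filter fun c => ⟪c.1, x⟫ = c.2).image fun c => (-c.1, -c.2), ?_⟩
  ext y
  rw [mem_mface_poly hx]
  simp only [mem_poly, Finset.mem_union, Finset.mem_image, Finset.mem_filter]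
  constructor
  · rintro ⟨h1, h2⟩ c hc
    rcases hc with hc | ⟨c', ⟨hc', hc''⟩, rfl⟩
    · exact h1 c hc
    · simp only [inner_neg_left]
      rw [h2 c' hc' hc'']
  · intro h
    refine ⟨fun c hc => h c (Or.inl hc), fun c hc hcx => ?_⟩
    have h1 := h c (Or.inl hc)
    have h2 := h (-c.1, -c.2) (Or.inr ⟨c, ⟨hc, hcx⟩, rfl⟩)
    simp only [inner_neg_left] at h2
    linarith

end

variable {E : Type*} [NormedAddCommGroup E] [InnerProductSpace ℝ E] [FiniteDimensional ℝ E]

/-- every point which is not in the relative interior lies in a facet. -/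
theorem exists_facet {I : Finset (E × ℝ)} {x : E} (hx : x ∈ poly I)
    (hxP : mface (poly I) x ≠ poly I) : ∃ F ∈ faces (poly I), x ∈ F ∧
      finrank ℝ (vectorSpan ℝ F) + 1 = finrank ℝ (vectorSpan ℝ (poly I)) := by
  classical
  obtain ⟨w, hw, hwP⟩ := exists_mface_eq_self I ⟨x, hx⟩
  set I₀ := I.filter fun c => ⟪c.1, w⟫ = c.2 with hI₀
  -- constraints tight at `w` are tight everywhere
  have htight : ∀ c ∈ I₀, ∀ y ∈ poly I, ⟪c.1, y⟫ = c.2 := by
    intro c hc y hy
    rw [← hwP, mem_mface_poly hw] at hy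
    obtain ⟨hc1, hc2⟩ := Finset.mem_filter.1 hc
    exact hy.2 c hc1 hc2
  -- a minimal representation
  obtain ⟨J, hJ, hJmin⟩ := Finset.exists_min_image
    (I.powerset.filter fun J => I₀ ⊆ J ∧ poly J = poly I) (fun J => J.card)
    ⟨I, Finset.mem_filter.2 ⟨Finset.mem_powerset_self I, Finset.filter_subset _ _, rfl⟩⟩
  obtain ⟨hJI, hIJ, hJP⟩ := Finset.mem_filter.1 hJ
  have hJI := Finset.mem_powerset.1 hJI
  have hwact : ∀ c ∈ J, ⟪c.1, w⟫ = c.2 → c ∈ I₀ := fun c hc h =>
    Finset.mem_filter.2 ⟨hJI hc, h⟩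
  -- there is an active constraint at `x` outside `I₀`
  obtain ⟨c, hcJ, hcx, hcI⟩ : ∃ c ∈ J, ⟪c.1, x⟫ = c.2 ∧ c ∉ I₀ := by
    by_contra hcon
    push Not at hcon
    apply hxP
    rw [← hJP]
    ext y
    rw [mem_mface_poly (by rwa [hJP])]
    refine ⟨fun h => h.1, fun h => ⟨h, fun c hc hcx => ?_⟩⟩
    exact htight c (hcon c hc hcx) y (by rwa [← hJP])
  -- minimality gives a point violating only `c`
  obtain ⟨z, hzJ, hzc⟩ : ∃ z, z ∈ poly (J.erase c) ∧ c.2 < ⟪c.1, z⟫ := by
    by_contra hcon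
    push Not at hcon
    have h1 : poly (J.erase c) = poly I := by
      rw [← hJP]
      ext y
      constructor
      · intro hy c' hc'
        by_cases h : c' = c
        · rw [h]; exact hcon y hy
        · exact hy c' (Finset.mem_erase.2 ⟨h, hc'⟩)
      · intro hy c' hc'
        exact hy c' (Finset.mem_of_mem_erase hc')
    have h2 := hJmin (J.erase c) (Finset.mem_filter.2 ⟨Finset.mem_powerset.2
      ((Finset.erase_subset _ _).trans hJI), fun c' hc' => Finset.mem_erase.2
        ⟨fun h => hcI (h ▸ hc'), hIJ hc'⟩, h1⟩)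
    have h3 := Finset.card_erase_lt_of_mem hcJ
    omega
  have hwc : ⟪c.1, w⟫ < c.2 := by
    refine lt_of_le_of_ne (hw c (hJI hcJ)) fun h => hcI (hwact c hcJ h)
  -- the crossing point
  set α := c.2 - ⟪c.1, w⟫ with hα
  set β := ⟪c.1, z⟫ - c.2 with hβ
  have hα0 : 0 < α := by linarith
  have hβ0 : 0 < β := by linarith
  set y := (β / (α + β)) • w + (α / (α + β)) • z with hy
  have hsum : β / (α + β) + α / (α + β) = 1 := by
    rw [← add_div, add_comm β α]; exact div_self (by positivity)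
  have ha : 0 < β / (α + β) := by positivity
  have hb : 0 < α / (α + β) := by positivity
  have hyc : ⟪c.1, y⟫ = c.2 := by
    rw [hy, inner_add_right, inner_smul_right, inner_smul_right]
    have e1 : ⟪c.1, w⟫ = c.2 - α := by rw [hα]; ring
    have e2 : ⟪c.1, z⟫ = c.2 + β := by rw [hβ]; ring
    rw [e1, e2]
    field_simp
    ring
  have hyle : ∀ c' ∈ J, c' ≠ c → ⟪c'.1, y⟫ ≤ c'.2 ∧ (c' ∉ I₀ → ⟪c'.1, y⟫ < c'.2) := by
    intro c' hc' hne
    have h1 : ⟪c'.1, w⟫ ≤ c'.2 := hw c' (hJI hc')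
    have h2 : ⟪c'.1, z⟫ ≤ c'.2 := hzJ c' (Finset.mem_erase.2 ⟨hne, hc'⟩)
    have e : ⟪c'.1, y⟫ = β / (α + β) * ⟪c'.1, w⟫ + α / (α + β) * ⟪c'.1, z⟫ := by
      rw [hy, inner_add_right, inner_smul_right, inner_smul_right]
    have e2 : c'.2 = β / (α + β) * c'.2 + α / (α + β) * c'.2 := by
      rw [← add_mul, hsum, one_mul]
    constructor
    · rw [e, e2]
      exact add_le_add (mul_le_mul_of_nonneg_left h1 ha.le) (mul_le_mul_of_nonneg_left h2 hb.le)
    · intro hcI'
      have h1' : ⟪c'.1, w⟫ < c'.2 := lt_of_le_of_ne h1 fun h => hcI' (hwact c' hc' h)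
      rw [e, e2]
      exact add_lt_add_of_lt_of_le (mul_lt_mul_of_pos_left h1' ha)
        (mul_le_mul_of_nonneg_left h2 hb.le)
  have hyP : y ∈ poly J := by
    intro c' hc'
    by_cases h : c' = c
    · rw [h, hyc]
    · exact (hyle c' hc' h).1
  have hyact : ∀ c' ∈ J, ⟪c'.1, y⟫ = c'.2 → c' = c ∨ c' ∈ I₀ := by
    intro c' hc' h
    by_contra hcon
    push Not at hcon
    exact absurd h ((hyle c' hc' hcon.1).2 hcon.2).ne
  have hyI₀ : ∀ c' ∈ I₀, ⟪c'.1, y⟫ = c'.2 := fun c' hc' => htight c' hc' y (by rwa [← hJP])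
  refine ⟨mface (poly I) y, ⟨y, by rwa [← hJP], rfl⟩, ?_, ?_⟩
  · rw [← hJP, mem_mface_poly hyP]
    refine ⟨by rwa [hJP], fun c' hc' hact => ?_⟩
    rcases hyact c' hc' hact with h | h
    · rw [h, hcx]
    · exact htight c' h x hx
  · have hspan : vectorSpan ℝ (mface (poly I) y) = vectorSpan ℝ (poly I) ⊓ (ℝ ∙ c.1)ᗮ := by
      have hwJ : w ∈ poly J := by rwa [hJP]
      conv_rhs => rw [← hwP]
      rw [← hJP]
      ext v
      rw [Submodule.mem_inf, mem_vectorSpan_mface_poly hyP, mem_vectorSpan_mface_poly hwJ,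
        Submodule.mem_orthogonal_singleton_iff_inner_right]
      constructor
      · intro h
        exact ⟨fun c' hc' hc'w => h c' hc' (hyI₀ c' (hwact c' hc' hc'w)), h c hcJ hyc⟩
      · rintro ⟨h1, h2⟩ c' hc' hact
        rcases hyact c' hc' hact with h | h
        · rw [h, h2]
        · exact h1 c' hc' (Finset.mem_filter.1 h).2
    rw [hspan]
    apply finrank_inf_orth
    intro h
    have h1 := (Submodule.mem_orthogonal' _ _).1 h _ (vsub_mem_vectorSpan ℝ hx hw)
    simp only [vsub_eq_sub, inner_sub_right] at h1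
    linarith

end Pool.Agent.Helper75
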