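import Mathlib
import Pool.Agent.Helper75.Facets

open MeasureTheory Module Set Filter Topology MeasureTheory.Measure
open scoped RealInnerProductSpace ENNReal NNReal

namespace Pool.Agent.Helper75

variable {E : Type*} [NormedAddCommGroup E] [InnerProductSpace ℝ E] [FiniteDimensional ℝ E]
  [MeasurableSpace E] [BorelSpace E]

omit [FiniteDimensional ℝ E] [MeasurableSpace E] [BorelSpace E] in
theorem ball_subset_of_closedBall_subset {P : Set E} (hP : Convex ℝ P) {x p : E} {ρ : ℝ}
    (hball : Metric.closedBall x ρ ⊆ P) (hp : p ∈ P) {s : ℝ} (hs0 : 0 ≤ s) (hs : s ≤ 1 / 2) :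
    Metric.ball (x + s • (p - x)) (ρ / 2) ⊆ P := by
  intro z hz
  rw [Metric.mem_ball, dist_eq_norm] at hz
  have h1 : 0 < 1 - s := by linarith
  have hw : x + (1 - s)⁻¹ • (z - (x + s • (p - x))) ∈ P := by
    apply hball
    rw [Metric.mem_closedBall, dist_eq_norm, add_sub_cancel_left, norm_smul, norm_inv,
      Real.norm_eq_abs, abs_of_pos h1]
    have h2 : (1 - s)⁻¹ ≤ 2 := by
      rw [inv_le_comm₀ h1 two_pos]; linarith
    have h3 : 0 ≤ ‖z - (x + s • (p - x))‖ := norm_nonneg _
    calc _ ≤ 2 * ‖z - (x + s • (p - x))‖ := mul_le_mul_of_nonneg_right h2 h3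
      _ ≤ ρ := by linarith
  have := hP hw hp h1.le hs0 (by ring)
  convert this using 1
  match_scalars <;> field_simp <;> ring

theorem measure_ge_packing {P : Set E} (hP : Convex ℝ P) {x p : E} {ρ : ℝ} (hρ : 0 < ρ)
    (hball : Metric.closedBall x ρ ⊆ P) (hp : p ∈ P) :
    ENNReal.ofReal (‖p - x‖ / (2 * ρ)) * (ENNReal.ofReal ((ρ / 2) ^ finrank ℝ E) *
      volume (Metric.ball (0 : E) 1)) ≤ volume P := by
  set L := ‖p - x‖ with hL
  rcases (norm_nonneg (p - x)).eq_or_lt with h0 | h0
  · rw [hL, ← h0, zero_div, ENNReal.ofReal_zero, zero_mul]; exact zero_le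
  rw [← hL] at h0
  set N := ⌊L / (2 * ρ)⌋₊ + 1 with hN
  let ctr : ℕ → E := fun i => x + ((i : ℝ) * ρ / L) • (p - x)
  have hdist : ∀ i j : ℕ, i < j → ρ / 2 + ρ / 2 ≤ dist (ctr i) (ctr j) := by
    intro i j hij
    have h1 : ctr i - ctr j = (((i : ℝ) - j) * ρ / L) • (p - x) := by
      simp only [ctr]; module
    rw [dist_eq_norm, h1, norm_smul, ← hL, Real.norm_eq_abs, abs_div, abs_of_pos h0,
      div_mul_cancel₀ _ h0.ne', abs_mul, abs_of_pos hρ]
    have h2 : (1 : ℝ) ≤ |(i : ℝ) - j| := by
      rw [abs_sub_comm, abs_of_nonneg]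
      · have : (i : ℝ) + 1 ≤ j := by exact_mod_cast hij
        linarith
      · have : (i : ℝ) ≤ j := by exact_mod_cast hij.le
        linarith
    nlinarith
  have hdisj : ((Finset.range N : Finset ℕ) : Set ℕ).PairwiseDisjoint
      fun i => Metric.ball (ctr i) (ρ / 2) := by
    intro i _ j _ hij
    rcases lt_or_gt_of_ne hij with h | h
    · exact Metric.ball_disjoint_ball (hdist i j h)
    · exact (Metric.ball_disjoint_ball (hdist j i h)).symm
  have hsub : (⋃ i ∈ Finset.range N, Metric.ball (ctr i) (ρ / 2)) ⊆ P := by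
    refine iUnion₂_subset fun i hi => ?_
    apply ball_subset_of_closedBall_subset hP hball hp (by positivity)
    have h1 : i ≤ ⌊L / (2 * ρ)⌋₊ := by
      have := Finset.mem_range.1 hi
      omega
    have h2 : (i : ℝ) ≤ L / (2 * ρ) := (Nat.le_floor_iff (by positivity)).1 h1
    rw [le_div_iff₀ (by positivity)] at h2
    rw [div_le_iff₀ h0]
    linarith
  calc ENNReal.ofReal (L / (2 * ρ)) * (ENNReal.ofReal ((ρ / 2) ^ finrank ℝ E) *
        volume (Metric.ball (0 : E) 1))
      ≤ (N : ℝ≥0∞) * (ENNReal.ofReal ((ρ / 2) ^ finrank ℝ E) *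
        volume (Metric.ball (0 : E) 1)) := by
        refine mul_le_mul_left ?_ _
        rw [← ENNReal.ofReal_natCast]
        apply ENNReal.ofReal_le_ofReal
        rw [hN]
        push_cast
        exact (Nat.lt_floor_add_one _).le
    _ = ∑ i ∈ Finset.range N, volume (Metric.ball (ctr i) (ρ / 2)) := by
        rw [Finset.sum_congr rfl fun i _ => Measure.addHaar_ball_of_pos volume (ctr i)
          (half_pos hρ), Finset.sum_const, Finset.card_range, nsmul_eq_mul]
    _ = volume (⋃ i ∈ Finset.range N, Metric.ball (ctr i) (ρ / 2)) :=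
        (measure_biUnion_finset hdisj fun i _ => Metric.isOpen_ball.measurableSet).symm
    _ ≤ volume P := measure_mono hsub

theorem zeta_top (I : Finset (E × ℝ)) (hI : (interior (poly I)).Nonempty) :
    zeta (finrank ℝ E) (poly I) = volume (poly I) := by
  have hspan : vectorSpan ℝ (poly I) = ⊤ := by
    have h1 : affineSpan ℝ (poly I) = ⊤ := by
      rw [eq_top_iff, ← isOpen_interior.affineSpan_eq_top hI]
      exact affineSpan_mono ℝ interior_subset
    rw [← direction_affineSpan, h1, AffineSubspace.direction_top]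
  obtain ⟨w, hw, hwP⟩ := exists_mface_eq_self I (hI.mono interior_subset)
  have huniq : kfaces (finrank ℝ E) (poly I) = {poly I} := by
    ext F
    rw [mem_singleton_iff]
    constructor
    · rintro ⟨⟨x, hx, rfl⟩, hk⟩
      have h2 : vectorSpan ℝ (mface (poly I) x) = ⊤ := Submodule.eq_top_of_finrank_eq hk
      rw [mface_eq_inter (convex_poly I) hx, h2]
      simp
    · rintro rfl
      exact ⟨⟨w, hw, hwP.symm⟩, by rw [hspan, finrank_top]⟩
  unfold zeta
  rw [huniq, tsum_singleton (poly I) (fun F : Set E => μHE[finrank ℝ E] F),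
    InnerProductSpace.euclideanHausdorffMeasure_eq_volume]

end Pool.Agent.Helper75
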