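import Mathlib
import Pool.Agent.Helper75.Prism
import Pool.Agent.Helper75.Codim

open MeasureTheory Module Set Filter Topology MeasureTheory.Measure
open scoped RealInnerProductSpace ENNReal NNReal

namespace Pool.Agent.Helper75

variable {E : Type*} [NormedAddCommGroup E] [InnerProductSpace ℝ E] [FiniteDimensional ℝ E]
  [MeasurableSpace E] [BorelSpace E]

omit [FiniteDimensional ℝ E] [MeasurableSpace E] [BorelSpace E] in
/-- a point from which a ball of radius `r` does not fit is within `r` of a tight constraint,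
measured orthogonally. -/
theorem exists_tight {I : Finset (E × ℝ)} {x : E} (hx : x ∈ poly I) {r : ℝ}
    (hball : ¬ (Metric.closedBall x r ⊆ poly I)) :
    ∃ c ∈ I, c.1 ≠ 0 ∧ ∃ t ∈ Icc 0 r, x + (t * ‖c.1‖⁻¹) • c.1 ∈ poly I ∧
      ⟪c.1, x + (t * ‖c.1‖⁻¹) • c.1⟫ = c.2 := by
  classical
  let τ : E × ℝ → ℝ := fun c => (c.2 - ⟪c.1, x⟫) / ‖c.1‖
  -- some nonzero constraint has slack at most `r`
  obtain ⟨z, hz, hzP⟩ := not_subset.1 hball
  obtain ⟨c₀, hc₀, hc₀z⟩ : ∃ c ∈ I, c.2 < ⟪c.1, z⟫ := by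
    by_contra hcon
    push Not at hcon
    exact hzP hcon
  have hzx : ‖z - x‖ ≤ r := by rwa [← dist_eq_norm, ← Metric.mem_closedBall]
  have hle : ∀ c : E × ℝ, ∀ y : E, ⟪c.1, y⟫ ≤ ⟪c.1, x⟫ + ‖c.1‖ * ‖y - x‖ := by
    intro c y
    have := real_inner_le_norm c.1 (y - x)
    rw [inner_sub_right] at this
    linarith
  have hc₀0 : c₀.1 ≠ 0 := by
    intro h
    have h1 := hx c₀ hc₀
    rw [h, inner_zero_left] at h1 hc₀z
    linarith
  have hτc₀ : τ c₀ ≤ r := by
    have hn : 0 < ‖c₀.1‖ := norm_pos_iff.2 hc₀0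
    simp only [τ]
    rw [div_le_iff₀ hn]
    have h1 := hle c₀ z
    have h2 : ‖c₀.1‖ * ‖z - x‖ ≤ ‖c₀.1‖ * r := mul_le_mul_of_nonneg_left hzx hn.le
    nlinarith
  obtain ⟨c, hc, hmin⟩ := Finset.exists_min_image (I.filter fun c => c.1 ≠ 0) τ
    ⟨c₀, Finset.mem_filter.2 ⟨hc₀, hc₀0⟩⟩
  obtain ⟨hcI, hc0⟩ := Finset.mem_filter.1 hc
  have hn : 0 < ‖c.1‖ := norm_pos_iff.2 hc0
  have hτ0 : 0 ≤ τ c := div_nonneg (by linarith [hx c hcI]) hn.le
  refine ⟨c, hcI, hc0, τ c, ⟨hτ0, (hmin c₀ (Finset.mem_filter.2 ⟨hc₀, hc₀0⟩)).trans hτc₀⟩, ?_, ?_⟩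
  · intro c' hc'
    by_cases h0 : c'.1 = 0
    · have h1 := hx c' hc'
      rw [h0, inner_zero_left] at h1 ⊢
      exact h1
    · have hn' : 0 < ‖c'.1‖ := norm_pos_iff.2 h0
      have h1 := hmin c' (Finset.mem_filter.2 ⟨hc', h0⟩)
      have h2 := hle c' (x + (τ c * ‖c.1‖⁻¹) • c.1)
      have h3 : ‖x + (τ c * ‖c.1‖⁻¹) • c.1 - x‖ = τ c := by
        rw [add_sub_cancel_left, norm_smul, norm_mul, norm_inv, norm_norm, Real.norm_eq_abs,
          abs_of_nonneg hτ0, mul_assoc, inv_mul_cancel₀ hn.ne', mul_one]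
      rw [h3] at h2
      have h4 : ‖c'.1‖ * τ c ≤ ‖c'.1‖ * τ c' := mul_le_mul_of_nonneg_left h1 hn'.le
      have h5 : ‖c'.1‖ * τ c' = c'.2 - ⟪c'.1, x⟫ := by
        simp only [τ]; field_simp
      linarith
  · rw [inner_add_right, inner_smul_right, real_inner_self_eq_norm_sq]
    simp only [τ]
    field_simp
    ring

/-- the volume is at most twice the surface area times `r` if no ball of radius `r` fits. -/
theorem measure_le_of_no_ball {I : Finset (E × ℝ)} {D : ℝ}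
    (hD : ∀ x ∈ poly I, ∀ y ∈ poly I, ‖x - y‖ ≤ D) {r : ℝ}
    (hball : ∀ x, ¬ (Metric.closedBall x r ⊆ poly I)) :
    μHE[finrank ℝ E] (poly I) ≤ ENNReal.ofReal (2 * r) * zeta (finrank ℝ E - 1) (poly I) := by
  classical
  set d := finrank ℝ E with hd
  have hcpt : IsCompact (poly I) := Metric.isCompact_of_isClosed_isBounded (isClosed_poly I)
    (isBounded_of_norm_sub_le hD)
  -- the exposed set of a constraint
  let Fc : E × ℝ → Set E := fun c => poly I ∩ hyp c.1 c.2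
  have hFc_cpt : ∀ c, IsCompact (Fc c) := fun c => hcpt.inter_right (isClosed_hyp _ _)
  have hFc_face : ∀ c ∈ I, (Fc c).Nonempty → Fc c ∈ faces (poly I) := by
    intro c hc hne
    apply exposed_mem_faces (a := c.1) _ hne
    obtain ⟨y₀, hy₀, hy₀c⟩ := hne
    ext x
    constructor
    · rintro ⟨hx, hxc⟩
      refine ⟨hx, fun y hy => ?_⟩
      rw [mem_hyp.1 hxc]; exact hy c hc
    · rintro ⟨hx, hxc⟩
      refine ⟨hx, le_antisymm (hx c hc) ?_⟩
      rw [← mem_hyp.1 hy₀c]; exact hxc y₀ hy₀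
  have hFc_orth : ∀ c, c.1 ∈ (vectorSpan ℝ (Fc c))ᗮ := by
    intro c
    rw [Submodule.mem_orthogonal']
    intro v hv
    have hle : vectorSpan ℝ (Fc c) ≤ (ℝ ∙ c.1)ᗮ := by
      rw [vectorSpan_def, Submodule.span_le]
      rintro _ ⟨y, hy, z, hz, rfl⟩
      rw [SetLike.mem_coe, Submodule.mem_orthogonal_singleton_iff_inner_right]
      simp only [vsub_eq_sub, inner_sub_right]
      rw [mem_hyp.1 hy.2, mem_hyp.1 hz.2, sub_self]
    exact Submodule.mem_orthogonal_singleton_iff_inner_right.1 (hle hv)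
  have hFc_fr : ∀ c : E × ℝ, c.1 ≠ 0 → finrank ℝ (vectorSpan ℝ (Fc c)) ≤ d - 1 := by
    intro c hc0
    have h1 : vectorSpan ℝ (Fc c) ≤ (ℝ ∙ c.1)ᗮ := by
      intro v hv
      rw [Submodule.mem_orthogonal_singleton_iff_inner_right]
      exact (Submodule.mem_orthogonal' _ _).1 (hFc_orth c) v hv
    have h2 := Submodule.finrank_mono h1
    rwa [finrank_orth_singleton hc0] at h2
  -- a unit normal of each facet
  have hnormal : ∀ F : kfaces (d - 1) (poly I), ∃ ν : E, (0 < d → ‖ν‖ = 1) ∧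
      ν ∈ (vectorSpan ℝ (F : Set E))ᗮ := by
    intro F
    rcases Nat.eq_zero_or_pos d with h0 | h0
    · exact ⟨0, fun h => absurd h (by omega), Submodule.zero_mem _⟩
    · have h1 := (vectorSpan ℝ (F : Set E)).finrank_add_finrank_orthogonal
      rw [F.2.2] at h1
      have h2 : (vectorSpan ℝ (F : Set E))ᗮ ≠ ⊥ := by
        intro h
        rw [h, finrank_bot] at h1
        omega
      obtain ⟨ν, hν, hν0⟩ := Submodule.exists_mem_ne_zero_of_ne_bot h2
      exact ⟨‖ν‖⁻¹ • ν, fun _ => norm_smul_inv_norm hν0, Submodule.smul_mem _ _ hν⟩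
  choose ν hν1 hνF using hnormal
  -- the case of dimension zero is excluded by a ball
  have hcov : poly I ⊆ (⋃ F : kfaces (d - 1) (poly I), prism (F : Set E) (ν F) (-r) r) ∪
      ⋃ c ∈ I.filter (fun c => c.1 ≠ 0 ∧ finrank ℝ (vectorSpan ℝ (Fc c)) < d - 1),
        prism (Fc c) (‖c.1‖⁻¹ • c.1) (-r) r := by
    intro x hx
    obtain ⟨c, hc, hc0, t, ht, hy, hyc⟩ := exists_tight hx (hball x)
    have hn : 0 < ‖c.1‖ := norm_pos_iff.2 hc0
    set y := x + (t * ‖c.1‖⁻¹) • c.1 with hydef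
    have hyF : y ∈ Fc c := ⟨hy, hyc⟩
    have hdpos : 0 < d := by
      rw [hd]
      have : Nontrivial E := ⟨⟨c.1, 0, hc0⟩⟩
      exact finrank_pos
    rcases (hFc_fr c hc0).eq_or_lt with heq | hlt
    · left
      let F : kfaces (d - 1) (poly I) := ⟨Fc c, hFc_face c hc ⟨y, hyF⟩, heq⟩
      rw [mem_iUnion]
      refine ⟨F, ?_⟩
      -- the normals agree up to sign
      have hone : finrank ℝ (vectorSpan ℝ (F : Set E))ᗮ = 1 := by
        have h1 := (vectorSpan ℝ (F : Set E)).finrank_add_finrank_orthogonal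
        rw [F.2.2] at h1
        omega
      obtain ⟨s, hs⟩ : ∃ s : ℝ, s • ν F = c.1 := by
        have hνne : (⟨ν F, hνF F⟩ : (vectorSpan ℝ (F : Set E))ᗮ) ≠ 0 := by
          intro h
          have h1 : ν F = 0 := congrArg Subtype.val h
          have h2 := hν1 F hdpos
          rw [h1, norm_zero] at h2
          exact zero_ne_one h2
        obtain ⟨s, hs⟩ := exists_smul_eq_of_finrank_eq_one hone hνne
          ⟨c.1, hFc_orth c⟩
        exact ⟨s, congrArg Subtype.val hs⟩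
      have hsabs : |s| = ‖c.1‖ := by
        rw [← hs, norm_smul, hν1 F hdpos, mul_one, Real.norm_eq_abs]
      rw [mem_prism]
      refine ⟨y, hyF, -(t * ‖c.1‖⁻¹ * s), ?_, ?_⟩
      · have h1 : |-(t * ‖c.1‖⁻¹ * s)| ≤ r := by
          rw [abs_neg, abs_mul, hsabs, abs_mul, abs_inv, abs_norm, mul_assoc,
            inv_mul_cancel₀ hn.ne', mul_one, abs_of_nonneg ht.1]
          exact ht.2
        exact abs_le.1 h1
      · rw [hydef, ← hs]
        module
    · right
      simp only [mem_iUnion]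
      refine ⟨c, Finset.mem_filter.2 ⟨hc, hc0, hlt⟩, ?_⟩
      rw [mem_prism]
      refine ⟨y, hyF, -t, ⟨by linarith [ht.2], by linarith [ht.1, ht.2]⟩, ?_⟩
      rw [hydef]
      module
  have hcount : Countable (kfaces (d - 1) (poly I)) := (finite_kfaces_poly (d - 1) I).countable
  have hsubF : ∀ F : kfaces (d - 1) (poly I), (F : Set E) ⊆ poly I := by
    rintro ⟨F, ⟨x, hx, rfl⟩, _⟩
    exact mface_subset _ _
  have hFcpt : ∀ F : kfaces (d - 1) (poly I), IsCompact (F : Set E) := by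
    rintro ⟨F, ⟨x, hx, rfl⟩, hk⟩
    exact hcpt.of_isClosed_subset (isClosed_mface (convex_poly I) (isClosed_poly I) hx)
      (mface_subset _ _)
  refine (measure_mono hcov).trans ((measure_union_le _ _).trans ?_)
  have hz : μHE[d] (⋃ c ∈ I.filter (fun c => c.1 ≠ 0 ∧
      finrank ℝ (vectorSpan ℝ (Fc c)) < d - 1), prism (Fc c) (‖c.1‖⁻¹ • c.1) (-r) r) = 0 := by
    refine le_antisymm ((measure_biUnion_finset_le _ _).trans (le_of_eq ?_)) zero_le
    apply Finset.sum_eq_zero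
    intro c hc
    obtain ⟨_, hc0, hlt⟩ := Finset.mem_filter.1 hc
    have h1 : ∀ y ∈ Fc c, ⟪‖c.1‖⁻¹ • c.1, y⟫ = ‖c.1‖⁻¹ * c.2 := by
      intro y hy
      rw [inner_smul_left, mem_hyp.1 hy.2]; simp
    have hu : ‖‖c.1‖⁻¹ • c.1‖ = 1 := norm_smul_inv_norm hc0
    rw [hd, measure_prism (hFc_cpt c) hu h1, ← hd,
      measure_flat_eq_zero rfl hlt (fun x hx y hy => hD x hx.1 y hy.1), mul_zero]
  rw [hz, add_zero]
  refine (measure_iUnion_le _).trans ?_
  unfold zeta
  rw [← ENNReal.tsum_mul_left]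
  refine ENNReal.tsum_le_tsum fun F => ?_
  rcases Nat.eq_zero_or_pos d with h0 | h0
  · -- dimension zero: every ball is contained
    exfalso
    obtain ⟨⟨x, hx, _⟩, _⟩ := F.2
    apply hball x
    intro y _
    have : Subsingleton E := finrank_zero_iff.1 (hd ▸ h0)
    rw [Subsingleton.elim y x]
    exact hx
  · obtain ⟨x, hx⟩ : (F : Set E).Nonempty := by
      obtain ⟨⟨x, hx, h⟩, _⟩ := F.2
      rw [h]; exact ⟨x, self_mem_mface hx⟩
    have h1 : ∀ y ∈ (F : Set E), ⟪ν F, y⟫ = ⟪ν F, x⟫ := by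
      intro y hy
      have := (Submodule.mem_orthogonal' _ _).1 (hνF F) _ (vsub_mem_vectorSpan ℝ hy hx)
      simp only [vsub_eq_sub, inner_sub_right] at this
      linarith
    rw [measure_prism (hFcpt F) (hν1 F h0) h1]
    have : r - -r = 2 * r := by ring
    rw [this]

end Pool.Agent.Helper75
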