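import Mathlib
import Pool.Agent.Helper75.Inradius
import Pool.Agent.Helper75.Surface

open MeasureTheory Module Set Filter Topology MeasureTheory.Measure
open scoped RealInnerProductSpace ENNReal NNReal

namespace Pool.Agent.Helper75

variable {E : Type*} [NormedAddCommGroup E] [InnerProductSpace ℝ E] [FiniteDimensional ℝ E]
  [MeasurableSpace E] [BorelSpace E]

/-- the diameter is controlled by the volume and the surface area. -/
theorem diam_bound {I : Finset (E × ℝ)} {D : ℝ} (hD : ∀ x ∈ poly I, ∀ y ∈ poly I, ‖x - y‖ ≤ D)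
    (hI : (interior (poly I)).Nonempty) {m : ℕ} (hm : finrank ℝ E = m + 2)
    {y z : E} (hy : y ∈ poly I) (hz : z ∈ poly I) :
    ‖y - z‖ * (volume (poly I)).toReal ^ m * (volume (Metric.ball (0 : E) 1)).toReal ≤
      2 ^ (m + 4) * 4 ^ (m + 1) * (zeta (m + 1) (poly I)).toReal ^ (m + 1) := by
  have hcpt : IsCompact (poly I) := Metric.isCompact_of_isClosed_isBounded (isClosed_poly I)
    (isBounded_of_norm_sub_le hD)
  have hVtop : volume (poly I) ≠ ⊤ := hcpt.measure_lt_top.ne
  have hV0 : volume (poly I) ≠ 0 := by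
    have h1 : 0 < volume (interior (poly I)) := isOpen_interior.measure_pos _ hI
    exact (h1.trans_le (measure_mono interior_subset)).ne'
  have hStop : zeta (m + 1) (poly I) ≠ ⊤ := (zeta_lt_top I (m + 1) hD).ne
  have hκtop : volume (Metric.ball (0 : E) 1) ≠ ⊤ := Metric.isBounded_ball.measure_lt_top.ne
  have hκ0 : 0 < (volume (Metric.ball (0 : E) 1)).toReal :=
    ENNReal.toReal_pos (Metric.measure_ball_pos _ _ one_pos).ne' hκtop
  set V := (volume (poly I)).toReal with hV
  set S := (zeta (m + 1) (poly I)).toReal with hS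
  set κ := (volume (Metric.ball (0 : E) 1)).toReal with hκ
  have hVpos : 0 < V := ENNReal.toReal_pos hV0 hVtop
  have hnoball : ∀ r : ℝ, 0 ≤ r → (∀ x, ¬ (Metric.closedBall x r ⊆ poly I)) →
      V ≤ 2 * r * S := by
    intro r hr h
    have h1 := measure_le_of_no_ball hD h
    rw [InnerProductSpace.euclideanHausdorffMeasure_eq_volume, hm,
      show m + 2 - 1 = m + 1 by omega] at h1
    have h2 := ENNReal.toReal_mono (ENNReal.mul_ne_top ENNReal.ofReal_ne_top hStop) h1
    rwa [ENNReal.toReal_mul, ENNReal.toReal_ofReal (by positivity)] at h2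
  have hD0 : 0 ≤ D := (norm_nonneg _).trans (hD y hy y hy)
  have hSpos : 0 < S := by
    by_contra hcon
    have hS0 : S = 0 := le_antisymm (not_lt.1 hcon) ENNReal.toReal_nonneg
    have h1 := hnoball (D + 1) (by linarith) (by
      intro x hx
      have : Nontrivial E := by
        apply Module.nontrivial_of_finrank_pos (R := ℝ)
        omega
      obtain ⟨v, hv⟩ := exists_norm_eq E (c := D + 1) (by linarith)
      have h2 : x + v ∈ poly I := hx (by simp [hv])
      have h3 : x ∈ poly I := hx (Metric.mem_closedBall_self (by linarith))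
      have h4 := hD _ h2 _ h3
      rw [add_sub_cancel_left, hv] at h4
      linarith)
    rw [hS0, mul_zero] at h1
    linarith
  set ρ := V / (4 * S) with hρ
  have hρ0 : 0 < ρ := by positivity
  obtain ⟨x, hx⟩ : ∃ x, Metric.closedBall x ρ ⊆ poly I := by
    by_contra hcon
    push Not at hcon
    have h1 := hnoball ρ hρ0.le hcon
    have h2 : 2 * ρ * S = V / 2 := by rw [hρ]; field_simp; ring
    linarith
  have hp : ∀ p ∈ poly I, ‖p - x‖ * V ^ m * κ ≤ 2 ^ (m + 3) * 4 ^ (m + 1) * S ^ (m + 1) := by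
    intro p hp
    have h1 := measure_ge_packing (convex_poly I) hρ0 hx hp
    have h2 := ENNReal.toReal_mono hVtop h1
    rw [ENNReal.toReal_mul, ENNReal.toReal_mul, ENNReal.toReal_ofReal (by positivity),
      ENNReal.toReal_ofReal (by positivity), ← hκ, ← hV, hm] at h2
    -- `‖p - x‖ / (2ρ) * ((ρ/2)^(m+2) * κ) ≤ V`
    have h3 : ‖p - x‖ / (2 * ρ) * ((ρ / 2) ^ (m + 2) * κ) =
        ‖p - x‖ * V ^ (m + 1) * κ / (2 ^ (m + 3) * 4 ^ (m + 1) * S ^ (m + 1)) := by
      rw [hρ, div_pow, div_pow, mul_pow]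
      field_simp
      ring
    rw [h3, div_le_iff₀ (by positivity)] at h2
    have h4 : ‖p - x‖ * V ^ m * κ * V ≤ (2 ^ (m + 3) * 4 ^ (m + 1) * S ^ (m + 1)) * V := by
      calc _ = ‖p - x‖ * V ^ (m + 1) * κ := by ring
        _ ≤ _ := h2
        _ = _ := by ring
    exact le_of_mul_le_mul_right h4 hVpos
  have h5 : ‖y - z‖ ≤ ‖y - x‖ + ‖z - x‖ := by
    have : y - z = (y - x) - (z - x) := by abel
    rw [this]; exact norm_sub_le _ _
  have h6 := hp y hy
  have h7 := hp z hz
  calc ‖y - z‖ * V ^ m * κ ≤ (‖y - x‖ + ‖z - x‖) * V ^ m * κ := by gcongr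
    _ = ‖y - x‖ * V ^ m * κ + ‖z - x‖ * V ^ m * κ := by ring
    _ ≤ 2 ^ (m + 3) * 4 ^ (m + 1) * S ^ (m + 1) + 2 ^ (m + 3) * 4 ^ (m + 1) * S ^ (m + 1) :=
      add_le_add h6 h7
    _ = _ := by ring

end Pool.Agent.Helper75
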