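import Mathlib
import Pool.Agent.Helper75.Box
import Pool.Agent.Helper75.Diam

open MeasureTheory Module Set Filter Topology MeasureTheory.Measure
open scoped RealInnerProductSpace ENNReal NNReal

namespace Pool.Agent.Helper75

section near

variable {E : Type*} [NormedAddCommGroup E] [InnerProductSpace ℝ E] [FiniteDimensional ℝ E]

omit [FiniteDimensional ℝ E] in
/-- if a ball of radius `r` is within `δ < r` of a closed convex set, its centre is in the set. -/
theorem mem_of_ball_near {A : Set E} (hA : Convex ℝ A) (hcl : IsClosed A) {x : E} {r δ : ℝ}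
    (hr : 0 < r) (hδ : δ < r) (h : ∀ y, ‖y - x‖ ≤ r → ∃ a ∈ A, ‖y - a‖ ≤ δ) : x ∈ A := by
  by_contra hx
  obtain ⟨f, s, hs1, hs2⟩ := geometric_hahn_banach_closed_point hA hcl hx
  have hf0 : f ≠ 0 := by
    intro h0
    obtain ⟨a, ha, _⟩ := h x (by simpa using hr.le)
    have := (hs1 a ha).trans hs2
    rw [h0] at this
    simp at this
  have hfn : 0 < ‖f‖ := norm_pos_iff.2 hf0
  have key : ∀ η : ℝ, 0 < η → η < 1 → r * (‖f‖ * η) ≤ δ * ‖f‖ := by
    intro η hη hη1
    -- a unit vector almost attaining the norm of `f`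
    obtain ⟨u, hu1, hu2⟩ : ∃ u : E, ‖u‖ ≤ 1 ∧ ‖f‖ * η < f u := by
      obtain ⟨u, hu, hfu⟩ := f.exists_lt_apply_of_lt_opNorm (r := ‖f‖ * η) (by nlinarith)
      rcases le_total 0 (f u) with h0 | h0
      · refine ⟨u, hu.le, ?_⟩
        rwa [Real.norm_eq_abs, abs_of_nonneg h0] at hfu
      · refine ⟨-u, by rw [norm_neg]; exact hu.le, ?_⟩
        rw [Real.norm_eq_abs, abs_of_nonpos h0] at hfu
        rwa [map_neg]
    obtain ⟨a, ha, hya⟩ := h (x + r • u) (by
      rw [add_sub_cancel_left, norm_smul, Real.norm_eq_abs, abs_of_pos hr]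
      nlinarith)
    have h1 : f (x + r • u - a) ≤ ‖f‖ * δ := by
      refine (le_abs_self _).trans ((f.le_opNorm _).trans ?_)
      exact mul_le_mul_of_nonneg_left hya hfn.le
    rw [map_sub, map_add, map_smul, smul_eq_mul] at h1
    have h2 := (hs1 a ha).trans hs2
    have h3 : r * (‖f‖ * η) ≤ r * f u := mul_le_mul_of_nonneg_left hu2.le hr.le
    linarith
  have h1 : r * ‖f‖ ≤ δ * ‖f‖ := by
    apply le_of_forall_pos_le_add
    intro e he
    have hη : ∃ η : ℝ, 0 < η ∧ η < 1 ∧ r * ‖f‖ * (1 - η) ≤ e := by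
      have hc : 0 < r * ‖f‖ := by positivity
      refine ⟨1 - min (1 / 2) (e / (r * ‖f‖)), ?_, ?_, ?_⟩
      · have := min_le_left (1 / 2 : ℝ) (e / (r * ‖f‖)); linarith
      · have : 0 < min (1 / 2 : ℝ) (e / (r * ‖f‖)) := lt_min (by norm_num) (by positivity)
        linarith
      · rw [sub_sub_cancel]
        calc r * ‖f‖ * min (1 / 2) (e / (r * ‖f‖)) ≤ r * ‖f‖ * (e / (r * ‖f‖)) :=
              mul_le_mul_of_nonneg_left (min_le_right _ _) hc.le
          _ = e := by field_simp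
    obtain ⟨η, hη0, hη1, hη2⟩ := hη
    have := key η hη0 hη1
    nlinarith
  exact absurd (le_of_mul_le_mul_right h1 hfn) (not_le.2 hδ)

end near

/-- polytopes near a box have contents bounded below. -/
theorem zeta_ge_of_near_box {k d : ℕ} (σ : Fin k ↪ Fin d) {ℓ : Fin d → ℝ} (hℓ0 : ∀ i, 0 ≤ ℓ i)
    (hσ : ∀ i, ℓ (σ i) = 1) {I : Finset (EuclideanSpace ℝ (Fin d) × ℝ)} {D : ℝ}
    (hD : ∀ x ∈ poly I, ∀ y ∈ poly I, ‖x - y‖ ≤ D)
    (hnear : ∀ x ∈ poly (boxI ℓ), ∃ a ∈ poly I, ‖x - a‖ ≤ 1 / 8) :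
    ENNReal.ofReal ((1 / 2) ^ k) ≤ zeta k (poly I) := by
  classical
  have h1 := measure_shadow_le hD (coordMap σ) (lipschitz_coordMap σ)
  rw [finrank_euclideanSpace, Fintype.card_fin] at h1
  refine le_trans ?_ h1
  have hcpt : IsCompact (poly I) := Metric.isCompact_of_isClosed_isBounded (isClosed_poly I)
    (isBounded_of_norm_sub_le hD)
  have hconv : Convex ℝ (coordMap σ '' poly I) := (convex_poly I).linear_image _
  have hcl : IsClosed (coordMap σ '' poly I) :=
    (hcpt.image (lipschitz_coordMap σ).continuous).isClosed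
  have hsub : {x : EuclideanSpace ℝ (Fin k) | ∀ i, (fun _ => (1 / 4 : ℝ)) i ≤ x i ∧
      x i ≤ (fun _ => (3 / 4 : ℝ)) i} ⊆ coordMap σ '' poly I := by
    intro x hx
    apply mem_of_ball_near hconv hcl (r := 1 / 4) (δ := 1 / 8) (by norm_num) (by norm_num)
    intro y hy
    have hyi : ∀ i, 0 ≤ y i ∧ y i ≤ 1 := by
      intro i
      have h2 : |y i - x i| ≤ 1 / 4 := by
        have := PiLp.norm_apply_le (y - x) i
        rw [PiLp.sub_apply, Real.norm_eq_abs] at this
        exact this.trans hy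
      have h3 := abs_le.1 h2
      have h4 := hx i
      simp only at h4
      constructor <;> linarith
    -- lift `y` to the box
    set z : EuclideanSpace ℝ (Fin d) :=
      WithLp.toLp 2 fun j => if h : ∃ i, σ i = j then y h.choose else 0 with hz
    have hzbox : z ∈ poly (boxI ℓ) := by
      rw [mem_box]
      intro j
      simp only [hz]
      split_ifs with h
      · have := hyi h.choose
        have h5 := hσ h.choose
        rw [h.choose_spec] at h5
        rw [h5]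
        exact this
      · exact ⟨le_rfl, hℓ0 j⟩
    have hzy : coordMap σ z = y := by
      ext i
      rw [coordMap_apply]
      have h : ∃ i', σ i' = σ i := ⟨i, rfl⟩
      show (if h : ∃ i', σ i' = σ i then y h.choose else 0) = y i
      rw [dif_pos h]
      exact congrArg (fun j => y j) (σ.injective h.choose_spec)
    obtain ⟨a, ha, hza⟩ := hnear z hzbox
    refine ⟨coordMap σ a, ⟨a, ha, rfl⟩, ?_⟩
    rw [← hzy, ← map_sub]
    exact (norm_coordMap_le σ _).trans hza
  refine le_trans ?_ (measure_mono hsub)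
  rw [volume_box', ← ENNReal.ofReal_prod_of_nonneg]
  · apply ENNReal.ofReal_le_ofReal
    simp only [Finset.prod_const, Finset.card_univ, Fintype.card_fin]
    norm_num
  · intro i _
    norm_num

/-- the diameter bound in the form used below. -/
theorem diam_le_of_bounds {m : ℕ} {I : Finset (EuclideanSpace ℝ (Fin (m + 4)) × ℝ)}
    (hbd : Bornology.IsBounded (poly I)) (hint : (interior (poly I)).Nonempty) {t c σ : ℝ}
    (ht : 0 < t) (hc : 0 < c)
    (hV : (c * t) ^ (m + 4) ≤ (zeta (m + 4) (poly I)).toReal)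
    (hS : (zeta (m + 3) (poly I)).toReal ≤ (t * σ) ^ (m + 3)) :
    ∀ y ∈ poly I, ∀ z ∈ poly I, ‖y - z‖ ≤
      2 ^ (m + 6) * 4 ^ (m + 3) * σ ^ ((m + 3) * (m + 3)) /
        (c ^ ((m + 4) * (m + 2)) *
          (volume (Metric.ball (0 : EuclideanSpace ℝ (Fin (m + 4))) 1)).toReal) * t := by
  obtain ⟨D₀, hD₀⟩ : ∃ D₀ : ℝ, ∀ x ∈ poly I, ∀ y ∈ poly I, ‖x - y‖ ≤ D₀ := by
    obtain ⟨C, hC⟩ := Metric.isBounded_iff.1 hbd
    exact ⟨C, fun x hx y hy => by rw [← dist_eq_norm]; exact hC hx hy⟩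
  have hfr : finrank ℝ (EuclideanSpace ℝ (Fin (m + 4))) = m + 4 := by
    rw [finrank_euclideanSpace, Fintype.card_fin]
  set κ := (volume (Metric.ball (0 : EuclideanSpace ℝ (Fin (m + 4))) 1)).toReal with hκ
  have hκ0 : 0 < κ :=
    ENNReal.toReal_pos (Metric.measure_ball_pos _ _ one_pos).ne'
      Metric.isBounded_ball.measure_lt_top.ne
  have h4 := zeta_top I hint
  rw [hfr] at h4
  rw [h4] at hV
  intro y hy z hz
  have h5 := diam_bound hD₀ hint (m := m + 2) (by rw [hfr]) hy hz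
  rw [← hκ] at h5
  have h6 : ‖y - z‖ * ((c * t) ^ (m + 4)) ^ (m + 2) * κ ≤
      2 ^ (m + 6) * 4 ^ (m + 3) * ((t * σ) ^ (m + 3)) ^ (m + 3) := by
    calc ‖y - z‖ * ((c * t) ^ (m + 4)) ^ (m + 2) * κ
        ≤ ‖y - z‖ * (volume (poly I)).toReal ^ (m + 2) * κ := by gcongr
      _ ≤ 2 ^ (m + 2 + 4) * 4 ^ (m + 2 + 1) * (zeta (m + 2 + 1) (poly I)).toReal ^ (m + 2 + 1) := h5
      _ ≤ 2 ^ (m + 6) * 4 ^ (m + 3) * ((t * σ) ^ (m + 3)) ^ (m + 3) := by
        have e : m + 2 + 1 = m + 3 := by omega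
        rw [e, show m + 2 + 4 = m + 6 by omega]
        gcongr
  have e1 : ((t * σ) ^ (m + 3)) ^ (m + 3) = σ ^ ((m + 3) * (m + 3)) * (t * (t ^ (m + 4)) ^ (m + 2)) := by
    rw [← pow_mul, mul_pow, ← pow_mul, ← pow_succ', mul_comm]
    congr 2
    ring
  have e2 : ((c * t) ^ (m + 4)) ^ (m + 2) = c ^ ((m + 4) * (m + 2)) * (t ^ (m + 4)) ^ (m + 2) := by
    rw [mul_pow, mul_pow, ← pow_mul]
  rw [e1, e2] at h6
  have hpos : 0 < (t ^ (m + 4)) ^ (m + 2) := by positivity
  have hpos2 : 0 < c ^ ((m + 4) * (m + 2)) * κ := by positivity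
  rw [div_mul_eq_mul_div, le_div_iff₀ hpos2]
  have h7 : ‖y - z‖ * (c ^ ((m + 4) * (m + 2)) * κ) * (t ^ (m + 4)) ^ (m + 2) ≤
      2 ^ (m + 6) * 4 ^ (m + 3) * σ ^ ((m + 3) * (m + 3)) * t * (t ^ (m + 4)) ^ (m + 2) := by
    calc _ = ‖y - z‖ * (c ^ ((m + 4) * (m + 2)) * (t ^ (m + 4)) ^ (m + 2)) * κ := by ring
      _ ≤ _ := h6
      _ = _ := by ring
  exact le_of_mul_le_mul_right h7 hpos

theorem vectorSpan_eq_top_of_interior {E : Type*} [NormedAddCommGroup E] [InnerProductSpace ℝ E]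
    {P : Set E} (hint : (interior P).Nonempty) : vectorSpan ℝ P = ⊤ := by
  have h5 : affineSpan ℝ P = ⊤ := by
    rw [eq_top_iff, ← isOpen_interior.affineSpan_eq_top hint]
    exact affineSpan_mono ℝ interior_subset
  rw [← direction_affineSpan, h5, AffineSubspace.direction_top]

end Pool.Agent.Helper75
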