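import Mathlib
import Pool.Agent.Helper75.Box
import Pool.Agent.Helper75.Diam

open MeasureTheory Module Set Filter Topology MeasureTheory.Measure
open scoped RealInnerProductSpace ENNReal NNReal

namespace Pool.Agent.Helper75

/-- the `k`-th coordinate of the vector of contents. -/
noncomputable def X {d : ℕ} (k : ℕ) (P : Set (EuclideanSpace ℝ (Fin d))) : ℝ :=
  (zeta k P).toReal ^ ((k : ℝ)⁻¹)

theorem X_nonneg {d : ℕ} (k : ℕ) (P : Set (EuclideanSpace ℝ (Fin d))) : 0 ≤ X k P :=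
  Real.rpow_nonneg ENNReal.toReal_nonneg _

theorem X_pow {d k : ℕ} (hk : k ≠ 0) (P : Set (EuclideanSpace ℝ (Fin d))) :
    X k P ^ k = (zeta k P).toReal :=
  Real.rpow_inv_natCast_pow ENNReal.toReal_nonneg hk

theorem X_le_of_toReal_le {d k : ℕ} (hk : k ≠ 0) {P : Set (EuclideanSpace ℝ (Fin d))} {a : ℝ}
    (ha : 0 ≤ a) (h : (zeta k P).toReal ≤ a ^ k) : X k P ≤ a := by
  rw [← X_pow hk] at h
  exact (pow_le_pow_iff_left₀ (X_nonneg k P) ha hk).1 h

theorem le_X_of_le_toReal {d k : ℕ} (hk : k ≠ 0) {P : Set (EuclideanSpace ℝ (Fin d))} {a : ℝ}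
    (ha : 0 ≤ a) (h : a ^ k ≤ (zeta k P).toReal) : a ≤ X k P := by
  rw [← X_pow hk] at h
  exact (pow_le_pow_iff_left₀ ha (X_nonneg k P) hk).1 h

theorem cst_ne_top (E : Type*) [NormedAddCommGroup E] [InnerProductSpace ℝ E] (j : ℕ) :
    cst E j ≠ ⊤ := by
  unfold cst
  exact ENNReal.mul_ne_top (ENNReal.mul_ne_top (by simp) (by finiteness)) (by finiteness)

theorem no_combination (m : ℕ) : ∃ t ε : ℝ, 0 < t ∧ t < 1 ∧ 0 < ε ∧ ε ≤ 1 ∧
    ∀ I : Finset (EuclideanSpace ℝ (Fin (m + 4)) × ℝ), Bornology.IsBounded (poly I) →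
      (interior (poly I)).Nonempty →
      ¬ (∀ k : ℕ, m + 1 ≤ k → k ≤ m + 4 → X k (poly I) =
        (1 - t) * X k (poly (boxI (thin m ε))) + t * X k (poly (boxI fun _ : Fin (m + 4) => 1))) := by
  -- the cube
  set Q := poly (boxI fun _ : Fin (m + 4) => (1 : ℝ)) with hQ
  set b1 := X (m + 1) Q with hb1
  set s := X (m + 3) Q with hs
  have hb10 : 0 ≤ b1 := X_nonneg _ _
  have hs0 : 0 ≤ s := X_nonneg _ _
  have hfr : finrank ℝ (EuclideanSpace ℝ (Fin (m + 4))) = m + 4 := by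
    rw [finrank_euclideanSpace, Fintype.card_fin]
  have hQ4 : X (m + 4) Q = 1 := by
    have h1 := zeta_top (boxI fun _ : Fin (m + 4) => (1 : ℝ))
      (interior_box_nonempty fun _ => one_pos)
    rw [hfr, volume_box] at h1
    unfold X
    rw [h1]
    simp
  -- the bound for the thin boxes
  obtain ⟨a1, ha10, ha1⟩ : ∃ a1 : ℝ, 0 ≤ a1 ∧ ∀ ε : ℝ, 0 < ε → ε ≤ 1 →
      X (m + 1) (poly (boxI (thin m ε))) ≤ a1 := by
    set M : ℝ≥0∞ := 2 ^ (2 * (m + 4)) * (ENNReal.ofReal (((m + 4 : ℕ) : ℝ) ^ (m + 1)) * kap (m + 1))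
      with hM
    have hMtop : M ≠ ⊤ := ENNReal.mul_ne_top (by finiteness)
      (ENNReal.mul_ne_top ENNReal.ofReal_ne_top (kap_ne_top _))
    refine ⟨M.toReal ^ (((m + 1 : ℕ) : ℝ)⁻¹), Real.rpow_nonneg ENNReal.toReal_nonneg _, ?_⟩
    intro ε hε hε1
    apply Real.rpow_le_rpow ENNReal.toReal_nonneg _ (by positivity)
    apply ENNReal.toReal_mono hMtop
    refine (zeta_le_crude _ _ (box_diam (thin_le hε1))).trans ?_
    rw [hM]
    refine mul_le_mul_left ?_ _
    exact pow_le_pow_right₀ (by norm_num) (card_boxI_le _)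
  set κ := (volume (Metric.ball (0 : EuclideanSpace ℝ (Fin (m + 4))) 1)).toReal with hκ
  have hκ0 : 0 < κ :=
    ENNReal.toReal_pos (Metric.measure_ball_pos _ _ one_pos).ne'
      Metric.isBounded_ball.measure_lt_top.ne
  set c := (cst (EuclideanSpace ℝ (Fin (m + 4))) (m + 1)).toReal with hc
  have hc0 : 0 ≤ c := ENNReal.toReal_nonneg
  set G := (a1 + b1) ^ (m + 1) with hG
  have hG0 : 0 ≤ G := by positivity
  set K := 2 ^ (m + 6) * 4 ^ (m + 3) * (1 + s) ^ ((m + 3) * (m + 3)) / κ with hK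
  have hK0 : 0 ≤ K := by positivity
  have hcKG : 0 ≤ c * K * G := by positivity
  -- the choice of `t`
  set t := min (1 / 2 : ℝ) ((1 / 2) ^ (m + 3) / (c * K * G + 1)) with ht
  have ht0 : 0 < t := lt_min (by norm_num) (by positivity)
  have ht2 : t ≤ 1 / 2 := min_le_left _ _
  have htc : c * K * G * t < (1 / 2) ^ (m + 2) := by
    have h1 : t ≤ (1 / 2) ^ (m + 3) / (c * K * G + 1) := min_le_right _ _
    have h2 : c * K * G * t ≤ (1 / 2) ^ (m + 3) := by
      calc c * K * G * t ≤ c * K * G * ((1 / 2) ^ (m + 3) / (c * K * G + 1)) :=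
            mul_le_mul_of_nonneg_left h1 hcKG
        _ = (1 / 2) ^ (m + 3) * (c * K * G / (c * K * G + 1)) := by ring
        _ ≤ (1 / 2) ^ (m + 3) * 1 := by
            apply mul_le_mul_of_nonneg_left _ (by positivity)
            rw [div_le_one (by positivity)]
            linarith
        _ = (1 / 2) ^ (m + 3) := mul_one _
    have h3 : ((1 : ℝ) / 2) ^ (m + 3) < (1 / 2) ^ (m + 2) :=
      pow_lt_pow_right_of_lt_one₀ (by norm_num) (by norm_num) (by omega)
    linarith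
  -- the choice of `ε`
  set B : ℝ := 2 ^ (2 * (m + 4)) * 3 ^ (m + 4) with hB
  have hB0 : 0 < B := by positivity
  set ε := min 1 (t ^ (m + 3) / B) with hε
  have hε0 : 0 < ε := lt_min one_pos (by positivity)
  have hε1 : ε ≤ 1 := min_le_left _ _
  have hX3 : X (m + 3) (poly (boxI (thin m ε))) ≤ t := by
    apply X_le_of_toReal_le (by omega) ht0.le
    have h1 := ENNReal.toReal_mono (by finiteness) (zeta_thin_le (m := m) hε0 hε1)
    rw [ENNReal.toReal_mul, ENNReal.toReal_ofReal (by positivity), ENNReal.toReal_pow] at h1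
    refine h1.trans ?_
    have h2 : ε ≤ t ^ (m + 3) / B := min_le_right _ _
    rw [le_div_iff₀ hB0] at h2
    refine le_trans (le_of_eq ?_) h2
    rw [hB]
    simp only [ENNReal.toReal_ofNat]
    ring
  have hX2 : 1 ≤ X (m + 2) (poly (boxI (thin m ε))) := by
    apply le_X_of_le_toReal (by omega) zero_le_one
    have h1 := zeta_box_ge (Fin.castLEEmb (by omega : m + 2 ≤ m + 4)) (ℓ := thin m ε)
      (fun i => (thin_pos hε0 i).le) (thin_le hε1)
    have h2 : ∏ i : Fin (m + 2), ENNReal.ofReal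
        (thin m ε ((Fin.castLEEmb (by omega : m + 2 ≤ m + 4)) i)) = 1 := by
      apply Finset.prod_eq_one
      intro i _
      simp [thin]
    rw [h2] at h1
    rw [one_pow]
    have h3 := ENNReal.toReal_mono (zeta_lt_top _ _ (box_diam (thin_le hε1))).ne h1
    simpa using h3
  refine ⟨t, ε, ht0, by linarith, hε0, hε1, ?_⟩
  intro I hbd hint hcombo
  set R := poly I with hR
  obtain ⟨D₀, hD₀⟩ : ∃ D₀ : ℝ, ∀ x ∈ poly I, ∀ y ∈ poly I, ‖x - y‖ ≤ D₀ := by
    obtain ⟨C, hC⟩ := Metric.isBounded_iff.1 hbd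
    exact ⟨C, fun x hx y hy => by rw [← dist_eq_norm]; exact hC hx hy⟩
  have h1 := hcombo (m + 1) le_rfl (by omega)
  have h2 := hcombo (m + 2) (by omega) (by omega)
  have h3 := hcombo (m + 3) (by omega) (by omega)
  have h4 := hcombo (m + 4) (by omega) le_rfl
  rw [hQ4] at h4
  rw [← hs] at h3
  rw [← hb1] at h1
  have h1t : 0 ≤ 1 - t := by linarith
  -- volume
  have hV : t ≤ X (m + 4) R := by
    rw [h4, mul_one]
    exact le_add_of_nonneg_left (mul_nonneg h1t (X_nonneg _ _))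
  have hV' : t ^ (m + 4) ≤ (volume R).toReal := by
    have h5 := zeta_top I hint
    rw [hfr] at h5
    rw [← h5, ← X_pow (by omega)]
    exact pow_le_pow_left₀ ht0.le hV _
  -- surface area
  have hS : X (m + 3) R ≤ t * (1 + s) := by
    rw [h3, mul_add, mul_one]
    exact add_le_add ((mul_le_of_le_one_left (X_nonneg _ _) (by linarith only [ht0])).trans hX3)
      le_rfl
  have hS' : (zeta (m + 3) R).toReal ≤ (t * (1 + s)) ^ (m + 3) := by
    rw [← X_pow (by omega)]
    exact pow_le_pow_left₀ (X_nonneg _ _) hS _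
  -- diameter
  have hdiam : ∀ y ∈ poly I, ∀ z ∈ poly I, ‖y - z‖ ≤ K * t := by
    intro y hy z hz
    have h5 := diam_bound hD₀ hint (m := m + 2) (by rw [hfr]) hy hz
    rw [← hκ] at h5
    have h6 : ‖y - z‖ * (t ^ (m + 4)) ^ (m + 2) * κ ≤
        2 ^ (m + 6) * 4 ^ (m + 3) * ((t * (1 + s)) ^ (m + 3)) ^ (m + 3) := by
      calc ‖y - z‖ * (t ^ (m + 4)) ^ (m + 2) * κ
          ≤ ‖y - z‖ * (volume R).toReal ^ (m + 2) * κ := by gcongr
        _ ≤ 2 ^ (m + 2 + 4) * 4 ^ (m + 2 + 1) * (zeta (m + 2 + 1) R).toReal ^ (m + 2 + 1) := h5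
        _ ≤ 2 ^ (m + 6) * 4 ^ (m + 3) * ((t * (1 + s)) ^ (m + 3)) ^ (m + 3) := by
          have e : m + 2 + 1 = m + 3 := by omega
          rw [e, show m + 2 + 4 = m + 6 by omega]
          gcongr
    have h7 : 2 ^ (m + 6) * 4 ^ (m + 3) * ((t * (1 + s)) ^ (m + 3)) ^ (m + 3) =
        K * t * (t ^ (m + 4)) ^ (m + 2) * κ := by
      have h8 : ((t * (1 + s)) ^ (m + 3)) ^ (m + 3) =
          (1 + s) ^ ((m + 3) * (m + 3)) * (t * (t ^ (m + 4)) ^ (m + 2)) := by
        rw [← pow_mul, mul_pow, ← pow_mul, ← pow_succ']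
        rw [mul_comm]
        congr 2
        ring
      rw [h8, hK]
      field_simp
    rw [h7] at h6
    have h9 : 0 < (t ^ (m + 4)) ^ (m + 2) * κ := by positivity
    have h10 : ‖y - z‖ * ((t ^ (m + 4)) ^ (m + 2) * κ) ≤
        (K * t) * ((t ^ (m + 4)) ^ (m + 2) * κ) := by linarith
    exact le_of_mul_le_mul_right h10 h9
  -- lower content
  have hL : (zeta (m + 1) R).toReal ≤ G := by
    rw [← X_pow (by omega), hG]
    apply pow_le_pow_left₀ (X_nonneg _ _)
    rw [h1]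
    exact add_le_add ((mul_le_of_le_one_left (X_nonneg _ _) (by linarith only [ht0])).trans
      (ha1 ε hε0 hε1)) (mul_le_of_le_one_left hb10 (by linarith only [ht2]))
  -- middle content
  have hspan : vectorSpan ℝ (poly I) = ⊤ := by
    have h5 : affineSpan ℝ (poly I) = ⊤ := by
      rw [eq_top_iff, ← isOpen_interior.affineSpan_eq_top hint]
      exact affineSpan_mono ℝ interior_subset
    rw [← direction_affineSpan, h5, AffineSubspace.direction_top]
  have hcod := codim_inequality (m + 1) I (K * t) hdiam (by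
    rw [hspan, finrank_top, hfr])
  have hcod' : (zeta (m + 2) R).toReal ≤ c * (K * t) * G := by
    have h5 := ENNReal.toReal_mono (ENNReal.mul_ne_top (ENNReal.mul_ne_top (cst_ne_top _ _)
      ENNReal.ofReal_ne_top) (zeta_lt_top I (m + 1) hD₀).ne) hcod
    rw [ENNReal.toReal_mul, ENNReal.toReal_mul, ENNReal.toReal_ofReal (by positivity), ← hc] at h5
    refine h5.trans ?_
    gcongr
  have hM : (1 / 2 : ℝ) ≤ X (m + 2) R := by
    rw [h2]
    have h5 : (1 / 2 : ℝ) ≤ (1 - t) * X (m + 2) (poly (boxI (thin m ε))) := by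
      calc (1 / 2 : ℝ) = 1 / 2 * 1 := by norm_num
        _ ≤ (1 - t) * X (m + 2) (poly (boxI (thin m ε))) :=
          mul_le_mul (by linarith only [ht2]) hX2 zero_le_one h1t
    exact h5.trans (le_add_of_nonneg_right (mul_nonneg ht0.le (X_nonneg _ _)))
  have hM' : (1 / 2 : ℝ) ^ (m + 2) ≤ (zeta (m + 2) R).toReal := by
    rw [← X_pow (by omega)]
    exact pow_le_pow_left₀ (by norm_num) hM _
  have : c * (K * t) * G = c * K * G * t := by ring
  linarith

end Pool.Agent.Helper75
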