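import Mathlib
import Pool.Agent.Helper75.Poly

open MeasureTheory Module Set Filter Topology MeasureTheory.Measure
open scoped RealInnerProductSpace ENNReal NNReal

namespace Pool.Agent.Helper75

section

variable {E : Type*} [NormedAddCommGroup E] [InnerProductSpace ℝ E]

/-- the faces of the convex hull of a finite set are finitely many. -/
theorem finite_faces_convexHull (S : Finset E) : (faces (convexHull ℝ (S : Set E))).Finite := by
  classical
  set P := convexHull ℝ (S : Set E) with hP
  have hconv : Convex ℝ P := convex_convexHull ℝ _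
  have hSP : ∀ y ∈ S, y ∈ P := fun y hy => subset_convexHull ℝ _ hy
  -- a point is a combination of the generators in its minimal face
  have key : ∀ x ∈ P, ∀ x' ∈ P, (∀ y ∈ S, y ∈ mface P x → y ∈ mface P x') → x ∈ mface P x' := by
    intro x hx x' hx' h
    obtain ⟨w, hw0, hw1, hwx⟩ := Finset.mem_convexHull'.1 hx
    have hsupp : ∀ y ∈ S, w y ≠ 0 → y ∈ mface P x := by
      intro y hy hwy
      have hwpos : 0 < w y := lt_of_le_of_ne (hw0 y hy) (Ne.symm hwy)
      refine ⟨hSP y hy, w y, hwpos, ?_⟩
      have hcomb : x + w y • (x - y) =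
          ∑ z ∈ S, (w z * (1 + w y) - if z = y then w y else 0) • z := by
        simp only [sub_smul, Finset.sum_sub_distrib, ite_smul, zero_smul, Finset.sum_ite_eq', hy,
          if_true]
        have : ∑ z ∈ S, (w z * (1 + w y)) • z = (1 + w y) • x := by
          rw [← hwx, Finset.smul_sum]
          refine Finset.sum_congr rfl fun z _ => ?_
          rw [smul_smul, mul_comm]
        rw [this]
        module
      rw [hcomb]
      apply hconv.sum_mem _ _ hSP
      · intro z hz
        by_cases hzy : z = y
        · rw [if_pos hzy, hzy]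
          nlinarith
        · rw [if_neg hzy, sub_zero]
          exact mul_nonneg (hw0 z hz) (by linarith)
      · rw [Finset.sum_sub_distrib, ← Finset.sum_mul, hw1, Finset.sum_ite_eq', if_pos hy]
        ring
    have hx2 : ∑ z ∈ S.filter (fun z => w z ≠ 0), w z • z = x := by
      rw [← hwx]
      apply Finset.sum_subset (Finset.filter_subset _ _)
      intro z hz hz'
      have : w z = 0 := by
        by_contra hcon
        exact hz' (Finset.mem_filter.2 ⟨hz, hcon⟩)
      rw [this, zero_smul]
    rw [← hx2]
    apply (convex_mface hconv hx').sum_mem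
    · intro z hz
      exact hw0 z (Finset.mem_filter.1 hz).1
    · rw [← hw1]
      apply Finset.sum_subset (Finset.filter_subset _ _)
      intro z hz hz'
      by_contra hcon
      exact hz' (Finset.mem_filter.2 ⟨hz, hcon⟩)
    · intro z hz
      obtain ⟨hz1, hz2⟩ := Finset.mem_filter.1 hz
      exact h z hz1 (hsupp z hz1 hz2)
  have himg : ((fun F : Set E => S.filter (· ∈ F)) '' faces P).Finite := by
    apply (Finset.finite_toSet S.powerset).subset
    rintro _ ⟨F, _, rfl⟩
    exact Finset.mem_coe.2 (Finset.mem_powerset.2 (Finset.filter_subset _ _))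
  refine himg.of_finite_image ?_
  rintro _ ⟨x, hx, rfl⟩ _ ⟨x', hx', rfl⟩ h
  have h' : ∀ y ∈ S, (y ∈ mface P x ↔ y ∈ mface P x') := by
    intro y hy
    have := Finset.ext_iff.1 h y
    simpa [Finset.mem_filter, hy] using this
  exact mface_eq_of_mem hconv (key x hx x' hx' fun y hy => (h' y hy).1)
    (key x' hx' x hx fun y hy => (h' y hy).2)

end

variable {E : Type*} [NormedAddCommGroup E] [InnerProductSpace ℝ E] [FiniteDimensional ℝ E]

omit [FiniteDimensional ℝ E] in
/-- a supporting functional at a boundary point. -/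
theorem exists_support {P : Set E} (hP : Convex ℝ P) (hcl : IsClosed P)
    (hint : (interior P).Nonempty) {y : E} (hyi : y ∉ interior P) :
    ∃ f : StrongDual ℝ E, (∀ a ∈ interior P, f a < f y) ∧ (∀ a ∈ P, f a ≤ f y) ∧
      ∀ a ∈ mface P y, f a = f y := by
  obtain ⟨f, hf⟩ := geometric_hahn_banach_open_point hP.interior isOpen_interior hyi
  have hle : ∀ a ∈ P, f a ≤ f y := by
    have h1 : P = closure (interior P) := by
      rw [hP.closure_interior_eq_closure_of_nonempty_interior hint, hcl.closure_eq]
    have h2 : closure (interior P) ⊆ {a | f a ≤ f y} :=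
      closure_minimal (fun a ha => (hf a ha).le) (isClosed_le f.continuous continuous_const)
    rw [← h1] at h2
    exact h2
  refine ⟨f, hf, hle, ?_⟩
  rintro a ⟨haP, ε, hε, h⟩
  refine le_antisymm (hle a haP) ?_
  have h1 := hle _ h
  rw [map_add, map_smul, map_sub, smul_eq_mul] at h1
  by_contra hcon
  push Not at hcon
  have : 0 < ε * (f y - f a) := mul_pos hε (by linarith)
  linarith

variable [MeasurableSpace E] [BorelSpace E]

theorem exists_poly_of_convexHull {S : Finset E}
    (hint : (interior (convexHull ℝ (S : Set E))).Nonempty) :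
    ∃ I : Finset (E × ℝ), convexHull ℝ (S : Set E) = poly I := by
  classical
  set P := convexHull ℝ (S : Set E) with hPdef
  have hP : Convex ℝ P := convex_convexHull ℝ _
  have hcpt : IsCompact P := S.finite_toSet.isCompact_convexHull ℝ
  have hfin : (faces P).Finite := finite_faces_convexHull S
  -- boundary faces carry a functional
  have hsup : ∀ F ∈ faces P, finrank ℝ (vectorSpan ℝ F) < finrank ℝ E →
      ∃ f : StrongDual ℝ E, ∃ b : ℝ, (∀ a ∈ interior P, f a < b) ∧ (∀ a ∈ P, f a ≤ b) ∧
        ∀ a ∈ F, f a = b := by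
    rintro F ⟨y, hy, rfl⟩ hlt
    have hyi : y ∉ interior P := by
      intro hyi
      have htop : vectorSpan ℝ (mface P y) = ⊤ := by
        rw [eq_top_iff]
        intro v _
        rw [mem_vectorSpan_mface hP hy]
        have hnh : ∀ᶠ ε : ℝ in 𝓝[>] 0, y + ε • v ∈ P ∧ y - ε • v ∈ P := by
          have h1 : Tendsto (fun ε : ℝ => y + ε • v) (𝓝[>] 0) (𝓝 (y + (0 : ℝ) • v)) :=
            Tendsto.mono_left (Continuous.tendsto (by fun_prop) _) nhdsWithin_le_nhds
          have h2 : Tendsto (fun ε : ℝ => y - ε • v) (𝓝[>] 0) (𝓝 (y - (0 : ℝ) • v)) :=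
            Tendsto.mono_left (Continuous.tendsto (by fun_prop) _) nhdsWithin_le_nhds
          rw [zero_smul, add_zero] at h1
          rw [zero_smul, sub_zero] at h2
          have hP' : P ∈ 𝓝 y := mem_interior_iff_mem_nhds.1 hyi
          exact (h1.eventually hP').and (h2.eventually hP')
        obtain ⟨ε, h1, h2⟩ := (hnh.and self_mem_nhdsWithin).exists
        exact ⟨ε, h2, h1⟩
      rw [htop, finrank_top] at hlt
      exact lt_irrefl _ hlt
    obtain ⟨f, h1, h2, h3⟩ := exists_support hP hcpt.isClosed hint hyi
    exact ⟨f, f y, h1, h2, h3⟩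
  choose! f b hf1 hf2 hf3 using hsup
  set Fac : Finset (Set E) := hfin.toFinset.filter
    fun F => finrank ℝ (vectorSpan ℝ F) + 1 = finrank ℝ E with hFac
  refine ⟨Fac.image fun F => ((InnerProductSpace.toDual ℝ E).symm (f F), b F), ?_⟩
  have hFacmem : ∀ F, F ∈ Fac ↔ F ∈ faces P ∧ finrank ℝ (vectorSpan ℝ F) + 1 = finrank ℝ E := by
    intro F
    rw [hFac, Finset.mem_filter, Set.Finite.mem_toFinset]
  apply Subset.antisymm
  · intro x hx c hc
    obtain ⟨F, hF, rfl⟩ := Finset.mem_image.1 hc
    obtain ⟨hF1, hF2⟩ := (hFacmem F).1 hF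
    simp only [InnerProductSpace.toDual_symm_apply]
    exact hf2 F hF1 (by omega) x hx
  · intro z hz
    by_contra hzP
    -- choose an interior point in general position
    let A : Set E → AffineSubspace ℝ E := fun G => affineSpan ℝ (insert z G)
    have hnull : volume (⋃ G ∈ {G | G ∈ faces P ∧ finrank ℝ (vectorSpan ℝ G) + 2 ≤ finrank ℝ E},
        ((A G : AffineSubspace ℝ E) : Set E)) = 0 := by
      rw [measure_biUnion_null_iff ((hfin.subset fun G hG => hG.1).countable)]
      rintro G ⟨_, hG⟩
      apply Measure.addHaar_affineSubspace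
      intro htop
      have h1 := finrank_vectorSpan_insert_le_set ℝ G z
      rw [← direction_affineSpan] at h1
      have h2 : (affineSpan ℝ (insert z G)).direction = ⊤ := by
        have : affineSpan ℝ (insert z G) = ⊤ := htop
        rw [this, AffineSubspace.direction_top]
      rw [h2, finrank_top] at h1
      omega
    obtain ⟨w, hw, hwA⟩ : ∃ w ∈ interior P, w ∉ ⋃ G ∈ {G | G ∈ faces P ∧
        finrank ℝ (vectorSpan ℝ G) + 2 ≤ finrank ℝ E}, ((A G : AffineSubspace ℝ E) : Set E) := by
      by_contra hcon
      push Not at hcon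
      have h1 : volume (interior P) = 0 := measure_mono_null hcon hnull
      exact (isOpen_interior.measure_pos volume hint).ne' h1
    have hwP : w ∈ P := interior_subset hw
    -- the last point of the segment in `P`
    set T : Set ℝ := {t | t ∈ Icc (0 : ℝ) 1 ∧ w + t • (z - w) ∈ P} with hT
    have hTcpt : IsCompact T := by
      have : T = Icc (0 : ℝ) 1 ∩ (fun t : ℝ => w + t • (z - w)) ⁻¹' P := rfl
      rw [this]
      exact isCompact_Icc.inter_right (hcpt.isClosed.preimage (by fun_prop))
    have hTne : T.Nonempty := ⟨0, ⟨le_rfl, zero_le_one⟩, by simpa using hwP⟩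
    obtain ⟨t, ⟨⟨ht0, ht1⟩, hty⟩, htmax⟩ := hTcpt.exists_isGreatest hTne
    have ht1' : t < 1 := by
      refine lt_of_le_of_ne ht1 fun h => hzP ?_
      rw [h, one_smul, add_sub_cancel] at hty
      exact hty
    set y := w + t • (z - w) with hy
    have hyi : y ∉ interior P := by
      intro hyi
      have hcont : Tendsto (fun s : ℝ => w + s • (z - w)) (𝓝[>] t) (𝓝 y) :=
        Tendsto.mono_left (Continuous.tendsto (by fun_prop) _) nhdsWithin_le_nhds
      have h1 : ∀ᶠ s : ℝ in 𝓝[>] t, w + s • (z - w) ∈ P :=
        hcont.eventually (mem_interior_iff_mem_nhds.1 hyi)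
      have h2 : ∀ᶠ s : ℝ in 𝓝[>] t, s ∈ Ioo t 1 := Ioo_mem_nhdsGT ht1'
      obtain ⟨s, hs1, hs2⟩ := (h1.and h2).exists
      have h3 := htmax ⟨⟨ht0.trans hs2.1.le, hs2.2.le⟩, hs1⟩
      exact absurd hs2.1 (not_lt.2 h3)
    have htpos : 0 < t := by
      refine lt_of_le_of_ne ht0 fun h => hyi ?_
      rw [hy, ← h, zero_smul, add_zero]
      exact hw
    obtain ⟨g, hg1, hg2, hg3⟩ := exists_support hP hcpt.isClosed hint hyi
    set G := mface P y with hG
    have hGf : G ∈ faces P := ⟨y, hty, rfl⟩
    have hGlt : finrank ℝ (vectorSpan ℝ G) + 1 ≤ finrank ℝ E := by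
      have h1 : vectorSpan ℝ G ≤ LinearMap.ker (g : E →ₗ[ℝ] ℝ) := by
        rw [vectorSpan_def, Submodule.span_le]
        rintro _ ⟨a, ha, a', ha', rfl⟩
        simp only [vsub_eq_sub, SetLike.mem_coe, LinearMap.mem_ker, ContinuousLinearMap.coe_coe,
          map_sub, hg3 a ha, hg3 a' ha', sub_self]
      have h2 : LinearMap.ker (g : E →ₗ[ℝ] ℝ) ≠ ⊤ := by
        intro htop
        have h3 : ∀ v, g v = 0 := fun v => by
          have : v ∈ LinearMap.ker (g : E →ₗ[ℝ] ℝ) := by rw [htop]; trivial
          exact this
        have h4 := hg1 w hw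
        rw [h3, h3] at h4
        exact lt_irrefl _ h4
      have h3 := Submodule.finrank_mono h1
      have h4 := Submodule.finrank_lt h2
      omega
    by_cases hGd : finrank ℝ (vectorSpan ℝ G) + 1 = finrank ℝ E
    · -- a facet constraint is violated
      have h1 := hz ((InnerProductSpace.toDual ℝ E).symm (f G), b G)
        (Finset.mem_image.2 ⟨G, (hFacmem G).2 ⟨hGf, hGd⟩, rfl⟩)
      simp only [InnerProductSpace.toDual_symm_apply] at h1
      have h2 := hf1 G hGf (by omega) w hw
      have h3 := hf3 G hGf (by omega) y (self_mem_mface hty)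
      rw [hy, map_add, map_smul, map_sub, smul_eq_mul] at h3
      nlinarith
    · apply hwA
      simp only [mem_iUnion]
      refine ⟨G, ⟨hGf, by omega⟩, ?_⟩
      have hz' : z ∈ A G := subset_affineSpan ℝ _ (mem_insert _ _)
      have hy' : y ∈ A G := subset_affineSpan ℝ _ (mem_insert_of_mem _ (self_mem_mface hty))
      have h1 : w = AffineMap.lineMap z y ((1 - t)⁻¹) := by
        have h2 : (1 : ℝ) - t ≠ 0 := by linarith
        rw [AffineMap.lineMap_apply_module, hy]
        match_scalars <;> field_simp <;> ring
      rw [h1]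
      exact AffineMap.lineMap_mem _ hz' hy'

/-- a bounded polyhedron is the convex hull of a finite set. -/
theorem exists_convexHull_of_poly {I : Finset (E × ℝ)} (hb : Bornology.IsBounded (poly I)) :
    ∃ S : Finset E, poly I = convexHull ℝ (S : Set E) := by
  have hcpt : IsCompact (poly I) := Metric.isCompact_of_isClosed_isBounded (isClosed_poly I) hb
  have hfin : ((poly I).extremePoints ℝ).Finite := by
    have himg : ((fun x : E => ({x} : Set E)) '' ((poly I).extremePoints ℝ)).Finite := by
      apply (finite_faces_poly I).subset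
      rintro _ ⟨x, hx, rfl⟩
      refine ⟨x, hx.1, ?_⟩
      apply Subset.antisymm
      · rintro y rfl
        exact self_mem_mface hx.1
      · rintro y ⟨hy, ε, hε, h⟩
        refine hx.2 hy h ?_
        refine ⟨ε / (1 + ε), 1 / (1 + ε), by positivity, by positivity, by
          rw [← add_div, add_comm ε 1]; exact div_self (by positivity), ?_⟩
        match_scalars
        · field_simp
          ring
        · field_simp
    exact himg.of_finite_image (fun x _ y _ h => singleton_injective h)
  refine ⟨hfin.toFinset, ?_⟩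
  rw [Set.Finite.coe_toFinset, ← (hfin.isCompact_convexHull ℝ).isClosed.closure_eq]
  exact (closure_convexHull_extremePoints hcpt (convex_poly I)).symm

end Pool.Agent.Helper75
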