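import Mathlib
import Pool.Agent.Helper75.Poly

open MeasureTheory Module Set Filter Topology MeasureTheory.Measure
open scoped RealInnerProductSpace ENNReal

namespace Pool.Agent.Helper75

section algebra

variable {E : Type*} [NormedAddCommGroup E] [InnerProductSpace ℝ E]

theorem norm_add_sq_unit {p q : E} (hp : ‖p‖ = 1) (hq : ‖q‖ = 1) :
    ‖p + q‖ ^ 2 = 2 + 2 * ⟪p, q⟫ := by
  rw [norm_add_sq_real, hp, hq]; ring

theorem norm_add_pos_unit {p q : E} (hp : ‖p‖ = 1) (hq : ‖q‖ = 1) (h1 : -1 < ⟪p, q⟫) :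
    0 < ‖p + q‖ := by
  have hN := norm_add_sq_unit hp hq
  by_contra hcon
  have : ‖p + q‖ = 0 := le_antisymm (not_lt.1 hcon) (norm_nonneg _)
  rw [this] at hN
  linarith

theorem abs_coeff_le {p q : E} (hp : ‖p‖ = 1) (hq : ‖q‖ = 1) (h1 : -1 < ⟪p, q⟫)
    (h2 : ⟪p, q⟫ ≤ 1 / 2) {α β : ℝ} (h : ‖α • p + β • q‖ ≤ 1 / 2) : |α| ≤ ‖p + q‖⁻¹ := by
  have hN := norm_add_sq_unit hp hq
  have hNpos := norm_add_pos_unit hp hq h1
  set c : ℝ := ⟪p, q⟫ with hc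
  have hw : α ^ 2 + β ^ 2 + 2 * α * β * c ≤ 1 / 4 := by
    have h3 : ‖α • p + β • q‖ ^ 2 = α ^ 2 + β ^ 2 + 2 * α * β * c := by
      rw [norm_add_sq_real, norm_smul, norm_smul, hp, hq, inner_smul_left, inner_smul_right]
      simp only [Real.norm_eq_abs, mul_one, sq_abs, conj_trivial]
      ring
    rw [← h3]
    nlinarith [norm_nonneg (α • p + β • q)]
  have h4 : α ^ 2 * (1 - c ^ 2) ≤ 1 / 4 := by nlinarith [sq_nonneg (β + α * c)]
  -- `2 + 2c ≤ 4 (1 - c²)`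
  have h5 : α ^ 2 * ‖p + q‖ ^ 2 ≤ 1 := by
    rw [hN]
    have h6 : 0 ≤ α ^ 2 := sq_nonneg _
    have h7 : (2 + 2 * c) ≤ 4 * (1 - c ^ 2) := by nlinarith
    calc α ^ 2 * (2 + 2 * c) ≤ α ^ 2 * (4 * (1 - c ^ 2)) := mul_le_mul_of_nonneg_left h7 h6
      _ = 4 * (α ^ 2 * (1 - c ^ 2)) := by ring
      _ ≤ 4 * (1 / 4) := by linarith
      _ = 1 := by norm_num
  have h8 : (|α| * ‖p + q‖) ^ 2 ≤ 1 := by rw [mul_pow, sq_abs]; linarith
  rw [← one_div, le_div_iff₀ hNpos]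
  nlinarith [mul_nonneg (abs_nonneg α) hNpos.le]

/-- if the unit bisector is pushed by a vector of length at most `1/2` in the plane of the
corner, it stays in the corner. -/
theorem inner_bisector_le {p q ν w : E} (hp : ‖p‖ = 1) (hq : ‖q‖ = 1) (h1 : -1 < ⟪p, q⟫)
    (h2 : ⟪p, q⟫ ≤ 1 / 2) (hνp : ⟪ν, p⟫ ≤ 0) (hνq : ⟪ν, q⟫ ≤ 0) {α β : ℝ}
    (hw : w = α • p + β • q) (hwp : ⟪ν, p⟫ = ⟪w, p⟫) (hwq : ⟪ν, q⟫ = ⟪w, q⟫) :
    ⟪ν, ‖p + q‖⁻¹ • (p + q)⟫ ≤ -(1 / 2) * ‖w‖ := by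
  have hNpos := norm_add_pos_unit hp hq h1
  have hNinv : 0 < ‖p + q‖⁻¹ := inv_pos.2 hNpos
  rcases (norm_nonneg w).eq_or_lt with h0 | h0
  · rw [← h0, inner_smul_right, inner_add_right]
    have : ‖p + q‖⁻¹ * (⟪ν, p⟫ + ⟪ν, q⟫) ≤ 0 :=
      mul_nonpos_of_nonneg_of_nonpos hNinv.le (by linarith)
    linarith
  · set t := (2 * ‖w‖)⁻¹ with ht
    have ht0 : 0 < t := by positivity
    have htw : t * ‖w‖ = 1 / 2 := by rw [ht]; field_simp
    have hnorm : ‖(t * α) • p + (t * β) • q‖ ≤ 1 / 2 := by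
      have : (t * α) • p + (t * β) • q = t • w := by rw [hw]; module
      rw [this, norm_smul, Real.norm_eq_abs, abs_of_pos ht0, htw]
    have hα := abs_coeff_le hp hq h1 h2 hnorm
    have hβ := abs_coeff_le (p := q) (q := p) hq hp (by rwa [real_inner_comm])
      (by rwa [real_inner_comm]) (by rwa [add_comm] at hnorm)
    rw [add_comm q p] at hβ
    have hα' := (abs_le.1 hα).1
    have hβ' := (abs_le.1 hβ).1
    -- `b + t w` has nonnegative coordinates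
    have h3 : ⟪ν, ‖p + q‖⁻¹ • (p + q) + t • w⟫ ≤ 0 := by
      have e : ‖p + q‖⁻¹ • (p + q) + t • w =
          (‖p + q‖⁻¹ + t * α) • p + (‖p + q‖⁻¹ + t * β) • q := by rw [hw]; module
      rw [e, inner_add_right, inner_smul_right, inner_smul_right]
      have a1 : (‖p + q‖⁻¹ + t * α) * ⟪ν, p⟫ ≤ 0 :=
        mul_nonpos_of_nonneg_of_nonpos (by linarith) hνp
      have a2 : (‖p + q‖⁻¹ + t * β) * ⟪ν, q⟫ ≤ 0 :=
        mul_nonpos_of_nonneg_of_nonpos (by linarith) hνq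
      linarith
    have h4 : ⟪ν, w⟫ = ‖w‖ ^ 2 := by
      have hz : ∀ z : E, ⟪z, w⟫ = α * ⟪z, p⟫ + β * ⟪z, q⟫ := fun z => by
        rw [hw, inner_add_right, inner_smul_right, inner_smul_right]
      rw [← real_inner_self_eq_norm_sq, hz ν, hz w, hwp, hwq]
    rw [inner_add_right, inner_smul_right ν w, h4] at h3
    have h5 : t * ‖w‖ ^ 2 = 1 / 2 * ‖w‖ := by rw [sq, ← mul_assoc, htw]
    rw [h5] at h3
    linarith

/-- corners with different normals are separated. -/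
theorem corner_separated {b b' ν ν' : E} (hν : ‖ν‖ = 1) (hν' : ‖ν'‖ = 1) (hb : ⟪ν, b⟫ = 0)
    (hb' : ⟪ν', b'⟫ = 0) (h : ⟪ν', b⟫ ≤ -(1 / 2) * ‖ν' - ⟪ν, ν'⟫ • ν‖)
    (h' : ⟪ν, b'⟫ ≤ -(1 / 2) * ‖ν - ⟪ν', ν⟫ • ν'‖) (hne : ν ≠ ν') :
    1 / 2 ≤ ‖b - b'‖ ∨ 1 / 2 ≤ ‖ν - ν'‖ := by
  by_contra hcon
  push Not at hcon
  obtain ⟨h1, h2⟩ := hcon
  set c : ℝ := ⟪ν, ν'⟫ with hc
  have hσ : ‖ν' - c • ν‖ ^ 2 = 1 - c ^ 2 := by
    rw [norm_sub_sq_real, hν', norm_smul, hν, inner_smul_right, real_inner_comm, ← hc]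
    simp only [Real.norm_eq_abs, mul_one, sq_abs]
    ring
  have hσ' : ‖ν - ⟪ν', ν⟫ • ν'‖ ^ 2 = 1 - c ^ 2 := by
    rw [real_inner_comm ν ν', ← hc, norm_sub_sq_real, hν, norm_smul, hν', inner_smul_right, ← hc]
    simp only [Real.norm_eq_abs, mul_one, sq_abs]
    ring
  have heq : ‖ν - ⟪ν', ν⟫ • ν'‖ = ‖ν' - c • ν‖ := by
    have : ‖ν - ⟪ν', ν⟫ • ν'‖ ^ 2 = ‖ν' - c • ν‖ ^ 2 := by rw [hσ, hσ']
    exact (pow_left_inj₀ (norm_nonneg _) (norm_nonneg _) two_ne_zero).1 this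
  rw [heq] at h'
  set σ := ‖ν' - c • ν‖ with hσdef
  have hσ0 : 0 ≤ σ := norm_nonneg _
  have hd : ‖ν - ν'‖ ^ 2 = 2 - 2 * c := by
    rw [norm_sub_sq_real, hν, hν', ← hc]; ring
  have hdpos : 0 < ‖ν - ν'‖ := norm_pos_iff.2 (sub_ne_zero.2 hne)
  have h3 : σ ≤ ‖ν - ν'‖ * ‖b - b'‖ := by
    have h4 : ⟪ν - ν', b - b'⟫ = -(⟪ν', b⟫ + ⟪ν, b'⟫) := by
      rw [inner_sub_left, inner_sub_right, inner_sub_right, hb, hb']; ring
    have h5 := real_inner_le_norm (ν - ν') (b - b')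
    rw [h4] at h5
    linarith
  have h6 : σ ≤ ‖ν - ν'‖ * (1 / 2) := h3.trans (mul_le_mul_of_nonneg_left h1.le hdpos.le)
  have h7 : σ ^ 2 ≤ (‖ν - ν'‖ * (1 / 2)) ^ 2 := pow_le_pow_left₀ hσ0 h6 2
  rw [hσ, mul_pow, hd] at h7
  have h8 : ‖ν - ν'‖ ^ 2 < 1 / 4 := by nlinarith
  rw [hd] at h8
  have h9 : 0 < 2 - 2 * c := by rw [← hd]; positivity
  nlinarith

end algebra

section geometry

variable {E : Type*} [NormedAddCommGroup E] [InnerProductSpace ℝ E]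

theorem mface_eq_singleton_of_extreme {P : Set E} {x : E} (hx : x ∈ P.extremePoints ℝ) :
    mface P x = {x} := by
  apply Subset.antisymm
  · rintro y ⟨hy, ε, hε, h⟩
    refine hx.2 hy h ?_
    refine ⟨ε / (1 + ε), 1 / (1 + ε), by positivity, by positivity, by
      rw [← add_div, add_comm ε 1]; exact div_self (by positivity), ?_⟩
    match_scalars
    · field_simp
      ring
    · field_simp
  · rintro y rfl
    exact self_mem_mface hx.1

theorem finite_extremePoints_poly (I : Finset (E × ℝ)) :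
    ((poly I).extremePoints ℝ).Finite := by
  have h := finite_faces_poly I
  have himg : ((fun x : E => ({x} : Set E)) '' ((poly I).extremePoints ℝ)).Finite := by
    apply h.subset
    rintro _ ⟨x, hx, rfl⟩
    exact ⟨x, hx.1, (mface_eq_singleton_of_extreme hx).symm⟩
  exact himg.of_finite_image (fun x _ y _ h => singleton_injective h)

theorem inner_unit_le_half {x y : E} (hx : x ≠ 0) (hy : y ≠ 0) (h1 : ‖x‖ ≤ ‖x - y‖)
    (h2 : ‖y‖ ≤ ‖x - y‖) : ⟪‖x‖⁻¹ • x, ‖y‖⁻¹ • y⟫ ≤ 1 / 2 := by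
  have hx0 : 0 < ‖x‖ := norm_pos_iff.2 hx
  have hy0 : 0 < ‖y‖ := norm_pos_iff.2 hy
  rw [inner_smul_left, inner_smul_right]
  simp only [conj_trivial]
  have e := norm_sub_sq_real x y
  have a1 : ‖x‖ ^ 2 ≤ ‖x - y‖ ^ 2 := pow_le_pow_left₀ hx0.le h1 2
  have a2 : ‖y‖ ^ 2 ≤ ‖x - y‖ ^ 2 := pow_le_pow_left₀ hy0.le h2 2
  have h3 : 2 * ⟪x, y⟫ ≤ ‖x‖ * ‖y‖ := by
    rcases le_total ‖x‖ ‖y‖ with h | h
    · have : ‖x‖ * ‖x‖ ≤ ‖x‖ * ‖y‖ := mul_le_mul_of_nonneg_left h hx0.le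
      nlinarith
    · have : ‖y‖ * ‖y‖ ≤ ‖x‖ * ‖y‖ := mul_le_mul_of_nonneg_right h hy0.le
      nlinarith
  have e2 : ‖x‖⁻¹ * (‖y‖⁻¹ * ⟪x, y⟫) = ⟪x, y⟫ / (‖x‖ * ‖y‖) := by
    field_simp
  rw [e2, div_le_iff₀ (by positivity)]
  linarith

variable [FiniteDimensional ℝ E]

/-- every compact polygon has a corner whose angle is at least sixty degrees. -/
theorem exists_fat_corner {J : Finset (E × ℝ)} (hb : Bornology.IsBounded (poly J))
    (h2 : finrank ℝ (vectorSpan ℝ (poly J)) = 2) :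
    ∃ v ∈ poly J, ∃ v₁ ∈ poly J, ∃ v₂ ∈ poly J, mface (poly J) v = {v} ∧ v₁ ≠ v ∧ v₂ ≠ v ∧
      -1 < ⟪‖v₁ - v‖⁻¹ • (v₁ - v), ‖v₂ - v‖⁻¹ • (v₂ - v)⟫ ∧
      ⟪‖v₁ - v‖⁻¹ • (v₁ - v), ‖v₂ - v‖⁻¹ • (v₂ - v)⟫ ≤ 1 / 2 ∧
      vectorSpan ℝ (poly J) =
        Submodule.span ℝ {‖v₁ - v‖⁻¹ • (v₁ - v), ‖v₂ - v‖⁻¹ • (v₂ - v)} := by
  classical
  have hcpt : IsCompact (poly J) := Metric.isCompact_of_isClosed_isBounded (isClosed_poly J) hb
  have hne : (poly J).Nonempty := by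
    rw [nonempty_iff_ne_empty]
    intro h
    rw [h, vectorSpan_empty, finrank_bot] at h2
    omega
  set X := (finite_extremePoints_poly J).toFinset with hX
  have hXmem : ∀ x, x ∈ X ↔ x ∈ (poly J).extremePoints ℝ := fun x => by simp [hX]
  have hXne : X.Nonempty := by
    obtain ⟨x, hx⟩ := hcpt.extremePoints_nonempty hne
    exact ⟨x, (hXmem x).2 hx⟩
  obtain ⟨⟨v₁, v₂⟩, hv, hmax⟩ := Finset.exists_max_image (X ×ˢ X) (fun p => ‖p.1 - p.2‖)
    (hXne.product hXne)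
  obtain ⟨hv₁, hv₂⟩ := Finset.mem_product.1 hv
  simp only at hv₁ hv₂
  have hmax' : ∀ a ∈ X, ∀ b ∈ X, ‖a - b‖ ≤ ‖v₁ - v₂‖ := fun a ha b hb =>
    hmax (a, b) (Finset.mem_product.2 ⟨ha, hb⟩)
  have hKM : closure (convexHull ℝ ((poly J).extremePoints ℝ)) = poly J :=
    closure_convexHull_extremePoints hcpt (convex_poly J)
  -- an extreme point off the line
  obtain ⟨v, hvX, hvl⟩ : ∃ v ∈ X, v ∉ line[ℝ, v₁, v₂] := by
    by_contra hcon
    push Not at hcon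
    have hsub : poly J ⊆ (line[ℝ, v₁, v₂] : Set E) := by
      rw [← hKM]
      apply closure_minimal
      · apply convexHull_min
        · intro x hx
          exact hcon x ((hXmem x).2 hx)
        · exact AffineSubspace.convex _
      · exact AffineSubspace.closed_of_finiteDimensional _
    have hcol : Collinear ℝ (poly J) :=
      collinear_iff_finrank_le_one.2 (by
        have h3 : vectorSpan ℝ (poly J) ≤ (line[ℝ, v₁, v₂]).direction := by
          rw [← direction_affineSpan ℝ (poly J)]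
          exact AffineSubspace.direction_le (affineSpan_le.2 hsub)
        have h4 := Submodule.finrank_mono h3
        rw [direction_affineSpan] at h4
        exact h4.trans (collinear_iff_finrank_le_one.1 (collinear_pair ℝ v₁ v₂)))
    have := collinear_iff_finrank_le_one.1 hcol
    omega
  have hne12 : v₁ ≠ v₂ := by
    intro h
    apply hvl
    have h3 := hmax' v hvX v₁ hv₁
    rw [h, sub_self, norm_zero] at h3
    have h4 : v = v₂ := sub_eq_zero.1 (norm_le_zero_iff.1 h3)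
    rw [h4]
    exact right_mem_affineSpan_pair ℝ _ _
  have hne1 : v₁ ≠ v := fun h => hvl (h ▸ left_mem_affineSpan_pair ℝ _ _)
  have hne2 : v₂ ≠ v := fun h => hvl (h ▸ right_mem_affineSpan_pair ℝ _ _)
  have hli : ∀ s t : ℝ, s • (v₁ - v) + t • (v₂ - v) = 0 → s = 0 ∧ t = 0 := by
    intro s t hst
    by_cases hsum : s + t = 0
    · have ht : t = -s := by linarith
      rw [ht] at hst
      have h3 : s • (v₁ - v₂) = 0 := by
        rw [← hst]; module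
      rcases smul_eq_zero.1 h3 with h | h
      · exact ⟨h, by rw [ht, h, neg_zero]⟩
      · exact absurd (sub_eq_zero.1 h) hne12
    · exfalso
      apply hvl
      have h3 : (s + t) • v = s • v₁ + t • v₂ := by
        rw [smul_sub, smul_sub] at hst
        rw [add_smul]
        have : s • v + t • v = (s • v₁ + t • v₂) - (s • v₁ - s • v + (t • v₂ - t • v)) := by abel
        rw [this, hst, sub_zero]
      have h4 : v = AffineMap.lineMap v₁ v₂ (t / (s + t)) := by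
        rw [AffineMap.lineMap_apply_module]
        have h5 : v = (s + t)⁻¹ • ((s + t) • v) := by
          rw [smul_smul, inv_mul_cancel₀ hsum, one_smul]
        rw [h5, h3, smul_add, smul_smul, smul_smul]
        congr 1
        · congr 1
          field_simp
          ring
        · congr 1
          field_simp
      rw [h4]
      exact AffineMap.lineMap_mem_affineSpan_pair _ _ _
  have hx0 : v₁ - v ≠ 0 := sub_ne_zero.2 hne1
  have hy0 : v₂ - v ≠ 0 := sub_ne_zero.2 hne2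
  have hp : ‖‖v₁ - v‖⁻¹ • (v₁ - v)‖ = 1 := norm_smul_inv_norm hx0
  have hq : ‖‖v₂ - v‖⁻¹ • (v₂ - v)‖ = 1 := norm_smul_inv_norm hy0
  have hi1 : ‖v₁ - v‖⁻¹ ≠ 0 := inv_ne_zero (norm_ne_zero_iff.2 hx0)
  have hi2 : ‖v₂ - v‖⁻¹ ≠ 0 := inv_ne_zero (norm_ne_zero_iff.2 hy0)
  refine ⟨v, ((hXmem v).1 hvX).1, v₁, ((hXmem v₁).1 hv₁).1, v₂, ((hXmem v₂).1 hv₂).1,
    mface_eq_singleton_of_extreme ((hXmem v).1 hvX), hne1, hne2, ?_, ?_, ?_⟩
  · have h3 : (-1 : ℝ) ≤ ⟪‖v₁ - v‖⁻¹ • (v₁ - v), ‖v₂ - v‖⁻¹ • (v₂ - v)⟫ := by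
      have := abs_real_inner_le_norm (‖v₁ - v‖⁻¹ • (v₁ - v)) (‖v₂ - v‖⁻¹ • (v₂ - v))
      rw [hp, hq, mul_one] at this
      exact (abs_le.1 this).1
    refine lt_of_le_of_ne h3 fun h => ?_
    have h4 := (inner_eq_neg_one_iff_of_norm_eq_one (𝕜 := ℝ) hp hq).1 h.symm
    have h5 := hli ‖v₁ - v‖⁻¹ ‖v₂ - v‖⁻¹ (by rw [h4]; simp)
    exact hi1 h5.1
  · apply inner_unit_le_half hx0 hy0
    · have : v₁ - v - (v₂ - v) = v₁ - v₂ := by abel
      rw [this]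
      exact hmax' _ hv₁ _ hvX
    · have : v₁ - v - (v₂ - v) = v₁ - v₂ := by abel
      rw [this]
      exact hmax' _ hv₂ _ hvX
  · symm
    apply Submodule.eq_of_le_of_finrank_eq
    · rw [Submodule.span_le]
      rintro z hz
      simp only [mem_insert_iff, mem_singleton_iff] at hz
      rcases hz with rfl | rfl
      · exact Submodule.smul_mem _ _ (vsub_mem_vectorSpan ℝ ((hXmem v₁).1 hv₁).1
          ((hXmem v).1 hvX).1)
      · exact Submodule.smul_mem _ _ (vsub_mem_vectorSpan ℝ ((hXmem v₂).1 hv₂).1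
          ((hXmem v).1 hvX).1)
    · rw [h2]
      have hlin : LinearIndependent ℝ ![‖v₁ - v‖⁻¹ • (v₁ - v), ‖v₂ - v‖⁻¹ • (v₂ - v)] := by
        rw [LinearIndependent.pair_iff]
        intro s t hst
        rw [smul_smul, smul_smul] at hst
        obtain ⟨h3, h4⟩ := hli _ _ hst
        exact ⟨(mul_eq_zero.1 h3).resolve_right hi1, (mul_eq_zero.1 h4).resolve_right hi2⟩
      have h3 := finrank_span_eq_card hlin
      have h4 : Set.range ![‖v₁ - v‖⁻¹ • (v₁ - v), ‖v₂ - v‖⁻¹ • (v₂ - v)] =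
          {‖v₁ - v‖⁻¹ • (v₁ - v), ‖v₂ - v‖⁻¹ • (v₂ - v)} := by
        simp [Matrix.range_cons, Matrix.range_empty, Set.pair_comm]
      rw [h4] at h3
      rw [h3, Fintype.card_fin]

end geometry

end Pool.Agent.Helper75
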