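import Pool.Agent.Helper75.Facets

open MeasureTheory Module Set Filter Topology MeasureTheory.Measure
open scoped RealInnerProductSpace ENNReal

namespace Pool.Agent.Helper75

variable {E : Type*} [NormedAddCommGroup E] [InnerProductSpace ℝ E] [FiniteDimensional ℝ E]

theorem exists_of_mem_kfaces_zero {P F : Set E} (hF : F ∈ kfaces 0 P) :
    ∃ x ∈ P, F = {x} ∧ mface P x = {x} := by
  obtain ⟨⟨x, hx, rfl⟩, hk⟩ := hF
  have h : mface P x = {x} := by
    apply Subset.antisymm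
    · intro y hy
      have h1 := vsub_mem_vectorSpan ℝ hy (self_mem_mface hx)
      rw [Submodule.finrank_eq_zero.1 hk, Submodule.mem_bot, vsub_eq_sub, sub_eq_zero] at h1
      exact h1
    · rintro y rfl
      exact self_mem_mface hx
  exact ⟨x, hx, h, h⟩

theorem mem_kfaces_zero {P : Set E} {x : E} (hx : x ∈ P) (h : mface P x = {x}) :
    {x} ∈ kfaces 0 P := by
  refine ⟨⟨x, hx, h.symm⟩, ?_⟩
  rw [vectorSpan_singleton, finrank_bot]

theorem not_sbtw_of_vertex {Q : Set E} {x y z : E} (hx : x ∈ Q) (hz : z ∈ Q)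
    (hy : mface Q y = {y}) (hxy : x ≠ y) (hyz : y ≠ z) : ¬ Wbtw ℝ x y z := by
  rintro ⟨t, ht, hty⟩
  rw [AffineMap.lineMap_apply_module] at hty
  have ht0 : t ≠ 0 := by
    rintro rfl
    apply hxy
    simpa using hty
  have ht1 : t ≠ 1 := by
    rintro rfl
    apply hyz
    simpa using hty.symm
  have h0 : 0 < t := lt_of_le_of_ne ht.1 (Ne.symm ht0)
  have h1 : t < 1 := lt_of_le_of_ne ht.2 ht1
  have : x ∈ mface Q y := mem_mface_of_combo hx hz (a := 1 - t) (b := t) (by linarith) h0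
    (by ring) hty.symm
  rw [hy] at this
  exact hxy this

theorem encard_vertices_le_two {Q : Set E} (hQ : finrank ℝ (vectorSpan ℝ Q) ≤ 1) :
    (kfaces 0 Q).encard ≤ 2 := by
  by_contra hcon
  push Not at hcon
  obtain ⟨t, ht, htc⟩ := exists_subset_encard_eq (k := 3) (s := kfaces 0 Q) (by
    have h := Order.add_one_le_of_lt hcon
    have h3 : (2 : ℕ∞) + 1 = 3 := rfl
    rwa [h3] at h)
  have htf : t.Finite := by
    apply finite_of_encard_le_coe (k := 3)
    rw [htc]; rfl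
  have htn : t.ncard = 3 := by
    rw [ncard, htc]; rfl
  obtain ⟨a, ha, b, hb, c, hc, hab, hac, hbc⟩ := (two_lt_ncard htf).1 (by omega)
  obtain ⟨x, hx, rfl, hx'⟩ := exists_of_mem_kfaces_zero (ht ha)
  obtain ⟨y, hy, rfl, hy'⟩ := exists_of_mem_kfaces_zero (ht hb)
  obtain ⟨z, hz, rfl, hz'⟩ := exists_of_mem_kfaces_zero (ht hc)
  have hxy : x ≠ y := fun h => hab (by rw [h])
  have hxz : x ≠ z := fun h => hac (by rw [h])
  have hyz : y ≠ z := fun h => hbc (by rw [h])
  have hcol : Collinear ℝ Q := collinear_iff_finrank_le_one.2 hQ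
  have hcol' : Collinear ℝ {x, y, z} := hcol.subset (by
    intro w hw
    simp only [mem_insert_iff, mem_singleton_iff] at hw
    rcases hw with rfl | rfl | rfl <;> assumption)
  rcases hcol'.wbtw_or_wbtw_or_wbtw with h | h | h
  · exact not_sbtw_of_vertex hx hz hy' hxy hyz h
  · exact not_sbtw_of_vertex hy hx hz' hyz hxz.symm h
  · exact not_sbtw_of_vertex hz hy hx' hxz.symm hxy h

variable [MeasurableSpace E] [BorelSpace E]

theorem zeta_zero_eq (P : Set E) : zeta 0 P = (kfaces 0 P).encard := by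
  unfold zeta
  rw [← ENNReal.tsum_set_one]
  refine tsum_congr fun F => ?_
  obtain ⟨x, _, hx, _⟩ := exists_of_mem_kfaces_zero F.2
  rw [hx]
  simp

theorem zeta_empty (k : ℕ) : zeta k (∅ : Set E) = 0 := by
  unfold zeta
  have : IsEmpty (kfaces k (∅ : Set E)) := by
    constructor
    rintro ⟨F, ⟨x, hx, _⟩, _⟩
    exact hx
  exact tsum_empty

theorem finrank_section {I : Finset (E × ℝ)} {u : E} {s : ℝ} (hs : s ∉ bad (poly I) u) {m : ℕ}
    (hm : finrank ℝ (vectorSpan ℝ (poly I)) = m + 1) (hne : (poly I ∩ hyp u s).Nonempty) :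
    finrank ℝ (vectorSpan ℝ (poly I ∩ hyp u s)) = m := by
  obtain ⟨w, hw, hwP⟩ := exists_mface_eq_self I (hne.mono inter_subset_left)
  have h1 : poly I ∈ kfaces (m + 1) (poly I) := ⟨⟨w, hw, hwP.symm⟩, hm⟩
  obtain ⟨x, _, _, _, h⟩ := section_mem_kfaces (convex_poly I) hs h1 hne
  exact h.2

/-- the perimeter of a polygon is at most a constant times its diameter. -/
theorem zeta_one_le_of_finrank_two {I : Finset (E × ℝ)} {D : ℝ}
    (hD : ∀ x ∈ poly I, ∀ y ∈ poly I, ‖x - y‖ ≤ D) (hI : (poly I).Nonempty)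
    (h2 : finrank ℝ (vectorSpan ℝ (poly I)) = 2) :
    zeta 1 (poly I) ≤ ENNReal.ofReal (4 * finrank ℝ E * D) := by
  obtain ⟨x₀, hx₀⟩ := hI
  have hD0 : 0 ≤ D := (norm_nonneg _).trans (hD x₀ hx₀ x₀ hx₀)
  let b := stdOrthonormalBasis ℝ E
  refine (zeta_succ_le b I 0).trans ?_
  have key : ∀ i, ∫⁻ s : ℝ, zeta 0 (poly I ∩ hyp (b i) s) ≤ ENNReal.ofReal (4 * D) := by
    intro i
    have hae : ∀ᵐ s : ℝ, zeta 0 (poly I ∩ hyp (b i) s) ≤
        (Icc (⟪b i, x₀⟫ - D) (⟪b i, x₀⟫ + D)).indicator (fun _ => (2 : ℝ≥0∞)) s := by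
      filter_upwards [(finite_bad I (b i)).countable.ae_notMem _] with s hs
      rcases (poly I ∩ hyp (b i) s).eq_empty_or_nonempty with h | h
      · rw [h, zeta_empty]; exact zero_le
      · have hfr := finrank_section hs h2 h
        obtain ⟨y, hy, hys⟩ := h
        have hmem : s ∈ Icc (⟪b i, x₀⟫ - D) (⟪b i, x₀⟫ + D) := by
          rw [mem_hyp] at hys
          have h1 : |⟪b i, y⟫ - ⟪b i, x₀⟫| ≤ D := by
            rw [← inner_sub_right]
            refine (abs_real_inner_le_norm _ _).trans ?_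
            rw [b.norm_eq_one i, one_mul]
            exact hD y hy x₀ hx₀
          rw [hys, abs_le] at h1
          exact ⟨by linarith, by linarith⟩
        rw [indicator_of_mem hmem, zeta_zero_eq]
        have h3 := encard_vertices_le_two (Q := poly I ∩ hyp (b i) s) hfr.le
        calc (((kfaces 0 (poly I ∩ hyp (b i) s)).encard : ℕ∞) : ℝ≥0∞) ≤ ((2 : ℕ∞) : ℝ≥0∞) :=
              ENat.toENNReal_mono h3
          _ = 2 := by simp
    refine (lintegral_mono_ae hae).trans ?_
    rw [lintegral_indicator measurableSet_Icc, lintegral_const, Measure.restrict_apply_univ,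
      Real.volume_Icc, ← ENNReal.ofReal_ofNat, ← ENNReal.ofReal_mul (by norm_num)]
    apply ENNReal.ofReal_le_ofReal
    linarith
  refine (Finset.sum_le_sum fun i _ => key i).trans ?_
  rw [Finset.sum_const, Finset.card_univ, Fintype.card_fin, nsmul_eq_mul,
    ← ENNReal.ofReal_natCast, ← ENNReal.ofReal_mul (by positivity)]
  apply ENNReal.ofReal_le_ofReal
  nlinarith

theorem zeta_one_le_faces {I : Finset (E × ℝ)} {D : ℝ}
    (hD : ∀ x ∈ poly I, ∀ y ∈ poly I, ‖x - y‖ ≤ D)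
    (h3 : finrank ℝ (vectorSpan ℝ (poly I)) = 3) :
    zeta 1 (poly I) ≤ (kfaces 2 (poly I)).encard * ENNReal.ofReal (4 * finrank ℝ E * D) := by
  have hF2 : ∀ F : kfaces 2 (poly I), zeta 1 (F : Set E) ≤
      ENNReal.ofReal (4 * finrank ℝ E * D) := by
    rintro ⟨F, hF⟩
    obtain ⟨J, hJ⟩ := exists_poly_eq_of_mem_faces hF.1
    have hsub : poly J ⊆ poly I := by
      rw [← hJ]
      obtain ⟨⟨x, hx, rfl⟩, _⟩ := hF
      exact mface_subset _ _
    have hne : (poly J).Nonempty := by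
      rw [← hJ]
      obtain ⟨⟨x, hx, rfl⟩, _⟩ := hF
      exact ⟨x, self_mem_mface hx⟩
    have h2 := hF.2
    show zeta 1 F ≤ _
    rw [hJ] at h2 ⊢
    exact zeta_one_le_of_finrank_two (fun x hx y hy => hD x (hsub hx) y (hsub hy)) hne h2
  -- each edge lies in a two-dimensional face
  have hedge : ∀ e : kfaces 1 (poly I), ∃ F : kfaces 2 (poly I), (e : Set E) ∈ kfaces 1 (F : Set E) := by
    rintro ⟨e, ⟨x, hx, rfl⟩, he⟩
    obtain ⟨F, ⟨y, hy, rfl⟩, hxF, hF⟩ := exists_facet hx (by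
      intro h
      rw [h, h3] at he
      omega)
    refine ⟨⟨mface (poly I) y, ⟨y, hy, rfl⟩, by omega⟩, ⟨x, hxF, ?_⟩, he⟩
    exact (mface_mface (convex_poly I) hxF).symm
  choose f hf using hedge
  calc zeta 1 (poly I) = ∑' e : kfaces 1 (poly I), μHE[1] (e : Set E) := rfl
    _ ≤ ∑' q : (Σ F : kfaces 2 (poly I), kfaces 1 (F : Set E)), μHE[1] (q.2 : Set E) := by
      let g : kfaces 1 (poly I) → (Σ F : kfaces 2 (poly I), kfaces 1 (F : Set E)) :=
        fun e => ⟨f e, ⟨e, hf e⟩⟩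
      have hg : Function.Injective g := by
        intro e e' h
        have h1 : ((g e).2 : Set E) = ((g e').2 : Set E) := by rw [h]
        exact Subtype.ext h1
      exact ENNReal.tsum_comp_le_tsum_of_injective hg
        (fun q : (Σ F : kfaces 2 (poly I), kfaces 1 (F : Set E)) => μHE[1] (q.2 : Set E))
    _ = ∑' F : kfaces 2 (poly I), zeta 1 (F : Set E) := by
      rw [ENNReal.tsum_sigma']
      rfl
    _ ≤ ∑' _ : kfaces 2 (poly I), ENNReal.ofReal (4 * finrank ℝ E * D) :=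
      ENNReal.tsum_le_tsum hF2
    _ = _ := by rw [ENNReal.tsum_set_const]

end Pool.Agent.Helper75
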