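import Mathlib
import Pool.Agent.Helper75.Corners
import Pool.Agent.Helper75.Perimeter

open MeasureTheory Module Set Filter Topology MeasureTheory.Measure
open scoped RealInnerProductSpace ENNReal

namespace Pool.Agent.Helper75

variable {E : Type*} [NormedAddCommGroup E] [InnerProductSpace ℝ E] [FiniteDimensional ℝ E]

/-- the data attached to a two-dimensional face of a three-dimensional polytope. -/
theorem exists_corner_data {I : Finset (E × ℝ)} (hb : Bornology.IsBounded (poly I))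
    (h3 : finrank ℝ (vectorSpan ℝ (poly I)) = 3) {F : Set E} (hF : F ∈ kfaces 2 (poly I)) :
    ∃ v b ν : E, v ∈ poly I ∧ mface (poly I) v = {v} ∧ ‖b‖ = 1 ∧ ‖ν‖ = 1 ∧ ⟪ν, b⟫ = 0 ∧
      ν ∈ vectorSpan ℝ (poly I) ∧ v ∈ F ∧
      F = {x | x ∈ poly I ∧ ∀ y ∈ poly I, ⟪ν, y⟫ ≤ ⟪ν, x⟫} ∧
      ∀ ν' ∈ vectorSpan ℝ (poly I), (∀ y ∈ poly I, ⟪ν', y⟫ ≤ ⟪ν', v⟫) →
        ⟪ν', b⟫ ≤ -(1 / 2) * ‖ν' - ⟪ν, ν'⟫ • ν‖ := by
  set L := vectorSpan ℝ (poly I) with hL
  obtain ⟨a, ha⟩ := exists_exposed_of_mem_faces hF.1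
  obtain ⟨J, hJ⟩ := exists_poly_eq_of_mem_faces hF.1
  obtain ⟨⟨x₀, hx₀, hFx⟩, h2⟩ := hF
  have hFsub : F ⊆ poly I := by rw [hFx]; exact mface_subset _ _
  have hbJ : Bornology.IsBounded (poly J) := by rw [← hJ]; exact hb.subset hFsub
  obtain ⟨v, hv, v₁, hv₁, v₂, hv₂, hvv, hv1, hv2, hpq1, hpq2, hspan⟩ :=
    exists_fat_corner hbJ (by rw [← hJ]; exact h2)
  rw [← hJ] at hv hv₁ hv₂ hvv hspan
  set p := ‖v₁ - v‖⁻¹ • (v₁ - v) with hp
  set q := ‖v₂ - v‖⁻¹ • (v₂ - v) with hq
  have hp1 : ‖p‖ = 1 := norm_smul_inv_norm (sub_ne_zero.2 hv1)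
  have hq1 : ‖q‖ = 1 := norm_smul_inv_norm (sub_ne_zero.2 hv2)
  -- the vertex
  have hvP : mface (poly I) v = {v} := by
    rw [← mface_mface (convex_poly I) (x := x₀) (by rw [← hFx]; exact hv), ← hFx]
    exact hvv
  -- the normal
  set ν₀ : E := (L.orthogonalProjectionOnto a : E) with hν₀
  have hν₀L : ν₀ ∈ L := (L.orthogonalProjectionOnto a).2
  have hinner : ∀ x ∈ poly I, ∀ y ∈ poly I, ⟪a, y⟫ - ⟪a, x⟫ = ⟪ν₀, y⟫ - ⟪ν₀, x⟫ := by
    intro x hx y hy
    have hm : y - x ∈ L := vsub_mem_vectorSpan ℝ hy hx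
    have := Submodule.inner_orthogonalProjectionOnto_eq_of_mem_right (K := L) ⟨y - x, hm⟩ a
    rw [Submodule.coe_inner] at this
    rw [← inner_sub_right, ← inner_sub_right]
    exact this.symm
  have hFν₀ : F = {x | x ∈ poly I ∧ ∀ y ∈ poly I, ⟪ν₀, y⟫ ≤ ⟪ν₀, x⟫} := by
    rw [ha]
    ext x
    refine and_congr_right fun hx => forall₂_congr fun y hy => ?_
    have := hinner x hx y hy
    constructor <;> intro h <;> linarith
  have hν₀0 : ν₀ ≠ 0 := by
    intro h
    have : F = poly I := by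
      rw [hFν₀, h]
      ext x
      simp
    rw [this, ← hL, h3] at h2
    omega
  have hν₀n : 0 < ‖ν₀‖ := norm_pos_iff.2 hν₀0
  set ν := ‖ν₀‖⁻¹ • ν₀ with hν
  have hν1 : ‖ν‖ = 1 := norm_smul_inv_norm hν₀0
  have hνL : ν ∈ L := Submodule.smul_mem _ _ hν₀L
  have hFν : F = {x | x ∈ poly I ∧ ∀ y ∈ poly I, ⟪ν, y⟫ ≤ ⟪ν, x⟫} := by
    rw [hFν₀]
    ext x
    refine and_congr_right fun hx => forall₂_congr fun y hy => ?_
    rw [hν, inner_smul_left, inner_smul_left]
    simp only [conj_trivial]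
    exact (mul_le_mul_iff_right₀ (inv_pos.2 hν₀n)).symm
  -- the plane of the face
  have hWle : vectorSpan ℝ F ≤ L ⊓ (ℝ ∙ ν)ᗮ := by
    refine le_inf (vectorSpan_mono ℝ hFsub) ?_
    rw [vectorSpan_eq_span_vsub_set_right ℝ hv, Submodule.span_le]
    rintro _ ⟨y, hy, rfl⟩
    rw [SetLike.mem_coe, Submodule.mem_orthogonal_singleton_iff_inner_right]
    simp only [vsub_eq_sub, inner_sub_right]
    have h5 := hy
    have h6 := hv
    rw [hFν] at h5 h6
    have h7 := h5.2 v h6.1
    have h8 := h6.2 y h5.1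
    linarith
  have hfr : finrank ℝ (L ⊓ (ℝ ∙ ν)ᗮ : Submodule ℝ E) + 1 = 3 := by
    rw [← h3]
    apply finrank_inf_orth
    intro h
    have h5 := (Submodule.mem_orthogonal' _ _).1 h ν hνL
    rw [real_inner_self_eq_norm_sq, hν1] at h5
    norm_num at h5
  have hW : vectorSpan ℝ F = L ⊓ (ℝ ∙ ν)ᗮ :=
    Submodule.eq_of_le_of_finrank_eq hWle (by omega)
  have hpW : p ∈ vectorSpan ℝ F := by
    rw [hspan]; exact Submodule.subset_span (by simp)
  have hqW : q ∈ vectorSpan ℝ F := by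
    rw [hspan]; exact Submodule.subset_span (by simp)
  have hνp : ⟪ν, p⟫ = 0 := by
    rw [hW] at hpW
    exact Submodule.mem_orthogonal_singleton_iff_inner_right.1 hpW.2
  have hνq : ⟪ν, q⟫ = 0 := by
    rw [hW] at hqW
    exact Submodule.mem_orthogonal_singleton_iff_inner_right.1 hqW.2
  have hNpos := norm_add_pos_unit hp1 hq1 hpq1
  refine ⟨v, ‖p + q‖⁻¹ • (p + q), ν, hFsub hv, hvP, ?_, hν1, ?_, hνL, hv, hFν, ?_⟩
  · exact norm_smul_inv_norm (norm_pos_iff.1 hNpos)
  · rw [inner_smul_right, inner_add_right, hνp, hνq, add_zero, mul_zero]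
  · intro ν' hν'L hν'
    have hw : ν' - ⟪ν, ν'⟫ • ν ∈ vectorSpan ℝ F := by
      rw [hW]
      refine ⟨Submodule.sub_mem _ hν'L (Submodule.smul_mem _ _ hνL), ?_⟩
      rw [SetLike.mem_coe, Submodule.mem_orthogonal_singleton_iff_inner_right, inner_sub_right,
        inner_smul_right, real_inner_self_eq_norm_sq, hν1]
      ring
    rw [hspan, Submodule.mem_span_pair] at hw
    obtain ⟨α, β, hαβ⟩ := hw
    have hle : ∀ z ∈ F, ∀ r : ℝ, 0 ≤ r → ⟪ν', r • (z - v)⟫ ≤ 0 := by
      intro z hz r hr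
      rw [inner_smul_right, inner_sub_right]
      exact mul_nonpos_of_nonneg_of_nonpos hr (by linarith [hν' z (hFsub hz)])
    refine inner_bisector_le hp1 hq1 hpq1 hpq2 (hle _ hv₁ _ (by positivity))
      (hle _ hv₂ _ (by positivity)) (hαβ.symm) ?_ ?_
    · rw [inner_sub_left, inner_smul_left, hνp]; simp
    · rw [inner_sub_left, inner_smul_left, hνq]; simp

theorem encard_kfaces_two_le {I : Finset (E × ℝ)} (hb : Bornology.IsBounded (poly I))
    (h3 : finrank ℝ (vectorSpan ℝ (poly I)) = 3) :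
    (kfaces 2 (poly I)).encard ≤ 25 ^ finrank ℝ E * (kfaces 0 (poly I)).encard := by
  classical
  have hdata := fun F : kfaces 2 (poly I) => exists_corner_data hb h3 F.2
  choose v b ν hv hvv hb1 hν1 hνb hνL hvF hFν hsep using hdata
  have : Finite (kfaces 2 (poly I)) := (finite_kfaces_poly 2 I).to_subtype
  have : Finite (kfaces 0 (poly I)) := (finite_kfaces_poly 0 I).to_subtype
  have : Fintype (kfaces 2 (poly I)) := Fintype.ofFinite _
  have : Fintype (kfaces 0 (poly I)) := Fintype.ofFinite _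
  let f : kfaces 2 (poly I) → kfaces 0 (poly I) := fun F => ⟨{v F}, mem_kfaces_zero (hv F) (hvv F)⟩
  let g : kfaces 2 (poly I) → E × E := fun F => ((2 : ℝ) • b F, (2 : ℝ) • ν F)
  have hgsep : ∀ F F' : kfaces 2 (poly I), f F = f F' → F ≠ F' → 1 ≤ ‖g F - g F'‖ := by
    intro F F' hff hne
    have hvv' : v F = v F' := by
      have : ({v F} : Set E) = {v F'} := Subtype.ext_iff.1 hff
      exact singleton_injective this
    have hνne : ν F ≠ ν F' := by
      intro h
      apply hne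
      apply Subtype.ext
      rw [hFν F, hFν F', h]
    have hmax : ∀ F : kfaces 2 (poly I), ∀ y ∈ poly I, ⟪ν F, y⟫ ≤ ⟪ν F, v F⟫ := by
      intro F
      have := hvF F
      rw [hFν F] at this
      exact this.2
    have h1 := hsep F (ν F') (hνL F') (by rw [hvv']; exact hmax F')
    have h2 := hsep F' (ν F) (hνL F) (by rw [← hvv']; exact hmax F)
    have h3 := corner_separated (hν1 F) (hν1 F') (hνb F) (hνb F') h1 h2 hνne
    have h4 : g F - g F' = ((2 : ℝ) • (b F - b F'), (2 : ℝ) • (ν F - ν F')) := by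
      simp only [g, Prod.mk_sub_mk, smul_sub]
    rw [h4, Prod.norm_mk, norm_smul, norm_smul, Real.norm_eq_abs, abs_of_pos two_pos]
    rcases h3 with h | h
    · exact le_max_of_le_left (by linarith)
    · exact le_max_of_le_right (by linarith)
  have hcard : (Finset.univ : Finset (kfaces 2 (poly I))).card ≤
      25 ^ finrank ℝ E * (Finset.univ.image f).card := by
    apply Finset.card_le_mul_card_image
    intro a _
    set S := Finset.univ.filter fun F => f F = a with hS
    have hmem : ∀ F, F ∈ S ↔ f F = a := fun F => by simp [hS]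
    have hinj : Set.InjOn g S := by
      intro F hF F' hF' h
      by_contra hne
      have h1 := hgsep F F' (((hmem F).1 hF).trans ((hmem F').1 hF').symm) hne
      rw [h, sub_self, norm_zero] at h1
      linarith
    rw [← Finset.card_image_of_injOn hinj]
    have h5 := Besicovitch.card_le_of_separated (S.image g) (by
      intro c hc
      obtain ⟨F, _, rfl⟩ := Finset.mem_image.1 hc
      simp only [g, Prod.norm_mk, norm_smul, Real.norm_eq_abs, hb1, hν1, mul_one, max_self]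
      norm_num) (by
      intro c hc d hd hcd
      obtain ⟨F, hF, rfl⟩ := Finset.mem_image.1 hc
      obtain ⟨F', hF', rfl⟩ := Finset.mem_image.1 hd
      exact hgsep F F' (((hmem F).1 hF).trans ((hmem F').1 hF').symm) fun h => hcd (by rw [h]))
    refine h5.trans (le_of_eq ?_)
    rw [Module.finrank_prod, pow_add, ← mul_pow]
    norm_num
  have hcard2 : (Finset.univ.image f).card ≤ Fintype.card (kfaces 0 (poly I)) :=
    Finset.card_le_univ _
  have e2 : (kfaces 2 (poly I)).encard = ((Finset.univ : Finset (kfaces 2 (poly I))).card : ℕ∞) := by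
    rw [Finset.card_univ, encard_eq_coe_toFinset_card, toFinset_card]
  have e0 : (kfaces 0 (poly I)).encard = (Fintype.card (kfaces 0 (poly I)) : ℕ∞) := by
    rw [encard_eq_coe_toFinset_card, toFinset_card]
  rw [e2, e0]
  have := hcard.trans (Nat.mul_le_mul_left _ hcard2)
  exact_mod_cast this

end Pool.Agent.Helper75
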